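import Pool.Agent.H.MP_f96d9d_nt.Q2.DomS

/-!
# The block lemma

`rc_yy`: `rc μ` is linear in `(a, b, c)`; put `rc (j+2+pρ) (a,b,c) = rc (j+2) (a,b,c) + p ρ R'(a,b,c)`
where `R'` is the derivative in `μ` at `j+2` (`p^2 = 0`; all of this is a polynomial identity:
`(μ + pρ)^3 = μ^3 + 3 μ^2 pρ` etc). Then with `a = (1+ρ) D - ρ D*`:
`rc (j+2+pρ)(yy) = (1+ρ) [rc (j+2)(D) + pρ R'(D)] - ρ [rc (j+2-p)(D*) + p(1+ρ) R'(D*)]
 = pρ(1+ρ) [R'(D) - R'(D*)] = 0` since `p D*_i = p D_i` (`pDs`). In practice: one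
`linear_combination` with `rc_D`, `rc_Ds`, the three instances of `pDs` and `p_sq`.
`rc_yy1`: the same with `rc_D1`, `rc_Ds1`.
`block`: strong induction on `j < p`. `j = 0`: `yy_zero`. For `j ≥ 1` look at the coefficient of
`X^(pr+j)` in `Ld (pς) F = 0` (`coeff_Ld`, `coeff_Ld_one`; `pr+j - pς = j + p(r-ς)` in the ring):
`rc (j+pρ) F_(pr+j) F_(pr+j-1) F_(pr+j-2) = 0`, `ρ = r - ς`. For `j = 1` the last term has the factor
`64 (pρ)^3 = 0` (and for `r = 0` there is no `F_(-1)`: use `coeff_Ld_one`). By induction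
`F_(pr+i) = F_(pr) yy_i` for `i < j`, and `F_(pr) * rc_yy`, so
`(j+pρ)^3 (F_(pr+j) - F_(pr) yy_j) = 0`; `j + pρ` is a unit (`j` is a unit by `unit_nat`, and
`(j+pρ)(j-pρ) = j^2`).
-/

set_option autoImplicit false

namespace MPf96

open Polynomial Finset

variable {p n : ℕ} [hp : Fact p.Prime]

theorem yy_zero (hn : p = 2 * n + 1) (ρ : ZMod (p ^ 2)) : yy p ρ 0 = 1 := by
  unfold yy
  rw [Dz_zero, Ds_zero hn]
  ring

theorem block_aux {R : Type*} [CommRing R] {P ρ μ a b c a' b' c' : R} (hP : P ^ 2 = 0)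
    (h1 : rc μ a b c = 0) (h2 : rc (μ - P) a' b' c' = 0) (e2 : P * a' = P * a)
    (e1 : P * b' = P * b) (e0 : P * c' = P * c) :
    rc (μ + P * ρ) ((1 + ρ) * a - ρ * a') ((1 + ρ) * b - ρ * b') ((1 + ρ) * c - ρ * c') = 0 := by
  unfold rc at *
  linear_combination (1 + ρ) * h1 - ρ * h2 - ρ * (1 + ρ) * (3 * μ ^ 2) * e2 +
    ρ * (1 + ρ) * (60 * μ ^ 2 - 60 * μ + 18) * e1 - ρ * (1 + ρ) * (192 * (μ - 1) ^ 2) * e0 +
    ((3 * μ * ρ ^ 2 + P * ρ ^ 3) * ((1 + ρ) * a - ρ * a') -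
      ((60 * μ - 30) * ρ ^ 2 + 20 * P * ρ ^ 3) * ((1 + ρ) * b - ρ * b') +
      64 * (3 * (μ - 1) * ρ ^ 2 + P * ρ ^ 3) * ((1 + ρ) * c - ρ * c') +
      ρ * ((3 * μ - P) * a' - ((60 * μ - 30) - 20 * P) * b' + 64 * (3 * (μ - 1) - P) * c')) * hP

theorem rc_yy (hn : p = 2 * n + 1) (ρ : ZMod (p ^ 2)) {j : ℕ} (hj : j + 2 < p) :
    rc ((j : ZMod (p ^ 2)) + 2 + (p : ZMod (p ^ 2)) * ρ) (yy p ρ (j + 2)) (yy p ρ (j + 1)) (yy p ρ j) = 0 := by
  unfold yy
  exact block_aux p_sq (rc_D p j) (rc_Ds hn hj) (pDs hn (by omega)) (pDs hn (by omega))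
    (pDs hn (by omega))

theorem rc_yy1 (hn : p = 2 * n + 1) (ρ : ZMod (p ^ 2)) :
    rc (1 + (p : ZMod (p ^ 2)) * ρ) (yy p ρ 1) (yy p ρ 0) 0 = 0 := by
  have hp2 := hp.out.two_le
  have h := block_aux (ρ := ρ) (c := 0) (c' := 0) p_sq (rc_D1 p) (rc_Ds1 hn) (pDs hn (by omega))
    (pDs hn (by omega)) rfl
  unfold yy
  rw [show (1 + ρ) * (0 : ZMod (p ^ 2)) - ρ * 0 = 0 by ring] at h
  exact h

theorem block_unit {j : ℕ} (h0 : 0 < j) (h1 : j < p) (ρ : ZMod (p ^ 2)) :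
    IsUnit ((j : ZMod (p ^ 2)) + (p : ZMod (p ^ 2)) * ρ) := by
  have h2 : IsUnit (j : ZMod (p ^ 2)) := unit_nat (not_dvd_of_lt h0 h1)
  have h3 : ((j : ZMod (p ^ 2)) + (p : ZMod (p ^ 2)) * ρ) * ((j : ZMod (p ^ 2)) - (p : ZMod (p ^ 2)) * ρ)
      = (j : ZMod (p ^ 2)) * (j : ZMod (p ^ 2)) := by
    linear_combination (-ρ ^ 2) * (p_sq (p := p))
  exact isUnit_of_mul_isUnit_left (h3 ▸ h2.mul h2)

theorem block_cancel {j : ℕ} (h0 : 0 < j) (h1 : j < p) (ρ : ZMod (p ^ 2)) {x y : ZMod (p ^ 2)}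
    (h : ((j : ZMod (p ^ 2)) + (p : ZMod (p ^ 2)) * ρ) ^ 3 * (x - y) = 0) : x = y := by
  have h2 := ((block_unit h0 h1 ρ).pow 3).mul_right_eq_zero.1 h
  exact sub_eq_zero.1 h2

theorem block (hn : p = 2 * n + 1) (ς : ZMod (p ^ 2)) {F : (ZMod (p ^ 2))[X]}
    (hF : Ld ((p : ZMod (p ^ 2)) * ς) F = 0) (r : ℕ) {j : ℕ} (hj : j < p) :
    F.coeff (p * r + j) = F.coeff (p * r) * yy p ((r : ZMod (p ^ 2)) - ς) j := by
  induction j using Nat.strong_induction_on with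
  | _ j ih =>
    match j, hj, ih with
    | 0, _, _ => rw [yy_zero hn, add_zero, mul_one]
    | 1, hj, _ =>
      have hP := p_sq (p := p)
      have hy := rc_yy1 hn ((r : ZMod (p ^ 2)) - ς)
      rw [yy_zero hn] at hy
      have hc : rc (1 + (p : ZMod (p ^ 2)) * ((r : ZMod (p ^ 2)) - ς)) (F.coeff (p * r + 1))
          (F.coeff (p * r)) 0 = 0 := by
        rcases Nat.eq_zero_or_pos r with h0 | h0
        · subst h0
          have h1 := coeff_Ld_one ((p : ZMod (p ^ 2)) * ς) F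
          rw [hF, coeff_zero] at h1
          rw [mul_zero, zero_add]
          unfold rc at h1 ⊢
          push_cast
          linear_combination -h1
        · have hpr : 0 < p * r := Nat.mul_pos hp.out.pos h0
          obtain ⟨m, hm⟩ : ∃ m, p * r = m + 1 := ⟨p * r - 1, by omega⟩
          have hmc : (p : ZMod (p ^ 2)) * (r : ZMod (p ^ 2)) = (m : ZMod (p ^ 2)) + 1 := by
            exact_mod_cast congrArg (fun k : ℕ => (k : ZMod (p ^ 2))) hm
          have h1 := coeff_Ld ((p : ZMod (p ^ 2)) * ς) F m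
          rw [hF, coeff_zero] at h1
          have e1 : (m : ZMod (p ^ 2)) + 2 - (p : ZMod (p ^ 2)) * ς =
              1 + (p : ZMod (p ^ 2)) * ((r : ZMod (p ^ 2)) - ς) := by
            linear_combination -hmc
          rw [e1] at h1
          rw [hm]
          unfold rc at h1 ⊢
          linear_combination -h1 - (64 * (p : ZMod (p ^ 2)) * ((r : ZMod (p ^ 2)) - ς) ^ 3 *
            F.coeff m) * hP
      refine block_cancel one_pos hj ((r : ZMod (p ^ 2)) - ς) ?_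
      unfold rc at hc hy
      push_cast
      linear_combination hc - F.coeff (p * r) * hy
    | j + 2, hj, ih =>
      have i1 := ih (j + 1) (by omega) (by omega)
      have i0 := ih j (by omega) (by omega)
      have hy := rc_yy hn ((r : ZMod (p ^ 2)) - ς) hj
      have h1 := coeff_Ld ((p : ZMod (p ^ 2)) * ς) F (p * r + j)
      rw [hF, coeff_zero] at h1
      rw [show p * r + j + 2 = p * r + (j + 2) by ring, show p * r + j + 1 = p * r + (j + 1) by ring,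
        i1, i0] at h1
      refine block_cancel (j := j + 2) (by omega) hj ((r : ZMod (p ^ 2)) - ς) ?_
      unfold rc at h1 hy
      push_cast at h1 ⊢
      linear_combination -h1 - F.coeff (p * r) * hy

end MPf96
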