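import Pool.Agent.H.MP_f96d9d_nt.Q2.DBase
import Pool.Agent.H.MP_f96d9d_nt.Rev
import Pool.Agent.H.MP_f96d9d_nt.Harm
import Pool.Agent.H.MP_f96d9d_nt.RecA

/-!
# `D_(p-1) = 1 + 6 η` and `D_p = 4` modulo `p^2`

`dom_top`: `p = 2n+1`. `C(2k,k) = 4^k u_k`, so `F(p-1,k) = C(p-1,k)^2 4^(p-1) u_k u_(p-1-k)`. By `H3`
`C(2n,k) = (-1)^k (1 - p Hs k)`, so `C(2n,k)^2 = 1 - 2 p Hs k`. Hence
`D_(p-1) = 4^(p-1) [∑ u_k u_(2n-k) - 2 ∑ p Hs_k u_k u_(2n-k)]`. In the second sum, for `k ≠ n` one of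
`k`, `2n-k` is in `(n, p)`, so `u_k u_(2n-k)` is a multiple of `p` (`u_big`) and the term is 0; the
term `k = n` is `p Hs_n u_n^2 = -2 η u_n^2 = -2 η` (`H1`, `u_n^2 = (2^(p-1))^2 = (1+η)^2` by `H4`,
`η^2 = 0`). The first sum is `1`: `∑_{k ≤ N} C(2k,k) C(2(N-k),N-k) = 4^N` over the integers
(prove it from `u_succ`: it is `Tv h 1 N = 1`; `r0v` of `RecA.lean` with `t = 1` gives
`2(k+2) T_(k+2) = 2(2k+3) T_(k+1) - 2(k+1) T_k` over `ℚ`, so `T_k = 1` by induction; then multiply by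
`4^N` and cast to `ZMod (p^2)`; or use an existing Mathlib lemma on centralBinom convolutions).
`4^(p-1) = (1+η)^2 = 1 + 2η`. Total `(1 + 2η)(1 + 4η) = 1 + 6η`.

`dom_p`: `D_p = ∑_{k ≤ p} C(p,k)^2 C(2k,k) C(2(p-k),p-k)`; for `0 < k < p` `p ∣ C(p,k)`, so the term is 0
in `ZMod (p^2)`; the terms `k = 0` and `k = p` are both `C(2p,p)`, and
`C(2p,p) = ∑ C(p,k)^2` (`Nat.sum_range_choose_mul..`/Vandermonde) is `2` modulo `p^2`.
-/

set_option autoImplicit false

namespace MPf96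

open Finset

theorem domv_Tv (N : ℕ) : Tv (1 / 2 : ℚ) 1 N = 1 := by
  have hh : 2 * (1 / 2 : ℚ) = 1 := by norm_num
  induction N using Nat.strong_induction_on with
  | _ N ih =>
    rcases N with _ | _ | N
    · exact Tv_zero 1
    · have h1 := Tv_one hh 1
      simp only [Nat.zero_add]
      linarith
    · have h1 := r0v hh 1 N
      rw [ih (N + 1) (by omega), ih N (by omega)] at h1
      have h2 : (2 * ((N : ℚ) + 2)) ≠ 0 := by positivity
      have h3 : (2 * ((N : ℚ) + 2)) * Tv (1 / 2 : ℚ) 1 (N + 2) = (2 * ((N : ℚ) + 2)) * 1 := by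
        rw [h1]
        ring
      exact mul_left_cancel₀ h2 h3

theorem domv_conv (N : ℕ) :
    ∑ k ∈ range (N + 1), Nat.centralBinom k * Nat.centralBinom (N - k) = 4 ^ N := by
  have h1 := domv_Tv N
  unfold Tv at h1
  have h2 : ∀ k ∈ range (N + 1), (4 : ℚ) ^ N * (u (1 / 2 : ℚ) k * u (1 / 2 : ℚ) (N - k) * 1 ^ k) =
      ((Nat.centralBinom k * Nat.centralBinom (N - k) : ℕ) : ℚ) := by
    intro k hk
    have hk' : k ≤ N := by
      have := mem_range.1 hk
      omega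
    obtain ⟨m, rfl⟩ := Nat.exists_eq_add_of_le hk'
    have e1 : (1 / 2 : ℚ) ^ (2 * k) * 4 ^ k = 1 := by
      rw [pow_mul, ← mul_pow]
      norm_num
    have e2 : (1 / 2 : ℚ) ^ (2 * m) * 4 ^ m = 1 := by
      rw [pow_mul, ← mul_pow]
      norm_num
    rw [show k + m - k = m by omega]
    unfold u
    push_cast
    rw [pow_add, one_pow]
    linear_combination ((Nat.centralBinom k : ℚ) * (Nat.centralBinom m : ℚ)) *
      (e1 * ((1 / 2 : ℚ) ^ (2 * m) * 4 ^ m) + e2)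
  have h3 : ((∑ k ∈ range (N + 1), Nat.centralBinom k * Nat.centralBinom (N - k) : ℕ) : ℚ) =
      ((4 ^ N : ℕ) : ℚ) := by
    rw [Nat.cast_sum, ← sum_congr rfl h2, ← mul_sum, h1]
    push_cast
    ring
  exact_mod_cast h3

variable {p n : ℕ} [hp : Fact p.Prime]

theorem domv_cb (h2 : p ≠ 2) (k : ℕ) :
    (Nat.centralBinom k : ZMod (p ^ 2)) = 4 ^ k * u (half p) k := by
  have h := two_half (p := p) h2
  have e : (4 : ZMod (p ^ 2)) ^ k * (half p) ^ (2 * k) = 1 := by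
    rw [pow_mul, ← mul_pow]
    have : (4 : ZMod (p ^ 2)) * (half p) ^ 2 = 1 := by
      linear_combination (2 * half p + 1) * h
    rw [this, one_pow]
  unfold u
  linear_combination (-(Nat.centralBinom k : ZMod (p ^ 2))) * e

theorem domv_pcb (hn : p = 2 * n + 1) {k : ℕ} (hk : k ≤ 2 * n) (hkn : k ≠ n) :
    (p : ZMod (p ^ 2)) * ((Nat.centralBinom k : ZMod (p ^ 2)) *
      (Nat.centralBinom (2 * n - k) : ZMod (p ^ 2))) = 0 := by
  have h2 : p ≠ 2 := rev_ne_two hn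
  have ep := p_sq (p := p)
  rcases Nat.lt_or_gt_of_ne hkn with h | h
  · obtain ⟨z, hz⟩ := u_big hn (j := 2 * n - k) (by omega) (by omega)
    rw [domv_cb h2 (2 * n - k), hz]
    linear_combination ((Nat.centralBinom k : ZMod (p ^ 2)) * 4 ^ (2 * n - k) * z) * ep
  · obtain ⟨z, hz⟩ := u_big hn (j := k) h (by omega)
    rw [domv_cb h2 k, hz]
    linear_combination ((Nat.centralBinom (2 * n - k) : ZMod (p ^ 2)) * 4 ^ k * z) * ep

theorem domv_Dz (p N : ℕ) : Dz p N = ∑ k ∈ range (N + 1), (N.choose k : ZMod (p ^ 2)) ^ 2 *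
    ((Nat.centralBinom k : ZMod (p ^ 2)) * (Nat.centralBinom (N - k) : ZMod (p ^ 2))) := by
  unfold Dz dom FT
  push_cast
  exact sum_congr rfl fun k _ => by ring

theorem dom_top (hn : p = 2 * n + 1) : Dz p (p - 1) = 1 + 6 * eta p := by
  have hp1 : p - 1 = 2 * n := by omega
  have ep := p_sq (p := p)
  have ee := eta_sq hn
  have epe := p_eta hn
  rw [hp1, domv_Dz]
  have h1 : ∀ k ∈ range (2 * n + 1), ((2 * n).choose k : ZMod (p ^ 2)) ^ 2 *
      ((Nat.centralBinom k : ZMod (p ^ 2)) * (Nat.centralBinom (2 * n - k) : ZMod (p ^ 2))) =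
      ((Nat.centralBinom k * Nat.centralBinom (2 * n - k) : ℕ) : ZMod (p ^ 2)) +
      (if k = n then 4 * eta p else 0) := by
    intro k hk
    have hk' : k ≤ 2 * n := by
      have := mem_range.1 hk
      omega
    have hs : ((-1 : ZMod (p ^ 2)) ^ k) ^ 2 = 1 := by
      rw [← pow_mul, mul_comm, pow_mul]
      norm_num
    by_cases hkn : k = n
    · subst hkn
      have e1 := H1 hn
      have e2 : (Nat.centralBinom k : ZMod (p ^ 2)) = (-1) ^ k * (1 - p * Hs p k) := by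
        rw [Nat.centralBinom_eq_two_mul_choose, H3 hn hk']
      rw [if_pos rfl, H3 hn hk', show 2 * k - k = k by omega]
      push_cast
      rw [e2, e1]
      have hs4 : ((-1 : ZMod (p ^ 2)) ^ k) ^ 4 = 1 := by
        linear_combination (((-1 : ZMod (p ^ 2)) ^ k) ^ 2 + 1) * hs
      generalize (-1 : ZMod (p ^ 2)) ^ k = s at hs hs4
      linear_combination (1 - -2 * eta p) ^ 4 * hs4 - (1 - -2 * eta p) ^ 2 * hs +
        (20 + 32 * eta p + 16 * eta p ^ 2) * ee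
    · rw [if_neg hkn, H3 hn hk']
      have e1 := domv_pcb hn hk' hkn
      push_cast
      linear_combination ((1 - (p : ZMod (p ^ 2)) * Hs p k) ^ 2 *
        ((Nat.centralBinom k : ZMod (p ^ 2)) *
          (Nat.centralBinom (2 * n - k) : ZMod (p ^ 2)))) * hs +
        (-2 * Hs p k + Hs p k ^ 2 * p) * e1
  rw [sum_congr rfl h1, sum_add_distrib, ← Nat.cast_sum, domv_conv,
    sum_ite_eq' (range (2 * n + 1)) n (fun _ => 4 * eta p), if_pos (mem_range.2 (by omega))]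
  have e3 : eta p = 2 ^ (2 * n) - 1 := by
    unfold eta
    rw [hp1]
  have e4 : (((4 : ℕ) ^ (2 * n) : ℕ) : ZMod (p ^ 2)) = (2 ^ (2 * n)) ^ 2 := by
    push_cast
    rw [show (4 : ZMod (p ^ 2)) = 2 ^ 2 by norm_num, ← pow_mul, ← pow_mul, mul_comm]
  rw [e4]
  have e5 : (2 : ZMod (p ^ 2)) ^ (2 * n) = 1 + eta p := by
    rw [e3]
    ring
  rw [e5]
  linear_combination ee

theorem domv_choose_sq {k : ℕ} (h0 : k ≠ 0) (h1 : k ≠ p) (h2 : k < p + 1) :
    (p.choose k : ZMod (p ^ 2)) ^ 2 = 0 := by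
  obtain ⟨z, hz⟩ := hp.out.dvd_choose_self h0 (by omega)
  rw [hz]
  push_cast
  have ep := p_sq (p := p)
  linear_combination (z : ZMod (p ^ 2)) ^ 2 * ep

theorem domv_sum (f : ℕ → ZMod (p ^ 2)) :
    ∑ k ∈ range (p + 1), (p.choose k : ZMod (p ^ 2)) ^ 2 * f k = f 0 + f p := by
  have hp0 : p ≠ 0 := hp.out.ne_zero
  have h1 : ∑ k ∈ ({0, p} : Finset ℕ), (p.choose k : ZMod (p ^ 2)) ^ 2 * f k =
      ∑ k ∈ range (p + 1), (p.choose k : ZMod (p ^ 2)) ^ 2 * f k := by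
    apply sum_subset
    · intro k hk
      simp only [mem_insert, mem_singleton] at hk
      rw [mem_range]
      rcases hk with rfl | rfl <;> omega
    · intro k hk hk2
      simp only [mem_insert, mem_singleton, not_or] at hk2
      rw [domv_choose_sq hk2.1 hk2.2 (mem_range.1 hk), zero_mul]
  rw [← h1, sum_pair hp0.symm]
  simp

theorem choose_2p (hn : p = 2 * n + 1) : (Nat.centralBinom p : ZMod (p ^ 2)) = 2 := by
  rw [Nat.centralBinom_eq_two_mul_choose, ← Nat.sum_range_choose_sq, Nat.cast_sum]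
  have h1 := domv_sum (p := p) (fun _ => 1)
  simp only [mul_one] at h1
  push_cast
  rw [h1]
  norm_num

theorem dom_p (hn : p = 2 * n + 1) : Dz p p = 4 := by
  rw [domv_Dz, domv_sum (p := p) (fun k => (Nat.centralBinom k : ZMod (p ^ 2)) *
    (Nat.centralBinom (p - k) : ZMod (p ^ 2)))]
  simp only [Nat.sub_zero, Nat.sub_self, Nat.centralBinom_zero, Nat.cast_one, one_mul, mul_one,
    choose_2p hn]
  norm_num

end MPf96
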