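import Pool.Agent.H.MP_f96d9d_nt.Q2.DBase
import Pool.Agent.H.MP_f96d9d_nt.Harm
import Pool.Agent.H.MP_f96d9d_nt.HarmA

/-!
# The even and odd binomial sums at `-3` and `-1/3`

`Et t = ∑_{i ≤ n} C(p,2i) t^i`, `Ot t = ∑_{i ≤ n} C(p,2i+1) t^i`, `p = 2n+1`.

`EO_int`: over `ℤ`: with `s` a square root of `-3` (work in `Zsqrtd (-3)`, `s = ⟨0,1⟩`, or in `ℂ`):
`(1 + s)^p = E + O s`, `E = ∑ C(p,2i)(-3)^i`, `O = ∑ C(p,2i+1)(-3)^i` (binomial theorem, split the sum over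
`range (2n+2)` by parity). `(1+s)^3 = -8`. Another way, without binomials of `p`: put `(1+s)^m = a_m + b_m s`
with `a_(m+1) = a_m - 3 b_m`, `b_(m+1) = a_m + b_m`. If `p = 3a+1` then `a` is even and
`(1+s)^p = (-8)^a (1+s) = 2^(p-1) (1+s)`; if `p = 3a+2` then `a` is odd and
`(1+s)^p = (-8)^a (-2 + 2 s) = 2^(p-2) (2 - 2 s)`. So `E = 2^(p-1)` and `O = ± 2^(p-1)`.
`2^(p-1) = 1 + η` by definition of `eta`.
`Et_third`: `C(p,2i) = C(p,2(n-i)+1)` (`Nat.choose_symm`), `(-w)^i = (-w)^n (-3)^(n-i)` as `3w = 1`;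
reflect the sum.
`Et_sum`: for `1 ≤ i ≤ n`: `2 C(p,2i) = - p/i` in `ZMod (p^2)`: `harm_choose` gives
`C(2n+1,k+1) = (-1)^k harm_e p (k+1)`; with `k + 1 = 2i`: `C(p,2i) = - harm_e p (2i)` and
`2 harm_e p (2i) = harm_e p i` (`harm_two`). So `2 Et t = 2 - ∑_{i=1}^n (p/i) t^i`.
`gg_p`: `p * C(p,2i+1) = 0` for `i < n` and `C(p,2n+1) = 1`, so `p (-3)^n = p Ot(-3) = p ep (1+η) = p ep`;
multiply by `ep (-w)^n`: `p = p gg`.
`gg_sq`, `gg_eta`: `p (gg - 1) = 0` implies `gg - 1 = p z` (see `sq_zero_of_p_mul` in `FOdd.lean` for the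
square; `η = p z'` by `eta_eq`).
-/

set_option autoImplicit false

namespace MPf96

open Finset

/-- `∑ C(p,2i) t^i` -/
def Et (p n : ℕ) (t : ZMod (p ^ 2)) : ZMod (p ^ 2) :=
  ∑ i ∈ range (n + 1), (p.choose (2 * i) : ZMod (p ^ 2)) * t ^ i

/-- `∑ C(p,2i+1) t^i` -/
def Ot (p n : ℕ) (t : ZMod (p ^ 2)) : ZMod (p ^ 2) :=
  ∑ i ∈ range (n + 1), (p.choose (2 * i + 1) : ZMod (p ^ 2)) * t ^ i

/-- `± (-1/3)^n` -/
def gg (p n : ℕ) : ZMod (p ^ 2) := ep p * (-third p) ^ n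

/-- the square root of `-3` -/
def eo_s : Zsqrtd (-3) := ⟨0, 1⟩

theorem eo_s_sq : eo_s ^ 2 = -3 := by
  rw [pow_two]
  apply Zsqrtd.ext
  · simp only [Zsqrtd.re_mul, eo_s]
    rfl
  · simp only [Zsqrtd.im_mul, eo_s]
    rfl

theorem eo_split {R : Type*} [AddCommMonoid R] (f : ℕ → R) (N : ℕ) :
    ∑ k ∈ range (2 * N), f k =
      ∑ i ∈ range N, f (2 * i) + ∑ i ∈ range N, f (2 * i + 1) := by
  induction N with
  | zero => simp
  | succ N ih =>
    rw [show 2 * (N + 1) = 2 * N + 1 + 1 by ring, sum_range_succ, sum_range_succ, ih,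
      sum_range_succ, sum_range_succ]
    abel

theorem eo_binom {R : Type*} [CommRing R] {n : ℕ} {s : R} (hs : s ^ 2 = -3) :
    (1 + s) ^ (2 * n + 1) =
      ∑ i ∈ range (n + 1), ((2 * n + 1).choose (2 * i) : R) * (-3) ^ i +
        (∑ i ∈ range (n + 1), ((2 * n + 1).choose (2 * i + 1) : R) * (-3) ^ i) * s := by
  rw [add_comm 1 s, add_pow, show 2 * n + 1 + 1 = 2 * (n + 1) by ring, eo_split, sum_mul]
  congr 1
  · apply sum_congr rfl
    intro i _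
    rw [pow_mul, hs, one_pow, mul_one, mul_comm]
  · apply sum_congr rfl
    intro i _
    rw [pow_succ, pow_mul, hs, one_pow, mul_one]
    ring

theorem eo_pow (p n : ℕ) (hn : p = 2 * n + 1) (h3 : p % 3 ≠ 0) :
    (1 + eo_s) ^ p = 2 ^ (p - 1) * (1 + (((if p % 3 = 1 then 1 else -1 : ℤ)) : Zsqrtd (-3)) * eo_s) := by
  have hs := eo_s_sq
  have h6 : (1 + eo_s) ^ 6 = 2 ^ 6 := by
    linear_combination (eo_s ^ 4 + 6 * eo_s ^ 3 + 12 * eo_s ^ 2 + 2 * eo_s - 21) * hs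
  by_cases h1 : p % 3 = 1
  · rw [if_pos h1]
    obtain ⟨b, hb⟩ : ∃ b, p = 6 * b + 1 := ⟨p / 6, by omega⟩
    rw [show p - 1 = 6 * b by omega, hb, pow_succ, pow_mul, h6, ← pow_mul]
    push_cast
    ring
  · rw [if_neg h1]
    obtain ⟨b, hb⟩ : ∃ b, p = 6 * b + 5 := ⟨p / 6, by omega⟩
    have h5 : (1 + eo_s) ^ 5 = 16 * (1 - eo_s) := by
      linear_combination (eo_s ^ 3 + 5 * eo_s ^ 2 + 7 * eo_s - 5) * hs
    rw [show p - 1 = 6 * b + 4 by omega, hb, pow_add, pow_mul, h6, h5, ← pow_mul, pow_add]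
    push_cast
    ring

theorem EO_int (p n : ℕ) (hn : p = 2 * n + 1) (h3 : p % 3 ≠ 0) :
    ∑ i ∈ range (n + 1), (p.choose (2 * i) : ℤ) * (-3) ^ i = 2 ^ (p - 1) ∧
      ∑ i ∈ range (n + 1), (p.choose (2 * i + 1) : ℤ) * (-3) ^ i =
        (if p % 3 = 1 then 1 else -1) * 2 ^ (p - 1) := by
  have hb := eo_binom (n := n) (s := eo_s) eo_s_sq
  rw [← hn] at hb
  rw [eo_pow p n hn h3] at hb
  have e1 := congrArg Zsqrtd.re hb
  have e2 := congrArg Zsqrtd.im hb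
  have c1 : (∑ i ∈ range (n + 1), (p.choose (2 * i) : Zsqrtd (-3)) * (-3) ^ i) =
      ((∑ i ∈ range (n + 1), (p.choose (2 * i) : ℤ) * (-3) ^ i : ℤ) : Zsqrtd (-3)) := by
    push_cast
    rfl
  have c2 : (∑ i ∈ range (n + 1), (p.choose (2 * i + 1) : Zsqrtd (-3)) * (-3) ^ i) =
      ((∑ i ∈ range (n + 1), (p.choose (2 * i + 1) : ℤ) * (-3) ^ i : ℤ) : Zsqrtd (-3)) := by
    push_cast
    rfl
  have c3 : ((2 : Zsqrtd (-3)) ^ (p - 1)) = (((2 : ℤ) ^ (p - 1) : ℤ) : Zsqrtd (-3)) := by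
    push_cast
    rfl
  rw [c1, c2, c3] at e1 e2
  simp only [Zsqrtd.re_mul, Zsqrtd.re_add, Zsqrtd.im_mul, Zsqrtd.im_add, Zsqrtd.re_intCast,
    Zsqrtd.im_intCast, eo_s, Zsqrtd.re_one, Zsqrtd.im_one] at e1 e2
  constructor
  · linear_combination -e1
  · linear_combination -e2

variable {p n : ℕ} [hp : Fact p.Prime]

theorem eo_mod3 (h3 : p ≠ 3) : p % 3 ≠ 0 := by
  intro h
  exact h3 ((Nat.prime_dvd_prime_iff_eq Nat.prime_three hp.out).1 (Nat.dvd_of_mod_eq_zero h)).symm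

theorem eo_sq_zero {x : ZMod (p ^ 2)} (hx : (p : ZMod (p ^ 2)) * x = 0) :
    ∃ z, x = (p : ZMod (p ^ 2)) * z := by
  have h0 := hp.out.pos
  have : NeZero (p ^ 2) := ⟨pow_ne_zero 2 h0.ne'⟩
  obtain ⟨m, rfl⟩ : ∃ m : ℕ, (m : ZMod (p ^ 2)) = x := ⟨x.val, ZMod.natCast_zmod_val x⟩
  have h1 : ((p * m : ℕ) : ZMod (p ^ 2)) = 0 := by
    rw [Nat.cast_mul]
    exact hx
  have h2 : p ^ 2 ∣ p * m := (ZMod.natCast_eq_zero_iff _ _).1 h1
  have h3 : p ∣ m := by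
    rw [pow_two] at h2
    exact Nat.dvd_of_mul_dvd_mul_left h0 h2
  obtain ⟨z, rfl⟩ := h3
  exact ⟨z, by push_cast; ring⟩

theorem Et_m3 (hn : p = 2 * n + 1) (h3 : p ≠ 3) : Et p n (-3) = 1 + eta p := by
  have h := (EO_int p n hn (eo_mod3 h3)).1
  have h' := congrArg (fun z : ℤ => (z : ZMod (p ^ 2))) h
  push_cast at h'
  unfold Et eta
  rw [h']
  ring

theorem Ot_m3 (hn : p = 2 * n + 1) (h3 : p ≠ 3) : Ot p n (-3) = ep p * (1 + eta p) := by
  have h := (EO_int p n hn (eo_mod3 h3)).2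
  have h' := congrArg (fun z : ℤ => (z : ZMod (p ^ 2))) h
  push_cast at h'
  unfold Ot eta ep
  rw [h']
  split_ifs <;> ring

theorem Et_third (hn : p = 2 * n + 1) (h3 : p ≠ 3) :
    Et p n (-third p) = (-third p) ^ n * Ot p n (-3) := by
  have h1 := three_third (p := p) h3
  unfold Et Ot
  rw [← sum_range_reflect, mul_sum]
  apply sum_congr rfl
  intro i hi
  have hi' : i ≤ n := Nat.lt_succ_iff.1 (mem_range.1 hi)
  have e1 : p.choose (2 * (n + 1 - 1 - i)) = p.choose (2 * i + 1) := by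
    rw [← Nat.choose_symm (by omega : 2 * i + 1 ≤ p)]
    congr 1
    omega
  have e2 : (-third p) ^ n = (-third p) ^ (n - i) * (-third p) ^ i := by
    rw [← pow_add, Nat.sub_add_cancel hi']
  have e3 : (-third p) ^ i * (-3) ^ i = 1 := by
    rw [← mul_pow, show -third p * (-3) = 3 * third p by ring, h1, one_pow]
  rw [e1, e2, show n + 1 - 1 - i = n - i by omega]
  linear_combination (-((p.choose (2 * i + 1) : ZMod (p ^ 2)) * (-third p) ^ (n - i))) * e3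

theorem Et_sum (hn : p = 2 * n + 1) (t : ZMod (p ^ 2)) :
    ∑ i ∈ range n, harm_e p (i + 1) * t ^ (i + 1) = 2 - 2 * Et p n t := by
  unfold Et
  rw [sum_range_succ', mul_add, mul_sum]
  have e1 : ∀ i ∈ range n, harm_e p (i + 1) * t ^ (i + 1) =
      -(2 * ((p.choose (2 * (i + 1)) : ZMod (p ^ 2)) * t ^ (i + 1))) := by
    intro i hi
    have hi' := mem_range.1 hi
    have h1 := harm_choose (p := p) hn (k := 2 * i + 1) (by omega)
    have h2 := harm_two (p := p) (j := i + 1) (by omega) (by omega)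
    have h9 : (-1 : ZMod (p ^ 2)) ^ (2 * i + 1) = -1 := Odd.neg_one_pow ⟨i, rfl⟩
    rw [← hn, show 2 * i + 1 + 1 = 2 * (i + 1) by ring, h9] at h1
    linear_combination (2 * t ^ (i + 1)) * h1 - t ^ (i + 1) * h2
  rw [sum_congr rfl e1, sum_neg_distrib]
  simp

theorem gg_p (hn : p = 2 * n + 1) (h3 : p ≠ 3) :
    (p : ZMod (p ^ 2)) * gg p n = p := by
  have h1 := three_third (p := p) h3
  have h2 := Ot_m3 hn h3
  have h4 := p_eta hn
  have hO : (p : ZMod (p ^ 2)) * Ot p n (-3) = p * (-3) ^ n := by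
    unfold Ot
    rw [sum_range_succ, mul_add, mul_sum, sum_eq_zero, zero_add]
    · rw [← hn, Nat.choose_self, Nat.cast_one, one_mul]
    · intro i hi
      have hi' := mem_range.1 hi
      have h5 := harm_choose (p := p) hn (k := 2 * i) (by omega)
      have h6 := harm_p_e (p := p) (2 * i + 1)
      rw [← hn] at h5
      rw [h5]
      linear_combination ((-1) ^ (2 * i) * (-3) ^ i) * h6
  have h7 : (-third p) ^ n * (-3) ^ n = 1 := by
    rw [← mul_pow, show -third p * (-3) = 3 * third p by ring, h1, one_pow]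
  have h8 := ep_sq p
  unfold gg
  rw [h2] at hO
  linear_combination (-third p) ^ n * hO + (p : ZMod (p ^ 2)) * h7 - ep p * (-third p) ^ n * h4

theorem gg_sq (hn : p = 2 * n + 1) (h3 : p ≠ 3) : (gg p n - 1) ^ 2 = 0 := by
  have h1 := gg_p hn h3
  obtain ⟨z, hz⟩ := eo_sq_zero (p := p) (x := gg p n - 1) (by linear_combination h1)
  rw [hz, mul_pow, p_sq, zero_mul]

theorem gg_eta (hn : p = 2 * n + 1) (h3 : p ≠ 3) : eta p * (gg p n - 1) = 0 := by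
  have h1 := gg_p hn h3
  obtain ⟨z, hz⟩ := eta_eq (p := p) hn
  rw [hz]
  linear_combination z * h1

end MPf96
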