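import Pool.Agent.H.MP_f96d9d_nt.Q2.TvA
import Pool.Agent.H.MP_f96d9d_nt.Q2.EO
import Pool.Agent.H.MP_f96d9d_nt.Q2.DomV

/-!
# `T_(p-1)(-1/3) = ± 1` and `3^p T_p(-1/3) = 1`

Notation: `w = third p` (`3 w = 1`), `h = half p`, `g = gg p n`, `ep = ep p`, `η = eta p`, `η^2 = 0`,
`(g-1)^2 = 0`, `η (g - 1) = 0`, `ep^2 = 1`, `(-w)^n = ep g`, `g^2 = w^(2n)`.
`Et(-3) = 1 + η`, `Et(-w) = (-w)^n Ot(-3) = ep g ep (1+η) = g (1+η)`.

`C0P`: `Tv_pm1` at `t = -w`: `t^(n+i) = t^n (-w)^i`, `t^(n-i) = t^n (-3)^i` (`(-3)(-w) = 1`). With `Et_sum`: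
`T = t^n [U^2 + h (2 - 2 Et(-w) + 2 - 2 Et(-3))] = t^n [U^2 + 2 - g(1+η) - (1+η)]`, `U^2 = 1 + 2η` (`H4`).
`= ep g [2 + η - g (1+η)] = ep g (2 - g)` (using `η g = η`) `= ep (1 - (g-1)^2) = ep`.

`u_p_val`: `2 u_p = 1 - 2η`: `u_p = C(2p,p) h^(2p)`, `C(2p,p) = 2` (`choose_2p`), so
`2 u_p = 4 h^2 h^(2(p-1)) = (h^(p-1))^2 = (1-η)^2 = 1 - 2η`
(`h^(p-1) = 1 - η` since `2^(p-1) h^(p-1) = 1`, `η^2 = 0`).

`C1P`: `Tv_p` at `t = -w`: `∑ (p/i) t^i = 2 - 2 g(1+η)`; `t^(p-i) = t^p (-3)^i`, so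
`∑ (p/i) t^(p-i) = t^p (2 - 2(1+η)) = -2 η t^p`. `t^p = -w (w^(n))^2 = -w g^2` (`p = 2n+1`,
`(-w)^(2n) = w^(2n) = g^2`). So `T_p = u_p (1 + t^p) - 1 + g(1+η) + η t^p`, and
`2 T_p = (1 - 2η)(1 + t^p) - 2 + 2g + 2η + 2 η t^p = 1 + t^p - 2 + 2 g = t^p + 2g - 1` (`η g = η`).
`6 T_p = -g^2 + 6 g - 3 = 2 g^2 - 3 (g-1)^2 = 2 g^2`, so `3 T_p = g^2 = w^(2n)` and
`3^p T_p = 3^(2n) w^(2n) = 1`.
-/

set_option autoImplicit false

namespace MPf96

open Finset

variable {p n : ℕ} [hp : Fact p.Prime]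

theorem cp_two (hn : p = 2 * n + 1) : p ≠ 2 := by
  omega

theorem cp_pow (p : ℕ) : (2 : ZMod (p ^ 2)) ^ (p - 1) = 1 + eta p := by
  unfold eta
  ring

theorem cp_tn (p n : ℕ) : (-third p) ^ n = ep p * gg p n := by
  unfold gg
  linear_combination (-(-third p) ^ n) * ep_sq p

theorem cp_inv (h3 : p ≠ 3) (i : ℕ) : (-third p) ^ i * (-3) ^ i = 1 := by
  have h : (-third p) * (-3) = 1 := by linear_combination three_third h3
  rw [← mul_pow, h, one_pow]

theorem cp_low (h3 : p ≠ 3) {m i : ℕ} (hi : i ≤ m) :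
    (-third p) ^ (m - i) = (-third p) ^ m * (-3) ^ i := by
  have e : (-third p) ^ m = (-third p) ^ (m - i) * (-third p) ^ i := by
    rw [← pow_add, Nat.sub_add_cancel hi]
  rw [e, mul_assoc, cp_inv h3, mul_one]

theorem cp_Et (hn : p = 2 * n + 1) (h3 : p ≠ 3) :
    Et p n (-third p) = gg p n * (1 + eta p) := by
  rw [Et_third hn h3, Ot_m3 hn h3]
  unfold gg
  ring

theorem cp_gsq (hn : p = 2 * n + 1) (h3 : p ≠ 3) : gg p n ^ 2 = 2 * gg p n - 1 := by
  linear_combination gg_sq hn h3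

theorem cp_eg (hn : p = 2 * n + 1) (h3 : p ≠ 3) : eta p * gg p n = eta p := by
  linear_combination gg_eta hn h3

theorem C0P (hn : p = 2 * n + 1) (h3 : p ≠ 3) : Tv (half p) (-third p) (p - 1) = ep p := by
  have hh := two_half (p := p) (cp_two hn)
  have hS : ∑ i ∈ range n, harm_e p (i + 1) *
      ((-third p) ^ (n + (i + 1)) + (-third p) ^ (n - (i + 1))) =
      (-third p) ^ n * (∑ i ∈ range n, harm_e p (i + 1) * (-third p) ^ (i + 1)) +
      (-third p) ^ n * (∑ i ∈ range n, harm_e p (i + 1) * (-3) ^ (i + 1)) := by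
    rw [mul_sum, mul_sum, ← sum_add_distrib]
    refine sum_congr rfl fun i hi => ?_
    have hi' : i + 1 ≤ n := mem_range.1 hi
    rw [cp_low h3 hi', pow_add (-third p) n (i + 1)]
    ring
  have hU : (u (half p) n) ^ 2 = 1 + 2 * eta p := by
    have h1 : ((-1 : ZMod (p ^ 2)) ^ n) ^ 2 = 1 := by
      rw [← pow_mul, mul_comm, pow_mul, neg_one_sq, one_pow]
    rw [H4 hn, mul_pow, h1, cp_pow]
    linear_combination eta_sq hn
  rw [Tv_pm1 hn, hS, Et_sum hn, Et_sum hn, hU, cp_Et hn h3, Et_m3 hn h3, cp_tn]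
  have e1 := cp_gsq hn h3
  have e2 := cp_eg hn h3
  linear_combination (ep p * gg p n * (2 - gg p n * (1 + eta p) - (1 + eta p))) * hh -
    (ep p * (1 + eta p)) * e1 - (ep p) * e2

theorem u_p_val (hn : p = 2 * n + 1) : 2 * u (half p) p = 1 - 2 * eta p := by
  have hh := two_half (p := p) (cp_two hn)
  have e0 : (2 * half p) ^ (p - 1) = 1 := by rw [hh, one_pow]
  rw [mul_pow, cp_pow] at e0
  have e1 : (half p) ^ (p - 1) = 1 - eta p := by
    linear_combination (1 - eta p) * e0 + (half p) ^ (p - 1) * eta_sq hn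
  have e2 : 2 * p = (p - 1) + (p - 1) + 2 := by omega
  have e3 : (half p) ^ (2 * p) = (half p) ^ (p - 1) * (half p) ^ (p - 1) * (half p) ^ 2 := by
    rw [← pow_add, ← pow_add, ← e2]
  unfold u
  rw [choose_2p hn, e3, e1]
  linear_combination ((1 - eta p) ^ 2 * (2 * half p + 1)) * hh + eta_sq hn

theorem C1P (hn : p = 2 * n + 1) (h3 : p ≠ 3) : 3 ^ p * Tv (half p) (-third p) p = 1 := by
  have hh := two_half (p := p) (cp_two hn)
  have hw := three_third (p := p) h3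
  have hS : ∑ i ∈ range n, harm_e p (i + 1) *
      ((-third p) ^ (i + 1) + (-third p) ^ (p - (i + 1))) =
      (∑ i ∈ range n, harm_e p (i + 1) * (-third p) ^ (i + 1)) +
      (-third p) ^ p * (∑ i ∈ range n, harm_e p (i + 1) * (-3) ^ (i + 1)) := by
    rw [mul_sum, ← sum_add_distrib]
    refine sum_congr rfl fun i hi => ?_
    have hi' : i + 1 ≤ p := by
      have := mem_range.1 hi
      omega
    rw [cp_low h3 hi']
    ring
  have hT := Tv_p hn (-third p)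
  rw [hS, Et_sum hn, Et_sum hn, cp_Et hn h3, Et_m3 hn h3] at hT
  have hu := u_p_val hn
  have e1 := cp_gsq hn h3
  have e2 := cp_eg hn h3
  have htp : (-third p) ^ p = -third p * gg p n ^ 2 := by
    have h1 : (-third p) ^ p = (-third p) ^ n * (-third p) ^ n * (-third p) := by
      rw [← pow_add, ← pow_succ]
      congr 1
      omega
    rw [h1, cp_tn]
    linear_combination (-(third p) * gg p n ^ 2) * ep_sq p
  have h2T : 2 * Tv (half p) (-third p) p = (-third p) ^ p + 2 * gg p n - 1 := by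
    rw [hT]
    linear_combination (1 + (-third p) ^ p) * hu -
      (2 - 2 * (gg p n * (1 + eta p)) + (-third p) ^ p * (2 - 2 * (1 + eta p))) * hh + 2 * e2
  have h6T : 2 * (3 * Tv (half p) (-third p) p) = 2 * gg p n ^ 2 := by
    rw [htp] at h2T
    linear_combination 3 * h2T - gg p n ^ 2 * hw - 3 * e1
  have h3T : 3 * Tv (half p) (-third p) p = gg p n ^ 2 := by
    linear_combination half p * h6T - (3 * Tv (half p) (-third p) p - gg p n ^ 2) * hh
  have hg2 : gg p n ^ 2 = (third p) ^ (2 * n) := by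
    unfold gg
    rw [mul_pow, ep_sq, one_mul, ← pow_mul, mul_comm n 2, pow_mul, neg_sq, ← pow_mul]
  have h3p : (3 : ZMod (p ^ 2)) ^ p = 3 ^ (2 * n) * 3 := by
    rw [← pow_succ]
    congr 1
  rw [h3p, mul_assoc, h3T, hg2, ← mul_pow, hw, one_pow]

end MPf96
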