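import Pool.Agent.H.MP_f96d9d_nt.Q2.PBase

/-!
# General lemmas for the two telescoping certificates
-/

set_option autoImplicit false

namespace MPf96

open Polynomial Finset

variable {R : Type*} [CommRing R]

/-- a cubic form -/
noncomputable def cf (a b c d A B : R[X]) : R[X] :=
  a * A ^ 3 + b * A ^ 2 * B + c * A * B ^ 2 + d * B ^ 3

/-- one differentiation of a cubic form -/
theorem cstep {k A B : R[X]} (H1 : (1 - X) * (X * derivative A) = k * X * (B - A))
    (H2 : fq * (1 - X) * (X * derivative B) = X * ((3 * k - 2 + 2 * X) * B - 3 * k * A))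
    (a b c d ta tb tc td r : R[X]) (ha : X * derivative a = ta) (hb : X * derivative b = tb)
    (hc : X * derivative c = tc) (hd : X * derivative d = td) :
    (1 - X) * fq * (X * derivative (cf a b c d A B)) + r * cf a b c d A B =
      cf ((1 - X) * fq * ta + r * a - 3 * fq * (k * X) * a - 3 * (k * X) * b)
        ((1 - X) * fq * tb + r * b + 3 * fq * (k * X) * a - 2 * fq * (k * X) * b +
          X * (3 * k - 2 + 2 * X) * b - 6 * (k * X) * c)
        ((1 - X) * fq * tc + r * c + 2 * fq * (k * X) * b - fq * (k * X) * c +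
          2 * X * (3 * k - 2 + 2 * X) * c - 9 * (k * X) * d)
        ((1 - X) * fq * td + r * d + fq * (k * X) * c + 3 * X * (3 * k - 2 + 2 * X) * d) A B := by
  have e : X * derivative (cf a b c d A B) =
      (X * derivative a) * A ^ 3 + (X * derivative b) * A ^ 2 * B +
        (X * derivative c) * A * B ^ 2 + (X * derivative d) * B ^ 3 +
      (3 * a * A ^ 2 + 2 * b * A * B + c * B ^ 2) * (X * derivative A) +
      (b * A ^ 2 + 2 * c * A * B + 3 * d * B ^ 2) * (X * derivative B) := by
    have e3 : ∀ f : R[X], f ^ 3 = f * (f * f) := fun f => by ring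
    have e2 : ∀ f : R[X], f ^ 2 = f * f := fun f => by ring
    unfold cf
    simp only [e3, e2, derivative_add, derivative_mul]
    ring
  rw [e, ha, hb, hc, hd]
  unfold cf
  linear_combination ((3 * a * A ^ 2 + 2 * b * A * B + c * B ^ 2) * fq) * H1 +
    (b * A ^ 2 + 2 * c * A * B + 3 * d * B ^ 2) * H2

/-- the third order operator in terms of the iterated first order operators -/
theorem cert_gen (P r : R[X]) (s : R)
    (hP : (1 - X) * fq * (X * derivative P) - C s * ((1 - X) * fq) * P = r * P)
    (V0 V1 V2 V3 : R[X]) (h1 : (1 - X) * fq * (X * derivative V0) + r * V0 = V1)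
    (h2 : (1 - X) * fq * (X * derivative V1) + r * V1 = V2)
    (h3 : (1 - X) * fq * (X * derivative V2) + r * V2 = V3) :
    ((1 - X) * fq) ^ 3 * Ld s (P * V0) =
      P * ((1 - 20 * X + 64 * X ^ 2) * (V3 - 3 * (5 * X - 8 * X ^ 2) * V2 -
          ((1 - X) * fq * (5 * X - 16 * X ^ 2) - 2 * (5 * X - 8 * X ^ 2) ^ 2) * V1) +
        (-30 * X + 192 * X ^ 2) * ((1 - X) * fq) * (V2 - (5 * X - 8 * X ^ 2) * V1) +
        (-18 * X + 192 * X ^ 2) * ((1 - X) * fq) ^ 2 * V1 +
        (-4 * X + 64 * X ^ 2) * ((1 - X) * fq) ^ 3 * V0) := by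
  have hq : X * derivative ((1 - X) * fq : R[X]) = 5 * X - 8 * X ^ 2 := by
    unfold fq
    have h4 : derivative (4 * X : R[X]) = 4 := by
      rw [show (4 : R[X]) = C 4 from (map_ofNat C 4).symm, derivative_C_mul, derivative_X, mul_one]
    simp only [derivative_mul, derivative_sub, derivative_one, derivative_X, h4]
    ring
  have hqq : X * derivative (5 * X - 8 * X ^ 2 : R[X]) = 5 * X - 16 * X ^ 2 := by
    have e5 : ∀ c : R, derivative (C c * X : R[X]) = C c := fun c => by
      rw [derivative_C_mul, derivative_X, mul_one]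
    have e6 : (5 * X - 8 * X ^ 2 : R[X]) = C 5 * X - C 8 * (X * X) := by
      rw [map_ofNat, map_ofNat]
      ring
    rw [e6, derivative_sub, e5, derivative_C_mul, derivative_mul, derivative_X, map_ofNat,
      map_ofNat]
    ring
  generalize hQ : ((1 - X) * fq : R[X]) = Q at *
  have hm : ∀ f g : R[X], dl s (f * g) = (X * derivative f) * g + f * dl s g := by
    intro f g
    unfold dl
    rw [derivative_mul]
    ring
  have hst : ∀ V : R[X], Q * dl s (P * V) = P * (Q * (X * derivative V) + r * V) := by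
    intro V
    unfold dl
    rw [derivative_mul]
    linear_combination V * hP
  have g1 : Q * dl s (P * V0) = P * V1 := by rw [hst, h1]
  have g2 : Q * dl s (P * V1) = P * V2 := by rw [hst, h2]
  have g3 : Q * dl s (P * V2) = P * V3 := by rw [hst, h3]
  have k2 : Q ^ 2 * dl s (dl s (P * V0)) = P * (V2 - (5 * X - 8 * X ^ 2) * V1) := by
    have := congrArg (dl s) g1
    rw [hm, hq] at this
    linear_combination Q * this + g2 - (5 * X - 8 * X ^ 2) * g1
  have k3 : Q ^ 3 * dl s (dl s (dl s (P * V0))) = P * (V3 - 3 * (5 * X - 8 * X ^ 2) * V2 -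
      (Q * (5 * X - 16 * X ^ 2) - 2 * (5 * X - 8 * X ^ 2) ^ 2) * V1) := by
    have a1 := congrArg (dl s) k2
    have e1 : P * (V2 - (5 * X - 8 * X ^ 2) * V1) =
        P * V2 - (5 * X - 8 * X ^ 2) * (P * V1) := by ring
    have e2 : dl s (P * V2 - (5 * X - 8 * X ^ 2) * (P * V1)) =
        dl s (P * V2) - dl s ((5 * X - 8 * X ^ 2) * (P * V1)) := by
      unfold dl
      rw [derivative_sub]
      ring
    have e3 : dl s ((5 * X - 8 * X ^ 2) * (P * V1)) =
        (5 * X - 16 * X ^ 2) * (P * V1) + (5 * X - 8 * X ^ 2) * dl s (P * V1) := by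
      rw [hm, hqq]
    have e4 : dl s (Q ^ 2 * dl s (dl s (P * V0))) =
        2 * Q * (5 * X - 8 * X ^ 2) * dl s (dl s (P * V0)) +
          Q ^ 2 * dl s (dl s (dl s (P * V0))) := by
      rw [hm (Q ^ 2), pow_two, derivative_mul]
      linear_combination (2 * Q * dl s (dl s (P * V0))) * hq
    rw [e1, e2, e3, e4] at a1
    linear_combination Q * a1 + g3 - (5 * X - 8 * X ^ 2) * g2 -
      2 * (5 * X - 8 * X ^ 2) * k2
  unfold Ld
  linear_combination (1 - 20 * X + 64 * X ^ 2) * k3 + (-30 * X + 192 * X ^ 2) * Q * k2 +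
    (-18 * X + 192 * X ^ 2) * Q ^ 2 * g1

theorem q_regular {g : R[X]} (hg : (1 - X) * fq * g = 0) : g = 0 := by
  have h1 : fq * ((1 - X) * g) = 0 := by
    rw [← hg]
    ring
  have h2 := fq_regular h1
  ext m
  have : ∀ m, g.coeff m = 0 := by
    intro m
    induction m with
    | zero =>
      have := congrArg (fun q => q.coeff 0) h2
      simpa [sub_mul] using this
    | succ m ih =>
      have := congrArg (fun q => q.coeff (m + 1)) h2
      simpa [sub_mul, coeff_X_mul, ih] using this
  simpa using this m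

theorem q_regular3 {g : R[X]} (hg : ((1 - X) * fq) ^ 3 * g = 0) : g = 0 := by
  apply q_regular
  apply q_regular
  apply q_regular
  rw [← hg]
  ring

end MPf96
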