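import Pool.Agent.H.MP_f96d9d_nt.Q2.CertPa

/-!
# The certificate for the reversed sum
-/

set_option autoImplicit false

namespace MPf96

open Polynomial Finset

variable {R : Type*} [CommRing R] {h w : R}

/-- `T_{k-1}((4X-1)/3)`, zero for `k = 0` -/
noncomputable def TB (h w : R) : ℕ → R[X]
  | 0 => 0
  | k + 1 => TX h w k

theorem tb_H1 (hh : 2 * h = 1) (hw : 3 * w = 1) (k : ℕ) :
    (1 - X) * (X * derivative (TX h w k)) = (k : R[X]) * X * (TB h w k - TX h w k) := by
  cases k with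
  | zero => simp [TX_zero]
  | succ k =>
    rw [xr1 hh hw k]
    simp only [TB]
    push_cast
    ring

theorem tb_H2 (hh : 2 * h = 1) (hw : 3 * w = 1) (k : ℕ) :
    fq * (1 - X) * (X * derivative (TB h w k)) =
      X * ((3 * (k : R[X]) - 2 + 2 * X) * TB h w k - 3 * (k : R[X]) * TX h w k) := by
  cases k with
  | zero => simp [TB]
  | succ k =>
    simp only [TB]
    rw [xr2 hh hw k]
    push_cast
    ring

theorem tb_H0 (hh : 2 * h = 1) (hw : 3 * w = 1) (k : ℕ) :
    3 * (((k : R[X]) + 1) * TX h w (k + 1)) =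
      (2 * (k : R[X]) + 1) * (2 * X + 1) * TX h w k - (k : R[X]) * fq * TB h w k := by
  cases k with
  | zero =>
    have h1 := TX_one hh hw
    simp only [Nat.cast_zero, TX_zero, TB]
    linear_combination h1
  | succ k =>
    have h1 := xr0 hh hw k
    simp only [TB]
    push_cast
    linear_combination h1

theorem certp_eq {A B V : R[X]} (hw : 3 * w = 1) (h : 27 * A = 27 * B) : A = B := by
  have e := pbase_w (R := R) hw
  have e2 : (27 : R[X]) * (C w) ^ 3 = 1 := by
    linear_combination (9 * (C w) ^ 2 + 3 * C w + 1) * e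
  linear_combination (C w ^ 3) * h - (A - B) * e2

set_option maxHeartbeats 4000000 in
/-- certificate P -/
theorem certP (hh : 2 * h = 1) (hw : 3 * w = 1) (k : ℕ) :
    X * ((1 - X) ^ 2 * fq) * Ld ((k : R) + 1) ((1 - X) * TX h w k ^ 3) =
      gp ((k : R[X]) + 1) (((k : R[X]) + 1) * TX h w (k + 1)) (TX h w k) -
        X * gp (k : R[X]) ((k : R[X]) * TX h w k) (TB h w k) := by
  have hk : derivative ((k : R[X])) = 0 := derivative_natCast
  have H1 := tb_H1 hh hw k
  have H2 := tb_H2 hh hw k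
  have H0 := tb_H0 hh hw k
  have hC : (C ((k : R) + 1) : R[X]) = (k : R[X]) + 1 := by
    rw [C_add, C_1, map_natCast]
  have hP : (1 - X) * fq * (X * derivative (1 : R[X])) - C ((k : R) + 1) * ((1 - X) * fq) * 1 =
      (-((k : R[X]) + 1) * ((1 - X) * fq)) * 1 := by
    rw [hC, derivative_one]
    ring
  have G := cert_gen (1 : R[X]) (-((k : R[X]) + 1) * ((1 - X) * fq)) ((k : R) + 1) hP _ _ _ _
    (vp_step0 hk H1 H2) (vp_step1 hk H1 H2) (vp_step2 hk H1 H2)
  have e0 : (1 : R[X]) * cf (1 - X) 0 0 0 (TX h w k) (TB h w k) = (1 - X) * TX h w k ^ 3 := by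
    unfold cf
    ring
  rw [e0] at G
  generalize Ld ((k : R) + 1) ((1 - X) * TX h w k ^ 3) = L at G ⊢
  have N := gp_next (k := (k : R[X])) (E := ((k : R[X]) + 1) * TX h w (k + 1)) H0
  have Cu := gp_cur (k : R[X]) (TX h w k) (TB h w k)
  have c0 := vp_comp0 (k : R[X])
  have c1 := vp_comp1 (k : R[X])
  have c2 := vp_comp2 (k : R[X])
  have c3 := vp_comp3 (k : R[X])
  apply certp_eq (V := 0) hw
  apply sub_eq_zero.1
  apply q_regular3
  rw [mul_sub (27 : R[X]), N, Cu]
  generalize TX h w k = A at *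
  generalize TB h w k = B at *
  unfold cf at G ⊢
  generalize (k : R[X]) = K at *
  linear_combination (27 * X * ((1 - X) ^ 2 * fq)) * G + A ^ 3 * c0 + (A ^ 2 * B) * c1 +
    (A * B ^ 2) * c2 + B ^ 3 * c3

end MPf96
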