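import Pool.Agent.H.MP_f96d9d_nt.Q2.CertG

/-!
# Certificate P (generated polynomials)
-/

set_option autoImplicit false

namespace MPf96

open Polynomial Finset

variable {R : Type*} [CommRing R]

noncomputable def vp10 (k : R[X]) : R[X] :=
  (1 + X * ((-5) + X * (4)) + k * (1 + X * ((-3) + X * ((-6) + X * (8)))))

noncomputable def vp11 (k : R[X]) : R[X] :=
  (k * (X * ((-3) + X * (15 + X * ((-12))))))

noncomputable def vp20 (k : R[X]) : R[X] :=
  (1 + X * ((-5) + X * (X * (20 + X * ((-16))))) + k * (2 + X * ((-12) + X * (16 + X * ((-14) + X * (72 + X * ((-64)))))) + k * (1 + X * ((-5) + X * (1 + X * ((-1) + X * (68 + X * ((-64)))))))))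

noncomputable def vp21 (k : R[X]) : R[X] :=
  (k * (X * ((-3) + X * (18 + X * ((-9) + X * ((-78) + X * (72))))) + k * (X * ((-6) + X * (36 + X * ((-18) + X * ((-156) + X * (144))))))))

noncomputable def vp22 (k : R[X]) : R[X] :=
  (k * (k * (X * (X * (6 + X * ((-54) + X * (144 + X * ((-96)))))))))

noncomputable def vp30 (k : R[X]) : R[X] :=
  (1 + X * ((-5) + X * (4 + X * ((-40) + X * (248 + X * ((-400) + X * (192)))))) + k * (3 + X * ((-17) + X * ((-6) + X * (168 + X * ((-476) + X * (1320 + X * ((-2016) + X * (1024))))))) + k * (3 + X * ((-21) + X * (36 + X * (3 + X * ((-219) + X * (1422 + X * ((-2760) + X * (1536))))))) + k * (1 + X * ((-7) + X * (21 + X * ((-71) + X * (116 + X * (276 + X * ((-848) + X * (512)))))))))))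

noncomputable def vp31 (k : R[X]) : R[X] :=
  (k * (X * ((-3) + X * (15 + X * (6 + X * (66 + X * ((-960) + X * (1884 + X * ((-1008)))))))) + k * (X * ((-9) + X * (54 + X * ((-57) + X * (336 + X * ((-2772) + X * (5520 + X * ((-3072)))))))) + k * (X * ((-9) + X * (63 + X * ((-93) + X * (39 + X * ((-864) + X * (2208 + X * ((-1344))))))))))))

noncomputable def vp32 (k : R[X]) : R[X] :=
  (k * (k * (X * (X * (X * (54 + X * ((-594) + X * (2268 + X * ((-3456) + X * (1728))))))) + k * (X * (X * (18 + X * ((-162) + X * (360 + X * (360 + X * ((-1728) + X * (1152)))))))))))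

noncomputable def vp33 (k : R[X]) : R[X] :=
  (k * (k * (k * (X * (X * (X * ((-6) + X * (78 + X * ((-360) + X * (672 + X * ((-384))))))))))))

/-- the telescoping form -/
noncomputable def gp (k E B : R[X]) : R[X] :=
  (k * (k * (k * (X * (1 + X * ((-8) + X * ((-14) + X * (224 + X * ((-352) + X * ((-256))))))))))) * B ^ 3 + (k * (X * (X * ((-9) + X * (36 + X * (144 + X * ((-576)))))) + k * (X * (X * (9 + X * (180 + X * ((-1224) + X * (1440)))))))) * (E * B ^ 2) +
    (X * (X * (27 + X * ((-162) + X * (324 + X * (216))))) + k * (X * (X * ((-54) + X * ((-81) + X * (972 + X * ((-432)))))))) * (E ^ 2 * B) + (X * (X * (27 + X * (108 + X * ((-540)))))) * E ^ 3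

set_option maxHeartbeats 4000000 in
theorem vp_step0 {k A B : R[X]} (hk : derivative k = 0)
    (H1 : (1 - X) * (X * derivative A) = k * X * (B - A))
    (H2 : fq * (1 - X) * (X * derivative B) = X * ((3 * k - 2 + 2 * X) * B - 3 * k * A)) :
    (1 - X) * fq * (X * derivative (cf (1 - X) 0 0 0 A B)) + (-(k + 1) * ((1 - X) * fq)) * cf (1 - X) 0 0 0 A B =
      cf (vp10 k) (vp11 k) 0 0 A B := by
  have h0 : X * derivative (1 - X : R[X]) = -X := by
    simp only [derivative_sub, derivative_one, derivative_X]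
    ring
  have h1 : X * derivative (0 : R[X]) = 0 := by simp
  have h2 : X * derivative (0 : R[X]) = 0 := by simp
  have h3 : X * derivative (0 : R[X]) = 0 := by simp
  rw [cstep H1 H2 _ _ _ _ _ _ _ _ _ h0 h1 h2 h3]
  congr 1
  · simp only [fq, vp10, vp11]
    ring
  · simp only [fq, vp10, vp11]
    ring
  · simp only [fq, vp10, vp11]
    ring
  · simp only [fq, vp10, vp11]
    ring

set_option maxHeartbeats 4000000 in
theorem vp_step1 {k A B : R[X]} (hk : derivative k = 0)
    (H1 : (1 - X) * (X * derivative A) = k * X * (B - A))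
    (H2 : fq * (1 - X) * (X * derivative B) = X * ((3 * k - 2 + 2 * X) * B - 3 * k * A)) :
    (1 - X) * fq * (X * derivative (cf (vp10 k) (vp11 k) 0 0 A B)) + (-(k + 1) * ((1 - X) * fq)) * cf (vp10 k) (vp11 k) 0 0 A B =
      cf (vp20 k) (vp21 k) (vp22 k) 0 A B := by
  have h0 : X * derivative (vp10 k) =
      (X * ((-5) + X * (8)) + k * (X * ((-3) + X * ((-12) + X * (24))))) := by
    unfold vp10
    simp only [derivative_add, derivative_mul, derivative_X, derivative_neg, derivative_ofNat,
      derivative_one, derivative_zero, hk]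
    ring
  have h1 : X * derivative (vp11 k) =
      (k * (X * ((-3) + X * (30 + X * ((-36)))))) := by
    unfold vp11
    simp only [derivative_add, derivative_mul, derivative_X, derivative_neg, derivative_ofNat,
      derivative_one, derivative_zero, hk]
    ring
  have h2 : X * derivative (0 : R[X]) = 0 := by simp
  have h3 : X * derivative (0 : R[X]) = 0 := by simp
  rw [cstep H1 H2 _ _ _ _ _ _ _ _ _ h0 h1 h2 h3]
  congr 1
  · simp only [fq, vp10, vp11, vp20, vp21, vp22]
    ring
  · simp only [fq, vp10, vp11, vp20, vp21, vp22]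
    ring
  · simp only [fq, vp10, vp11, vp20, vp21, vp22]
    ring
  · simp only [fq, vp10, vp11, vp20, vp21, vp22]
    ring

set_option maxHeartbeats 4000000 in
theorem vp_step2 {k A B : R[X]} (hk : derivative k = 0)
    (H1 : (1 - X) * (X * derivative A) = k * X * (B - A))
    (H2 : fq * (1 - X) * (X * derivative B) = X * ((3 * k - 2 + 2 * X) * B - 3 * k * A)) :
    (1 - X) * fq * (X * derivative (cf (vp20 k) (vp21 k) (vp22 k) 0 A B)) + (-(k + 1) * ((1 - X) * fq)) * cf (vp20 k) (vp21 k) (vp22 k) 0 A B =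
      cf (vp30 k) (vp31 k) (vp32 k) (vp33 k) A B := by
  have h0 : X * derivative (vp20 k) =
      (X * ((-5) + X * (X * (60 + X * ((-64))))) + k * (X * ((-12) + X * (32 + X * ((-42) + X * (288 + X * ((-320)))))) + k * (X * ((-5) + X * (2 + X * ((-3) + X * (272 + X * ((-320))))))))) := by
    unfold vp20
    simp only [derivative_add, derivative_mul, derivative_X, derivative_neg, derivative_ofNat,
      derivative_one, derivative_zero, hk]
    ring
  have h1 : X * derivative (vp21 k) =
      (k * (X * ((-3) + X * (36 + X * ((-27) + X * ((-312) + X * (360))))) + k * (X * ((-6) + X * (72 + X * ((-54) + X * ((-624) + X * (720)))))))) := by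
    unfold vp21
    simp only [derivative_add, derivative_mul, derivative_X, derivative_neg, derivative_ofNat,
      derivative_one, derivative_zero, hk]
    ring
  have h2 : X * derivative (vp22 k) =
      (k * (k * (X * (X * (12 + X * ((-162) + X * (576 + X * ((-480))))))))) := by
    unfold vp22
    simp only [derivative_add, derivative_mul, derivative_X, derivative_neg, derivative_ofNat,
      derivative_one, derivative_zero, hk]
    ring
  have h3 : X * derivative (0 : R[X]) = 0 := by simp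
  rw [cstep H1 H2 _ _ _ _ _ _ _ _ _ h0 h1 h2 h3]
  congr 1
  · simp only [fq, vp20, vp21, vp22, vp30, vp31, vp32, vp33]
    ring
  · simp only [fq, vp20, vp21, vp22, vp30, vp31, vp32, vp33]
    ring
  · simp only [fq, vp20, vp21, vp22, vp30, vp31, vp32, vp33]
    ring
  · simp only [fq, vp20, vp21, vp22, vp30, vp31, vp32, vp33]
    ring

set_option maxHeartbeats 4000000 in
theorem vp_comp0 (k : R[X]) : 27 * ((X * ((1 - X) ^ 2 * fq)) * ((1 - 20 * X + 64 * X ^ 2) * ((vp30 k) - 3 * (5 * X - 8 * X ^ 2) * (vp20 k) -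
          ((1 - X) * fq * (5 * X - 16 * X ^ 2) - 2 * (5 * X - 8 * X ^ 2) ^ 2) * (vp10 k)) +
        (-30 * X + 192 * X ^ 2) * ((1 - X) * fq) * ((vp20 k) - (5 * X - 8 * X ^ 2) * (vp10 k)) +
        (-18 * X + 192 * X ^ 2) * ((1 - X) * fq) ^ 2 * (vp10 k) +
        (-4 * X + 64 * X ^ 2) * ((1 - X) * fq) ^ 3 * (1 - X))) =
    ((1 - X) * fq) ^ 3 * ((X * (27 + X * ((-270) + X * (783 + X * (1296 + X * ((-10908) + X * (15984 + X * ((-6912)))))))) + k * (X * (81 + X * ((-891) + X * (2997 + X * ((-648) + X * ((-25596) + X * (76464 + X * ((-41472)))))))) + k * (X * (81 + X * ((-1053) + X * (3564 + X * ((-3888) + X * ((-14256) + X * (98496 + X * ((-82944)))))))) + k * (X * (27 + X * ((-486) + X * (1782 + X * ((-864) + X * ((-3888) + X * (25920 + X * ((-55296)))))))))))) - 27 * X * (k * (k * (k * (X * (X * (27 + X * (108 + X * ((-540)))))))))) := by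
  simp only [fq, vp10, vp20, vp30]
  ring

set_option maxHeartbeats 4000000 in
theorem vp_comp1 (k : R[X]) : 27 * ((X * ((1 - X) ^ 2 * fq)) * ((1 - 20 * X + 64 * X ^ 2) * ((vp31 k) - 3 * (5 * X - 8 * X ^ 2) * (vp21 k) -
          ((1 - X) * fq * (5 * X - 16 * X ^ 2) - 2 * (5 * X - 8 * X ^ 2) ^ 2) * (vp11 k)) +
        (-30 * X + 192 * X ^ 2) * ((1 - X) * fq) * ((vp21 k) - (5 * X - 8 * X ^ 2) * (vp11 k)) +
        (-18 * X + 192 * X ^ 2) * ((1 - X) * fq) ^ 2 * (vp11 k) +
        (-4 * X + 64 * X ^ 2) * ((1 - X) * fq) ^ 3 * 0)) =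
    ((1 - X) * fq) ^ 3 * ((k * (X * (X * ((-81) + X * (1134 + X * ((-8100) + X * (36288 + X * ((-76464) + X * (36288))))))) + k * (X * (X * ((-243) + X * (2430 + X * ((-11988) + X * (62208 + X * ((-186624) + X * (145152))))))) + k * (X * (X * ((-243) + X * (2916 + X * ((-9072) + X * (15552 + X * ((-77760) + X * (145152))))))))))) - 27 * X * (k * (k * (X * (X * (27 + X * ((-162) + X * (324 + X * (216))))) + k * (X * (X * ((-54) + X * ((-81) + X * (972 + X * ((-432))))))))))) := by
  simp only [fq, vp11, vp21, vp31]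
  ring

set_option maxHeartbeats 4000000 in
theorem vp_comp2 (k : R[X]) : 27 * ((X * ((1 - X) ^ 2 * fq)) * ((1 - 20 * X + 64 * X ^ 2) * ((vp32 k) - 3 * (5 * X - 8 * X ^ 2) * (vp22 k) -
          ((1 - X) * fq * (5 * X - 16 * X ^ 2) - 2 * (5 * X - 8 * X ^ 2) ^ 2) * 0) +
        (-30 * X + 192 * X ^ 2) * ((1 - X) * fq) * ((vp22 k) - (5 * X - 8 * X ^ 2) * 0) +
        (-18 * X + 192 * X ^ 2) * ((1 - X) * fq) ^ 2 * 0 +
        (-4 * X + 64 * X ^ 2) * ((1 - X) * fq) ^ 3 * 0)) =
    ((1 - X) * fq) ^ 3 * ((k * (k * (X * (X * (X * ((-243) + X * (4860 + X * ((-31104) + X * (77760 + X * ((-62208)))))))) + k * (X * (X * (X * (729 + X * ((-4860) + X * ((-3888) + X * (77760 + X * ((-124416)))))))))))) - 27 * X * (k * (k * (X * (X * ((-9) + X * (36 + X * (144 + X * ((-576)))))) + k * (X * (X * (9 + X * (180 + X * ((-1224) + X * (1440)))))))))) := by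
  simp only [fq, vp22, vp32]
  ring

set_option maxHeartbeats 4000000 in
theorem vp_comp3 (k : R[X]) : 27 * ((X * ((1 - X) ^ 2 * fq)) * ((1 - 20 * X + 64 * X ^ 2) * ((vp33 k) - 3 * (5 * X - 8 * X ^ 2) * 0 -
          ((1 - X) * fq * (5 * X - 16 * X ^ 2) - 2 * (5 * X - 8 * X ^ 2) ^ 2) * 0) +
        (-30 * X + 192 * X ^ 2) * ((1 - X) * fq) * (0 - (5 * X - 8 * X ^ 2) * 0) +
        (-18 * X + 192 * X ^ 2) * ((1 - X) * fq) ^ 2 * 0 +
        (-4 * X + 64 * X ^ 2) * ((1 - X) * fq) ^ 3 * 0)) =
    ((1 - X) * fq) ^ 3 * ((k * (k * (k * (X * (X * (27 + X * ((-216) + X * ((-540) + X * (9936 + X * ((-32832) + X * (34560))))))))))) - 27 * X * (k * (k * (k * (X * (1 + X * ((-8) + X * ((-14) + X * (224 + X * ((-352) + X * ((-256)))))))))))) := by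
  simp only [fq, vp33]
  ring

set_option maxHeartbeats 4000000 in
theorem gp_next {k A B E : R[X]} (hE : 3 * E = (2 * k + 1) * (2 * X + 1) * A - k * fq * B) :
    27 * gp (k + 1) E A = cf (X * (27 + X * ((-270) + X * (783 + X * (1296 + X * ((-10908) + X * (15984 + X * ((-6912)))))))) + k * (X * (81 + X * ((-891) + X * (2997 + X * ((-648) + X * ((-25596) + X * (76464 + X * ((-41472)))))))) + k * (X * (81 + X * ((-1053) + X * (3564 + X * ((-3888) + X * ((-14256) + X * (98496 + X * ((-82944)))))))) + k * (X * (27 + X * ((-486) + X * (1782 + X * ((-864) + X * ((-3888) + X * (25920 + X * ((-55296))))))))))))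
      (k * (X * (X * ((-81) + X * (1134 + X * ((-8100) + X * (36288 + X * ((-76464) + X * (36288))))))) + k * (X * (X * ((-243) + X * (2430 + X * ((-11988) + X * (62208 + X * ((-186624) + X * (145152))))))) + k * (X * (X * ((-243) + X * (2916 + X * ((-9072) + X * (15552 + X * ((-77760) + X * (145152)))))))))))
      (k * (k * (X * (X * (X * ((-243) + X * (4860 + X * ((-31104) + X * (77760 + X * ((-62208)))))))) + k * (X * (X * (X * (729 + X * ((-4860) + X * ((-3888) + X * (77760 + X * ((-124416))))))))))))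
      (k * (k * (k * (X * (X * (27 + X * ((-216) + X * ((-540) + X * (9936 + X * ((-32832) + X * (34560))))))))))) A B := by
  have e : 27 * gp (k + 1) E A = 27 * (X * (1 + X * ((-8) + X * ((-14) + X * (224 + X * ((-352) + X * ((-256))))))) + k * (X * (3 + X * ((-24) + X * ((-42) + X * (672 + X * ((-1056) + X * ((-768))))))) + k * (X * (3 + X * ((-24) + X * ((-42) + X * (672 + X * ((-1056) + X * ((-768))))))) + k * (X * (1 + X * ((-8) + X * ((-14) + X * (224 + X * ((-352) + X * ((-256))))))))))) * A ^ 3 + 9 * (X * (X * (X * (216 + X * ((-1080) + X * (864))))) + k * (X * (X * (9 + X * (396 + X * ((-2304) + X * (2304))))) + k * (X * (X * (9 + X * (180 + X * ((-1224) + X * (1440)))))))) * ((3 * E) * A ^ 2) +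
      3 * (X * (X * ((-27) + X * ((-243) + X * (1296 + X * ((-216)))))) + k * (X * (X * ((-54) + X * ((-81) + X * (972 + X * ((-432)))))))) * ((3 * E) ^ 2 * A) + (X * (X * (27 + X * (108 + X * ((-540)))))) * (3 * E) ^ 3 := by
    unfold gp
    ring
  rw [e, hE]
  unfold cf fq
  ring

theorem gp_cur (k A B : R[X]) : gp k (k * A) B = cf (k * (k * (k * (X * (X * (27 + X * (108 + X * ((-540)))))))))
      (k * (k * (X * (X * (27 + X * ((-162) + X * (324 + X * (216))))) + k * (X * (X * ((-54) + X * ((-81) + X * (972 + X * ((-432))))))))))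
      (k * (k * (X * (X * ((-9) + X * (36 + X * (144 + X * ((-576)))))) + k * (X * (X * (9 + X * (180 + X * ((-1224) + X * (1440)))))))))
      (k * (k * (k * (X * (1 + X * ((-8) + X * ((-14) + X * (224 + X * ((-352) + X * ((-256))))))))))) A B := by
  unfold gp cf
  ring

end MPf96
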