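import Pool.Agent.H.MP_f96d9d_nt.Q2.CertG

/-!
# Certificate Z (generated polynomials)
-/

set_option autoImplicit false

namespace MPf96

open Polynomial Finset

variable {R : Type*} [CommRing R]

noncomputable def vz10 (k : R[X]) : R[X] :=
  (X * ((-5) + X * (7 + X * ((-2)))) + k * ((-1) + X * ((-3) + X * (X * (4)))))

noncomputable def vz11 (k : R[X]) : R[X] :=
  (k * (X * ((-3) + X * (15 + X * ((-12))))))

noncomputable def vz20 (k : R[X]) : R[X] :=
  (X * (5 + X * ((-9) + X * (24 + X * ((-32) + X * (12))))) + k * (X * (14 + X * (10 + X * ((-24) + X * (16 + X * ((-16)))))) + k * (1 + X * (7 + X * (25 + X * ((-37) + X * (20 + X * ((-16)))))))))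

noncomputable def vz21 (k : R[X]) : R[X] :=
  (k * (X * (3 + X * ((-6) + X * ((-27) + X * (6 + X * (24))))) + k * (X * (6 + X * ((-12) + X * ((-54) + X * (12 + X * (48))))))))

noncomputable def vz22 (k : R[X]) : R[X] :=
  (k * (k * (X * (X * (6 + X * ((-54) + X * (144 + X * ((-96)))))))))

noncomputable def vz30 (k : R[X]) : R[X] :=
  (X * ((-5) + X * (13 + X * ((-98) + X * (362 + X * ((-652) + X * (548 + X * ((-168)))))))) + k * (X * ((-19) + X * ((-45) + X * (132 + X * ((-328) + X * (468 + X * ((-384) + X * (176))))))) + k * (X * ((-27) + X * ((-126) + X * (171 + X * ((-342) + X * (612 + X * ((-576) + X * (288))))))) + k * ((-1) + X * ((-11) + X * ((-75) + X * ((-55) + X * (190 + X * (48 + X * ((-160) + X * (64)))))))))))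

noncomputable def vz31 (k : R[X]) : R[X] :=
  (k * (X * ((-3) + X * ((-12) + X * (168 + X * ((-393) + X * (444 + X * ((-60) + X * ((-144)))))))) + k * (X * ((-9) + X * ((-36) + X * (339 + X * ((-186) + X * ((-252) + X * (912 + X * ((-768)))))))) + k * (X * ((-9) + X * ((-9) + X * (51 + X * (831 + X * ((-1440) + X * (768 + X * ((-192))))))))))))

noncomputable def vz32 (k : R[X]) : R[X] :=
  (k * (k * (X * (X * ((-18) + X * (198 + X * ((-828) + X * (1800 + X * ((-2304) + X * (1152))))))) + k * (X * (X * ((-18) + X * (126 + X * ((-108) + X * ((-576) + X * (576))))))))))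

noncomputable def vz33 (k : R[X]) : R[X] :=
  (k * (k * (k * (X * (X * (X * ((-6) + X * (78 + X * ((-360) + X * (672 + X * ((-384))))))))))))

/-- the telescoping form -/
noncomputable def gz (k E B : R[X]) : R[X] :=
  (k * (k * (k * (X * (1 + X * ((-12) + X * (12 + X * (448 + X * ((-2688) + X * (6144 + X * ((-5120)))))))))))) * B ^ 3 + (k * (X * (3 + X * ((-54) + X * (396 + X * ((-1464) + X * (2592 + X * ((-1152) + X * ((-1536)))))))) + k * (X * (6 + X * ((-63) + X * (72 + X * (1392 + X * ((-6336) + X * (9216 + X * ((-3072))))))))))) * (E * B ^ 2) +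
    (X * (3 + X * ((-36) + X * (96 + X * (384 + X * ((-2304) + X * (3072)))))) + k * (X * (3 + X * (36 + X * ((-840) + X * (4704 + X * ((-10368) + X * (7680)))))))) * (E ^ 2 * B) + ((-1) + X * (12 + X * ((-18) + X * ((-280) + X * (1248 + X * ((-1152) + X * ((-1024)))))))) * E ^ 3

set_option maxHeartbeats 4000000 in
theorem vz_step0 {k A B : R[X]} (hk : derivative k = 0)
    (H1 : (1 - X) * (X * derivative A) = k * X * (B - A))
    (H2 : fq * (1 - X) * (X * derivative B) = X * ((3 * k - 2 + 2 * X) * B - 3 * k * A)) :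
    (1 - X) * fq * (X * derivative (cf (1 - X) 0 0 0 A B)) + ((1 - X) * (k * fq - 6 * X - 12 * k * X)) * cf (1 - X) 0 0 0 A B =
      cf (vz10 k) (vz11 k) 0 0 A B := by
  have h0 : X * derivative (1 - X : R[X]) = -X := by
    simp only [derivative_sub, derivative_one, derivative_X]
    ring
  have h1 : X * derivative (0 : R[X]) = 0 := by simp
  have h2 : X * derivative (0 : R[X]) = 0 := by simp
  have h3 : X * derivative (0 : R[X]) = 0 := by simp
  rw [cstep H1 H2 _ _ _ _ _ _ _ _ _ h0 h1 h2 h3]
  congr 1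
  · simp only [fq, vz10, vz11]
    ring
  · simp only [fq, vz10, vz11]
    ring
  · simp only [fq, vz10, vz11]
    ring
  · simp only [fq, vz10, vz11]
    ring

set_option maxHeartbeats 4000000 in
theorem vz_step1 {k A B : R[X]} (hk : derivative k = 0)
    (H1 : (1 - X) * (X * derivative A) = k * X * (B - A))
    (H2 : fq * (1 - X) * (X * derivative B) = X * ((3 * k - 2 + 2 * X) * B - 3 * k * A)) :
    (1 - X) * fq * (X * derivative (cf (vz10 k) (vz11 k) 0 0 A B)) + ((1 - X) * (k * fq - 6 * X - 12 * k * X)) * cf (vz10 k) (vz11 k) 0 0 A B =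
      cf (vz20 k) (vz21 k) (vz22 k) 0 A B := by
  have h0 : X * derivative (vz10 k) =
      (X * ((-5) + X * (14 + X * ((-6)))) + k * (X * ((-3) + X * (X * (12))))) := by
    unfold vz10
    simp only [derivative_add, derivative_mul, derivative_X, derivative_neg, derivative_ofNat,
      derivative_one, derivative_zero, hk]
    ring
  have h1 : X * derivative (vz11 k) =
      (k * (X * ((-3) + X * (30 + X * ((-36)))))) := by
    unfold vz11
    simp only [derivative_add, derivative_mul, derivative_X, derivative_neg, derivative_ofNat,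
      derivative_one, derivative_zero, hk]
    ring
  have h2 : X * derivative (0 : R[X]) = 0 := by simp
  have h3 : X * derivative (0 : R[X]) = 0 := by simp
  rw [cstep H1 H2 _ _ _ _ _ _ _ _ _ h0 h1 h2 h3]
  congr 1
  · simp only [fq, vz10, vz11, vz20, vz21, vz22]
    ring
  · simp only [fq, vz10, vz11, vz20, vz21, vz22]
    ring
  · simp only [fq, vz10, vz11, vz20, vz21, vz22]
    ring
  · simp only [fq, vz10, vz11, vz20, vz21, vz22]
    ring

set_option maxHeartbeats 4000000 in
theorem vz_step2 {k A B : R[X]} (hk : derivative k = 0)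
    (H1 : (1 - X) * (X * derivative A) = k * X * (B - A))
    (H2 : fq * (1 - X) * (X * derivative B) = X * ((3 * k - 2 + 2 * X) * B - 3 * k * A)) :
    (1 - X) * fq * (X * derivative (cf (vz20 k) (vz21 k) (vz22 k) 0 A B)) + ((1 - X) * (k * fq - 6 * X - 12 * k * X)) * cf (vz20 k) (vz21 k) (vz22 k) 0 A B =
      cf (vz30 k) (vz31 k) (vz32 k) (vz33 k) A B := by
  have h0 : X * derivative (vz20 k) =
      (X * (5 + X * ((-18) + X * (72 + X * ((-128) + X * (60))))) + k * (X * (14 + X * (20 + X * ((-72) + X * (64 + X * ((-80)))))) + k * (X * (7 + X * (50 + X * ((-111) + X * (80 + X * ((-80))))))))) := by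
    unfold vz20
    simp only [derivative_add, derivative_mul, derivative_X, derivative_neg, derivative_ofNat,
      derivative_one, derivative_zero, hk]
    ring
  have h1 : X * derivative (vz21 k) =
      (k * (X * (3 + X * ((-12) + X * ((-81) + X * (24 + X * (120))))) + k * (X * (6 + X * ((-24) + X * ((-162) + X * (48 + X * (240)))))))) := by
    unfold vz21
    simp only [derivative_add, derivative_mul, derivative_X, derivative_neg, derivative_ofNat,
      derivative_one, derivative_zero, hk]
    ring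
  have h2 : X * derivative (vz22 k) =
      (k * (k * (X * (X * (12 + X * ((-162) + X * (576 + X * ((-480))))))))) := by
    unfold vz22
    simp only [derivative_add, derivative_mul, derivative_X, derivative_neg, derivative_ofNat,
      derivative_one, derivative_zero, hk]
    ring
  have h3 : X * derivative (0 : R[X]) = 0 := by simp
  rw [cstep H1 H2 _ _ _ _ _ _ _ _ _ h0 h1 h2 h3]
  congr 1
  · simp only [fq, vz20, vz21, vz22, vz30, vz31, vz32, vz33]
    ring
  · simp only [fq, vz20, vz21, vz22, vz30, vz31, vz32, vz33]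
    ring
  · simp only [fq, vz20, vz21, vz22, vz30, vz31, vz32, vz33]
    ring
  · simp only [fq, vz20, vz21, vz22, vz30, vz31, vz32, vz33]
    ring

set_option maxHeartbeats 4000000 in
theorem vz_comp0 (k : R[X]) : 27 * (((1 - X) ^ 2 * fq ^ 5) * ((1 - 20 * X + 64 * X ^ 2) * ((vz30 k) - 3 * (5 * X - 8 * X ^ 2) * (vz20 k) -
          ((1 - X) * fq * (5 * X - 16 * X ^ 2) - 2 * (5 * X - 8 * X ^ 2) ^ 2) * (vz10 k)) +
        (-30 * X + 192 * X ^ 2) * ((1 - X) * fq) * ((vz20 k) - (5 * X - 8 * X ^ 2) * (vz10 k)) +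
        (-18 * X + 192 * X ^ 2) * ((1 - X) * fq) ^ 2 * (vz10 k) +
        (-4 * X + 64 * X ^ 2) * ((1 - X) * fq) ^ 3 * (1 - X))) =
    ((1 - X) * fq) ^ 3 * (27 * X * ((-1) + X * (132 + X * ((-1101) + X * (18 + X * (25656 + X * ((-90624) + X * (117120 + X * ((-67584) + X * (24576 + X * ((-8192)))))))))) + k * ((-6) + X * (495 + X * ((-3420) + X * ((-5400) + X * (99936 + X * ((-265968) + X * (230976 + X * ((-149760) + X * (175104 + X * ((-49152)))))))))) + k * ((-12) + X * (585 + X * ((-2763) + X * ((-16146) + X * (129888 + X * ((-232128) + X * (57600 + X * ((-133632) + X * (294912 + X * ((-98304)))))))))) + k * ((-8) + X * (219 + X * ((-330) + X * ((-10872) + X * (53184 + X * ((-52800) + X * ((-37632) + X * ((-70656) + X * (86016 + X * ((-65536)))))))))))))) - 27 * fq ^ 3 * (k * (k * (k * ((-1) + X * (12 + X * ((-18) + X * ((-280) + X * (1248 + X * ((-1152) + X * ((-1024)))))))))))) := by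
  simp only [fq, vz10, vz20, vz30]
  ring

set_option maxHeartbeats 4000000 in
theorem vz_comp1 (k : R[X]) : 27 * (((1 - X) ^ 2 * fq ^ 5) * ((1 - 20 * X + 64 * X ^ 2) * ((vz31 k) - 3 * (5 * X - 8 * X ^ 2) * (vz21 k) -
          ((1 - X) * fq * (5 * X - 16 * X ^ 2) - 2 * (5 * X - 8 * X ^ 2) ^ 2) * (vz11 k)) +
        (-30 * X + 192 * X ^ 2) * ((1 - X) * fq) * ((vz21 k) - (5 * X - 8 * X ^ 2) * (vz11 k)) +
        (-18 * X + 192 * X ^ 2) * ((1 - X) * fq) ^ 2 * (vz11 k) +
        (-4 * X + 64 * X ^ 2) * ((1 - X) * fq) ^ 3 * 0)) =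
    ((1 - X) * fq) ^ 3 * (27 * X * (k * ((-3) + X * (153 + X * ((-1467) + X * (2448 + X * (25776 + X * ((-124992) + X * (145152 + X * (129024 + X * ((-258048) + X * (49152))))))))) + k * ((-12) + X * (369 + X * ((-2196) + X * ((-8676) + X * (123192 + X * ((-389376) + X * (269568 + X * (599040 + X * ((-755712) + X * (196608))))))))) + k * ((-12) + X * (234 + X * ((-495) + X * ((-13212) + X * (98352 + X * ((-233856) + X * (62208 + X * (377856 + X * ((-258048) + X * (196608))))))))))))) - 27 * fq ^ 3 * (k * (k * (X * (3 + X * ((-36) + X * (96 + X * (384 + X * ((-2304) + X * (3072)))))) + k * (X * (3 + X * (36 + X * ((-840) + X * (4704 + X * ((-10368) + X * (7680))))))))))) := by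
  simp only [fq, vz11, vz21, vz31]
  ring

set_option maxHeartbeats 4000000 in
theorem vz_comp2 (k : R[X]) : 27 * (((1 - X) ^ 2 * fq ^ 5) * ((1 - 20 * X + 64 * X ^ 2) * ((vz32 k) - 3 * (5 * X - 8 * X ^ 2) * (vz22 k) -
          ((1 - X) * fq * (5 * X - 16 * X ^ 2) - 2 * (5 * X - 8 * X ^ 2) ^ 2) * 0) +
        (-30 * X + 192 * X ^ 2) * ((1 - X) * fq) * ((vz22 k) - (5 * X - 8 * X ^ 2) * 0) +
        (-18 * X + 192 * X ^ 2) * ((1 - X) * fq) ^ 2 * 0 +
        (-4 * X + 64 * X ^ 2) * ((1 - X) * fq) ^ 3 * 0)) =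
    ((1 - X) * fq) ^ 3 * (27 * X * (k * (k * ((-3) + X * (72 + X * ((-414) + X * ((-2556) + X * (43056 + X * ((-223488) + X * (571392 + X * ((-728064) + X * (405504 + X * ((-98304)))))))))) + k * ((-6) + X * (117 + X * ((-504) + X * ((-4464) + X * (55872 + X * ((-239616) + X * (479232 + X * ((-405504) + X * (147456 + X * ((-196608)))))))))))))) - 27 * fq ^ 3 * (k * (k * (X * (3 + X * ((-54) + X * (396 + X * ((-1464) + X * (2592 + X * ((-1152) + X * ((-1536)))))))) + k * (X * (6 + X * ((-63) + X * (72 + X * (1392 + X * ((-6336) + X * (9216 + X * ((-3072))))))))))))) := by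
  simp only [fq, vz22, vz32]
  ring

set_option maxHeartbeats 4000000 in
theorem vz_comp3 (k : R[X]) : 27 * (((1 - X) ^ 2 * fq ^ 5) * ((1 - 20 * X + 64 * X ^ 2) * ((vz33 k) - 3 * (5 * X - 8 * X ^ 2) * 0 -
          ((1 - X) * fq * (5 * X - 16 * X ^ 2) - 2 * (5 * X - 8 * X ^ 2) ^ 2) * 0) +
        (-30 * X + 192 * X ^ 2) * ((1 - X) * fq) * (0 - (5 * X - 8 * X ^ 2) * 0) +
        (-18 * X + 192 * X ^ 2) * ((1 - X) * fq) ^ 2 * 0 +
        (-4 * X + 64 * X ^ 2) * ((1 - X) * fq) ^ 3 * 0)) =
    ((1 - X) * fq) ^ 3 * (27 * X * (k * (k * (k * ((-1) + X * (24 + X * ((-210) + X * (576 + X * (2976 + X * ((-28416) + X * (90624 + X * ((-122880) + X * (24576 + X * (65536))))))))))))) - 27 * fq ^ 3 * (k * (k * (k * (X * (1 + X * ((-12) + X * (12 + X * (448 + X * ((-2688) + X * (6144 + X * ((-5120))))))))))))) := by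
  simp only [fq, vz33]
  ring

set_option maxHeartbeats 4000000 in
theorem gz_next {k A B E : R[X]} (hE : 3 * E = (2 * k + 1) * (2 * X + 1) * A - k * fq * B) :
    27 * gz (k + 1) E A = cf ((-1) + X * (132 + X * ((-1101) + X * (18 + X * (25656 + X * ((-90624) + X * (117120 + X * ((-67584) + X * (24576 + X * ((-8192)))))))))) + k * ((-6) + X * (495 + X * ((-3420) + X * ((-5400) + X * (99936 + X * ((-265968) + X * (230976 + X * ((-149760) + X * (175104 + X * ((-49152)))))))))) + k * ((-12) + X * (585 + X * ((-2763) + X * ((-16146) + X * (129888 + X * ((-232128) + X * (57600 + X * ((-133632) + X * (294912 + X * ((-98304)))))))))) + k * ((-8) + X * (219 + X * ((-330) + X * ((-10872) + X * (53184 + X * ((-52800) + X * ((-37632) + X * ((-70656) + X * (86016 + X * ((-65536))))))))))))))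
      (k * ((-3) + X * (153 + X * ((-1467) + X * (2448 + X * (25776 + X * ((-124992) + X * (145152 + X * (129024 + X * ((-258048) + X * (49152))))))))) + k * ((-12) + X * (369 + X * ((-2196) + X * ((-8676) + X * (123192 + X * ((-389376) + X * (269568 + X * (599040 + X * ((-755712) + X * (196608))))))))) + k * ((-12) + X * (234 + X * ((-495) + X * ((-13212) + X * (98352 + X * ((-233856) + X * (62208 + X * (377856 + X * ((-258048) + X * (196608)))))))))))))
      (k * (k * ((-3) + X * (72 + X * ((-414) + X * ((-2556) + X * (43056 + X * ((-223488) + X * (571392 + X * ((-728064) + X * (405504 + X * ((-98304)))))))))) + k * ((-6) + X * (117 + X * ((-504) + X * ((-4464) + X * (55872 + X * ((-239616) + X * (479232 + X * ((-405504) + X * (147456 + X * ((-196608))))))))))))))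
      (k * (k * (k * ((-1) + X * (24 + X * ((-210) + X * (576 + X * (2976 + X * ((-28416) + X * (90624 + X * ((-122880) + X * (24576 + X * (65536))))))))))))) A B := by
  have e : 27 * gz (k + 1) E A = 27 * (X * (1 + X * ((-12) + X * (12 + X * (448 + X * ((-2688) + X * (6144 + X * ((-5120)))))))) + k * (X * (3 + X * ((-36) + X * (36 + X * (1344 + X * ((-8064) + X * (18432 + X * ((-15360)))))))) + k * (X * (3 + X * ((-36) + X * (36 + X * (1344 + X * ((-8064) + X * (18432 + X * ((-15360)))))))) + k * (X * (1 + X * ((-12) + X * (12 + X * (448 + X * ((-2688) + X * (6144 + X * ((-5120)))))))))))) * A ^ 3 + 9 * (X * (9 + X * ((-117) + X * (468 + X * ((-72) + X * ((-3744) + X * (8064 + X * ((-4608)))))))) + k * (X * (15 + X * ((-180) + X * (540 + X * (1320 + X * ((-10080) + X * (17280 + X * ((-7680)))))))) + k * (X * (6 + X * ((-63) + X * (72 + X * (1392 + X * ((-6336) + X * (9216 + X * ((-3072))))))))))) * ((3 * E) * A ^ 2) +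
      3 * (X * (6 + X * (X * ((-744) + X * (5088 + X * ((-12672) + X * (10752)))))) + k * (X * (3 + X * (36 + X * ((-840) + X * (4704 + X * ((-10368) + X * (7680)))))))) * ((3 * E) ^ 2 * A) + ((-1) + X * (12 + X * ((-18) + X * ((-280) + X * (1248 + X * ((-1152) + X * ((-1024)))))))) * (3 * E) ^ 3 := by
    unfold gz
    ring
  rw [e, hE]
  unfold cf fq
  ring

theorem gz_cur (k A B : R[X]) : gz k (k * A) B = cf (k * (k * (k * ((-1) + X * (12 + X * ((-18) + X * ((-280) + X * (1248 + X * ((-1152) + X * ((-1024)))))))))))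
      (k * (k * (X * (3 + X * ((-36) + X * (96 + X * (384 + X * ((-2304) + X * (3072)))))) + k * (X * (3 + X * (36 + X * ((-840) + X * (4704 + X * ((-10368) + X * (7680))))))))))
      (k * (k * (X * (3 + X * ((-54) + X * (396 + X * ((-1464) + X * (2592 + X * ((-1152) + X * ((-1536)))))))) + k * (X * (6 + X * ((-63) + X * (72 + X * (1392 + X * ((-6336) + X * (9216 + X * ((-3072))))))))))))
      (k * (k * (k * (X * (1 + X * ((-12) + X * (12 + X * (448 + X * ((-2688) + X * (6144 + X * ((-5120)))))))))))) A B := by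
  unfold gz cf
  ring

end MPf96
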