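import Pool.Agent.H.MP_f96d9d_nt.Q2.CertP
import Pool.Agent.H.MP_f96d9d_nt.Q2.CertZa

/-!
# The certificate for the weighted sum
-/

set_option autoImplicit false

namespace MPf96

open Polynomial Finset

variable {R : Type*} [CommRing R] {h w : R}

theorem certz_pow (e : ℕ) : fq * (X * derivative ((fq : R[X]) ^ e)) = 4 * (e : R[X]) * X * fq ^ e := by
  have hf : derivative (fq : R[X]) = 4 := by
    unfold fq
    rw [derivative_sub, derivative_one, sub_zero,
      show (4 * X : R[X]) = C 4 * X by rw [map_ofNat], derivative_C_mul, derivative_X, mul_one,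
      map_ofNat]
  rw [derivative_pow, hf]
  cases e with
  | zero => simp
  | succ e =>
    simp only [Nat.add_sub_cancel, map_natCast]
    ring

set_option maxHeartbeats 4000000 in
/-- certificate Z -/
theorem certZ (hh : 2 * h = 1) (hw : 3 * w = 1) (k e : ℕ) (he : 2 * (e : R) + 3 + 6 * (k : R) = 0) :
    ((1 - X) ^ 2 * fq ^ 5) * Ld (0 : R) (X ^ k * fq ^ e * ((1 - X) * TX h w k ^ 3)) =
      27 * (X ^ (k + 1) * fq ^ e *
        gz ((k : R[X]) + 1) (((k : R[X]) + 1) * TX h w (k + 1)) (TX h w k)) -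
        X ^ k * fq ^ (e + 3) * gz (k : R[X]) ((k : R[X]) * TX h w k) (TB h w k) := by
  have hk : derivative ((k : R[X])) = 0 := derivative_natCast
  have H1 := tb_H1 hh hw k
  have H2 := tb_H2 hh hw k
  have H0 := tb_H0 hh hw k
  have he' : 2 * (e : R[X]) + 3 + 6 * (k : R[X]) = 0 := by
    have := congrArg (C : R → R[X]) he
    simpa only [C_add, C_mul, map_ofNat, map_natCast, C_0] using this
  have hP : (1 - X) * fq * (X * derivative (X ^ k * fq ^ e : R[X])) -
      C (0 : R) * ((1 - X) * fq) * (X ^ k * fq ^ e) =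
      ((1 - X) * ((k : R[X]) * fq - 6 * X - 12 * (k : R[X]) * X)) * (X ^ k * fq ^ e) := by
    rw [C_0, pbase_thX]
    have e1 := certz_pow (R := R) e
    linear_combination ((1 - X) * X ^ k) * e1 + (2 * (1 - X) * X ^ (k + 1) * fq ^ e) * he'
  have G := cert_gen (X ^ k * fq ^ e : R[X]) _ (0 : R) hP _ _ _ _
    (vz_step0 hk H1 H2) (vz_step1 hk H1 H2) (vz_step2 hk H1 H2)
  have e0 : (X ^ k * fq ^ e : R[X]) * cf (1 - X) 0 0 0 (TX h w k) (TB h w k) =
      X ^ k * fq ^ e * ((1 - X) * TX h w k ^ 3) := by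
    unfold cf
    ring
  rw [e0] at G
  generalize Ld (0 : R) (X ^ k * fq ^ e * ((1 - X) * TX h w k ^ 3)) = L at G ⊢
  have N := gz_next (k := (k : R[X])) (E := ((k : R[X]) + 1) * TX h w (k + 1)) H0
  have Cu := gz_cur (k : R[X]) (TX h w k) (TB h w k)
  have c0 := vz_comp0 (k : R[X])
  have c1 := vz_comp1 (k : R[X])
  have c2 := vz_comp2 (k : R[X])
  have c3 := vz_comp3 (k : R[X])
  apply certp_eq (V := 0) hw
  apply sub_eq_zero.1
  apply q_regular3
  have e5 : (27 : R[X]) * (27 * (X ^ (k + 1) * fq ^ e *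
        gz ((k : R[X]) + 1) (((k : R[X]) + 1) * TX h w (k + 1)) (TX h w k)) -
        X ^ k * fq ^ (e + 3) * gz (k : R[X]) ((k : R[X]) * TX h w k) (TB h w k)) =
      (X ^ k * fq ^ e) * (27 * X * (27 *
        gz ((k : R[X]) + 1) (((k : R[X]) + 1) * TX h w (k + 1)) (TX h w k)) -
        27 * fq ^ 3 * gz (k : R[X]) ((k : R[X]) * TX h w k) (TB h w k)) := by ring
  rw [e5, N, Cu]
  generalize (X ^ k * fq ^ e : R[X]) = Pq at *
  generalize TX h w k = A at *
  generalize TB h w k = B at *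
  unfold cf at G ⊢
  generalize (k : R[X]) = K at *
  linear_combination (27 * ((1 - X) ^ 2 * fq ^ 5)) * G + Pq * A ^ 3 * c0 + Pq * (A ^ 2 * B) * c1 +
    Pq * (A * B ^ 2) * c2 + Pq * B ^ 3 * c3

end MPf96
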