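import Pool.Agent.H.MP_f96d9d_nt.Q2.DBase
import Pool.Agent.H.MP_f96d9d_nt.CoefUp

/-!
# Degrees and top coefficients of `T_k((4X-1)/3)^3`

`comp_top`: if `P` has degree at most `d` then `P.comp (C w * fq)` has degree at most `d` and its
coefficient of `X^d` is `P_d (4 w)^d` (`C w * fq = C (4w) * X - C w`; write
`P = ∑_{i ≤ d} C P_i X^i`; the degree of `(C w * fq)^i` is at most `i` with coefficient `(4w)^i`
of `X^i`).
`cube_low`: `k ≤ n`: `T_k` has degree at most `k` (`coefup_natDegree_T`), coefficient of `X^k` is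
`u_k u_0 = u_k` (`coeff_Tp`), so `T_k^3` has degree at most `3k` and coefficient `u_k^3` of `X^(3k)`
(`Polynomial.coeff_pow_of_natDegree_le`, `natDegree_pow_le`).
`cube_up`: `k = n+i`, `1 ≤ i ≤ n`: the coefficients of `T_k` at `X^j`, `n < j ≤ n+i`, are multiples of `p`
(`u_big`), so `T_k = A + C p * B` with `deg A ≤ n`, `deg B ≤ n+i`, and `T_k^3 = A^3 + 3 p A^2 B`
(`p^2 = 0`) has degree at most `max(3n, 2n + n + i) = 3n+i`. Its coefficient at `3n+i` is given by
`T_cube_up`. Then compose with `C w * fq` (`comp_top`; `(TX)^3 = (Tp^3).comp`).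
-/

set_option autoImplicit false

namespace MPf96

open Polynomial Finset

theorem cubed_q {R : Type*} [CommRing R] (w : R) :
    (C w * fq : R[X]).natDegree ≤ 1 ∧ (C w * fq : R[X]).coeff 1 = 4 * w := by
  have e : (C w * fq : R[X]) = C (4 * w) * X - C w := by
    unfold fq
    have e4 : (C (4 : R) : R[X]) = 4 := map_ofNat _ _
    rw [C_mul, e4]
    ring
  constructor
  · rw [e]
    refine (natDegree_sub_le _ _).trans (max_le ?_ ?_)
    · have h := natDegree_C_mul_X_pow_le (4 * w) 1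
      rwa [pow_one] at h
    · rw [natDegree_C]
      exact Nat.zero_le 1
  · rw [e, coeff_sub, coeff_C_mul, coeff_X_one, mul_one, coeff_C, if_neg one_ne_zero, sub_zero]

theorem comp_top {R : Type*} [CommRing R] (w : R) {P : R[X]} {d : ℕ} (hP : P.natDegree ≤ d) :
    (P.comp (C w * fq)).natDegree ≤ d ∧ (P.comp (C w * fq)).coeff d = P.coeff d * (4 * w) ^ d := by
  obtain ⟨hq, hq1⟩ := cubed_q w
  generalize (C w * fq : R[X]) = q at hq hq1 ⊢
  constructor
  · calc (P.comp q).natDegree ≤ P.natDegree * q.natDegree := natDegree_comp_le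
      _ ≤ d * 1 := Nat.mul_le_mul hP hq
      _ = d := Nat.mul_one d
  · have e : P.comp q = ∑ i ∈ range (d + 1), C (P.coeff i) * q ^ i := by
      rw [comp_eq_sum_left]
      exact sum_over_range' P (fun n => by rw [C_0, zero_mul]) (d + 1) (Nat.lt_succ_of_le hP)
    rw [e, finsetSum_coeff, Finset.sum_eq_single d]
    · rw [coeff_C_mul]
      congr 1
      have h := coeff_pow_of_natDegree_le (p := q) (n := 1) (m := d) hq
      rw [Nat.mul_one, hq1] at h
      exact h
    · intro b hb hbd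
      have hb' := Finset.mem_range.1 hb
      have h2 : (q ^ b).natDegree ≤ b * 1 := natDegree_pow_le_of_le b hq
      have h3 : (q ^ b).coeff d = 0 := coeff_eq_zero_of_natDegree_lt (by omega)
      rw [coeff_C_mul, h3, mul_zero]
    · intro h
      exact absurd (Finset.mem_range.2 (Nat.lt_succ_self d)) h

theorem cubed_TX {R : Type*} [CommRing R] (h w : R) (k : ℕ) :
    TX h w k ^ 3 = (Tp h k ^ 3).comp (C w * fq) := by
  unfold TX
  rw [pow_comp]

variable {p n : ℕ} [hp : Fact p.Prime]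

theorem cube_low (w : ZMod (p ^ 2)) (k : ℕ) :
    (TX (half p) w k ^ 3).natDegree ≤ 3 * k ∧
      (TX (half p) w k ^ 3).coeff (3 * k) = (u (half p) k) ^ 3 * (4 * w) ^ (3 * k) := by
  have hd := coefup_natDegree_T (p := p) (half p) k
  have h3 : (Tp (half p) k ^ 3).natDegree ≤ 3 * k := natDegree_pow_le_of_le 3 hd
  obtain ⟨h1, h2⟩ := comp_top w h3
  rw [cubed_TX]
  refine ⟨h1, ?_⟩
  rw [h2]
  congr 1
  rw [coeff_pow_of_natDegree_le hd, coeff_Tp, if_pos le_rfl, Nat.sub_self, u_zero, mul_one]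

/-- degree of the cube -/
theorem cubed_deg (hn : p = 2 * n + 1) {i : ℕ} (hi : i ≤ n) :
    ((Tp (half p) (n + i)) ^ 3).natDegree ≤ 3 * n + i := by
  have hz : ∀ j : ℕ, ∃ z : ZMod (p ^ 2), j < i →
      u (half p) (n + 1 + j) = (p : ZMod (p ^ 2)) * z := by
    intro j
    by_cases hj : j < i
    · obtain ⟨z, hz⟩ := u_big (p := p) (n := n) hn (j := n + 1 + j) (by omega) (by omega)
      exact ⟨z, fun _ => hz⟩
    · exact ⟨0, fun h => absurd h hj⟩
  choose z hz using hz
  have hsplit : Tp (half p) (n + i) =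
      (∑ j ∈ range (n + 1), C (u (half p) j * u (half p) (n + i - j)) * X ^ j) +
      C (p : ZMod (p ^ 2)) * (∑ j ∈ range i,
          C (z j * u (half p) (n + i - (n + 1 + j))) * X ^ (n + 1 + j)) := by
    unfold Tp
    have e : n + i + 1 = n + 1 + i := by omega
    rw [e, Finset.sum_range_add, Finset.mul_sum]
    congr 1
    apply Finset.sum_congr rfl
    intro j hj
    rw [hz j (Finset.mem_range.1 hj)]
    simp only [C_mul]
    ring
  have hpp : (C (p : ZMod (p ^ 2)) : (ZMod (p ^ 2))[X]) ^ 2 = 0 := by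
    rw [← C_pow, p_sq, C_0]
  have hQd : (∑ j ∈ range (n + 1),
      C (u (half p) j * u (half p) (n + i - j)) * X ^ j).natDegree ≤ n := by
    apply natDegree_sum_le_of_forall_le
    intro j hj
    have hj' := Finset.mem_range.1 hj
    exact (natDegree_C_mul_X_pow_le _ _).trans (by omega)
  have hTd := coefup_natDegree_T (p := p) (half p) (n + i)
  generalize (∑ j ∈ range (n + 1),
      C (u (half p) j * u (half p) (n + i - j)) * X ^ j) = Q at hsplit hQd
  generalize (∑ j ∈ range i,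
      C (z j * u (half p) (n + i - (n + 1 + j))) * X ^ (n + 1 + j)) = S at hsplit
  have hS : C (p : ZMod (p ^ 2)) * S = Tp (half p) (n + i) - Q := by
    rw [hsplit]
    ring
  have hSd : (C (p : ZMod (p ^ 2)) * S).natDegree ≤ n + i := by
    rw [hS]
    exact (natDegree_sub_le _ _).trans (max_le hTd (by omega))
  have hcube : (Tp (half p) (n + i)) ^ 3 =
      Q ^ 3 + C 3 * (Q ^ 2 * (C (p : ZMod (p ^ 2)) * S)) := by
    have e3 : (C (3 : ZMod (p ^ 2)) : (ZMod (p ^ 2))[X]) = 3 := by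
      rw [map_ofNat]
    rw [hsplit, e3]
    generalize (C (p : ZMod (p ^ 2)) : (ZMod (p ^ 2))[X]) = c at hpp ⊢
    linear_combination (c * S ^ 3 + 3 * Q * S ^ 2) * hpp
  have hQ3 : (Q ^ 3).natDegree ≤ 3 * n := natDegree_pow_le_of_le 3 hQd
  have hQ2 : (Q ^ 2).natDegree ≤ 2 * n := natDegree_pow_le_of_le 2 hQd
  rw [hcube]
  refine (natDegree_add_le _ _).trans (max_le (by omega) ?_)
  refine (natDegree_C_mul_le _ _).trans (natDegree_mul_le.trans ?_)
  omega

theorem cube_up (hn : p = 2 * n + 1) (w : ZMod (p ^ 2)) {i : ℕ} (h1 : 1 ≤ i) (hi : i ≤ n) :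
    (TX (half p) w (n + i) ^ 3).natDegree ≤ 3 * n + i ∧
      (TX (half p) w (n + i) ^ 3).coeff (3 * n + i) =
        3 * (u (half p) n * u (half p) i) ^ 2 * u (half p) (n + i) * (4 * w) ^ (3 * n + i) := by
  obtain ⟨h2, h3⟩ := comp_top w (cubed_deg (p := p) hn hi)
  rw [cubed_TX]
  refine ⟨h2, ?_⟩
  rw [h3, T_cube_up hn h1 hi]

end MPf96
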