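import Pool.Agent.H.MP_f96d9d_nt.Q2.DBase
import Pool.Agent.H.MP_f96d9d_nt.Rev

/-!
# The factor `fq` in `fq^(M-3k) T_k^3`, `M = 3n(p+1)`

`k ≤ n`: `M - 3k = 3np + (3n - 3k)`: `A = fq^(3n-3k) T_k^3`, `B = 0`.
`k = n+i`, `1 ≤ i ≤ n`: the coefficients of `Tp h k` at `X^j`, `j < i`, are `u_j u_(n+i-j)` with
`n < n+i-j < p`, so multiples of `p` (`u_big`): `Tp h k = X^i A0 + C p B0` (as in the proof of
`T_cube_low`, `CoefLow.lean`). Compose with `C w * fq`: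
`TX = (C w)^i fq^i A1 + C p B1`, and (`p^2 = 0`)
`TX^3 = (C w)^(3i) fq^(3i) A1^3 + 3 C p (C w)^(2i) fq^(2i) A1^2 B1`. `M - 3k = 3np - 3i`
(`3i ≤ 3n ≤ 3np`), so `fq^(M-3k) TX^3 = fq^(3np) A + C p fq^(3np-i) B2`, and
`fq^(3np-i) = fq^(3np-n) fq^(n-i)`.
-/

set_option autoImplicit false

namespace MPf96

open Polynomial Finset

variable {p n : ℕ} [hp : Fact p.Prime]

theorem cubel_split (hn : p = 2 * n + 1) {i : ℕ} (hi : i ≤ n) :
    ∃ S Q : (ZMod (p ^ 2))[X], Tp (half p) (n + i) = C (p : ZMod (p ^ 2)) * S + X ^ i * Q := by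
  have hz : ∀ j : ℕ, ∃ z : ZMod (p ^ 2), j < i → u (half p) (n + i - j) = (p : ZMod (p ^ 2)) * z := by
    intro j
    by_cases hj : j < i
    · obtain ⟨z, hz⟩ := u_big (p := p) (n := n) hn (j := n + i - j) (by omega) (by omega)
      exact ⟨z, fun _ => hz⟩
    · exact ⟨0, fun h => absurd h hj⟩
  choose z hz using hz
  refine ⟨∑ j ∈ range i, C (u (half p) j * z j) * X ^ j, ∑ j ∈ range (n + 1),
    C (u (half p) (i + j) * u (half p) (n + i - (i + j))) * X ^ j, ?_⟩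
  unfold Tp
  have e : n + i + 1 = i + (n + 1) := by omega
  rw [e, Finset.sum_range_add, Finset.mul_sum, Finset.mul_sum]
  congr 1
  · apply Finset.sum_congr rfl
    intro j hj
    rw [hz j (Finset.mem_range.1 hj)]
    simp only [C_mul]
    ring
  · apply Finset.sum_congr rfl
    intro j _
    rw [pow_add]
    ring

theorem cubel_alg {R : Type*} [CommRing R] {G c S Q W F F3 Fn Fm : R} (hpp : c ^ 2 = 0)
    (e1 : F3 = G * F ^ 3) (e2 : Fn * Fm = G * F ^ 2) :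
    G * (c * S + W * F * Q) ^ 3 = F3 * (W ^ 3 * Q ^ 3) + c * (Fn * (3 * S * W ^ 2 * Q ^ 2 * Fm)) := by
  linear_combination G * (c * S ^ 3 + 3 * S ^ 2 * W * F * Q) * hpp -
    (3 * c * S * W ^ 2 * Q ^ 2) * e2 - (W ^ 3 * Q ^ 3) * e1

theorem cube_L (hn : p = 2 * n + 1) (w : ZMod (p ^ 2)) {k : ℕ} (hk : k < p) :
    ∃ A B : (ZMod (p ^ 2))[X], fq ^ (3 * n * (p + 1) - 3 * k) * TX (half p) w k ^ 3 =
      fq ^ (3 * n * p) * A + C (p : ZMod (p ^ 2)) * (fq ^ (3 * n * p - n) * B) := by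
  have hM : 3 * n * (p + 1) = 3 * n * p + 3 * n := by ring
  have hp1 : 1 ≤ p := hp.out.one_lt.le
  have hnp : 3 * n * 1 ≤ 3 * n * p := Nat.mul_le_mul_left _ hp1
  rcases Nat.lt_or_ge n k with hkn | hkn
  · obtain ⟨i, rfl⟩ : ∃ i, k = n + i := ⟨k - n, by omega⟩
    have hi : i ≤ n := by omega
    obtain ⟨S, Q, hSQ⟩ := cubel_split (p := p) hn hi
    have hTX : TX (half p) w (n + i) = C (p : ZMod (p ^ 2)) * S.comp (C w * fq) +
        (C w) ^ i * fq ^ i * Q.comp (C w * fq) := by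
      unfold TX
      rw [hSQ, add_comp, mul_comp, mul_comp, C_comp, X_pow_comp, mul_pow]
    have hpp : (C (p : ZMod (p ^ 2)) : (ZMod (p ^ 2))[X]) ^ 2 = 0 := by
      rw [← C_pow, p_sq, C_0]
    have h1 : 3 * n * (p + 1) - 3 * (n + i) = 3 * n * p - 3 * i := by omega
    have e1 : (fq : (ZMod (p ^ 2))[X]) ^ (3 * n * p) = fq ^ (3 * n * p - 3 * i) * (fq ^ i) ^ 3 := by
      rw [← pow_mul, ← pow_add]
      congr 1
      omega
    have e2 : (fq : (ZMod (p ^ 2))[X]) ^ (3 * n * p - n) * fq ^ (n - i) =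
        fq ^ (3 * n * p - 3 * i) * (fq ^ i) ^ 2 := by
      rw [← pow_mul, ← pow_add, ← pow_add]
      congr 1
      omega
    refine ⟨((C w) ^ i) ^ 3 * (Q.comp (C w * fq)) ^ 3,
      3 * S.comp (C w * fq) * ((C w) ^ i) ^ 2 * (Q.comp (C w * fq)) ^ 2 * fq ^ (n - i), ?_⟩
    rw [h1, hTX]
    exact cubel_alg hpp e1 e2
  · refine ⟨fq ^ (3 * n - 3 * k) * TX (half p) w k ^ 3, 0, ?_⟩
    have h1 : 3 * n * (p + 1) - 3 * k = 3 * n * p + (3 * n - 3 * k) := by omega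
    rw [h1, pow_add, mul_zero, mul_zero, add_zero, mul_assoc]

end MPf96
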