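import Mathlib

/-!
# The Domb numbers and their recurrence

`F(N,k) = C(N,k)^2 C(2k,k) C(2(N-k),N-k)` (`FT N k`), `dom N = ∑_{k ≤ N} F(N,k)`.

Proof of `dom_rec` (creative telescoping, over `ℚ`). Let
`Q(n,k) = 16 k^3 - 24 (3n+5) k^2 + (104 n^2 + 356 n + 296) k - (48 n^3 + 248 n^2 + 416 n + 224)` and
`g(0) = 0`, `g(i+1) = Q(n,i+1) (2i+1) F(n+1,i) / (2 (2(n+1-i) - 1))` (the denominator is twice an
odd integer; `F(n+1,n+2) = 0` since `C(n+1,n+2) = 0`, so `g(n+3) = 0`). Claim, for `0 ≤ k ≤ n+2`: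
`(n+2)^3 F(n+2,k) - 2(2n+3)(5n^2+15n+12) F(n+1,k) + 64 (n+1)^3 F(n,k) = g(k+1) - g(k)`  (*).
Summing over `k` in `range (n+3)` gives `0` (the extra terms `F(n+1,n+2)`, `F(n,n+1)`, `F(n,n+2)` are 0).

Integer relations (from `Nat.succ_mul_choose_eq`, `Nat.choose_succ_right_eq`,
`Nat.succ_mul_centralBinom_succ`: `(m+1) C(2m+2,m+1) = 2(2m+1) C(2m,m)`):
(a) `(m+1)^3 F(k+m+1,k) = 2 (k+m+1)^2 (2m+1) F(k+m,k)`
(b) `(k+1)^3 (2m+1) F(k+1+m,k+1) = (m+1)^3 (2k+1) F(k+1+m,k)`.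
Proof of (*) for `k ≤ n+1`: write `n+1 = k+m`, `Fk = F(n+1,k)`. By (a) (`N = n+1`)
`F(n+2,k) = 2 (n+2)^2 (2m+1) Fk / (m+1)^3`. By (a) with `m-1`:
`F(n,k) = m^3 Fk / (2 (n+1)^2 (2m-1))` (for `m = 0` both sides are 0). `g(k+1) = Q(n,k+1)(2k+1) Fk /
(2(2m-1))`. By (b) with `k-1`: `k^3 (2m+1) Fk = (m+1)^3 (2k-1) F(n+1,k-1)`, so for `k ≥ 1`
`g(k) = Q(n,k) (2k-1) F(n+1,k-1) / (2(2m+1)) = Q(n,k) k^3 Fk / (2 (m+1)^3)`, and this also holds for
`k = 0`. So (*) is `Fk` times the identity of rational functions (`n = k + m - 1`)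
`2 (n+2)^5 (2m+1)/(m+1)^3 - 2(2n+3)(5n^2+15n+12) + 32 (n+1) m^3/(2m-1)
  = Q(n,k+1)(2k+1)/(2(2m-1)) - Q(n,k) k^3/(2(m+1)^3)` (`field_simp; ring`).
For `k = n+2`: `(n+2)^3 F(n+2,n+2) = - g(n+2)`: `g(n+2) = - Q(n,n+2)(2n+3) F(n+1,n+1)/2`,
`Q(n,n+2) = 4 (n+2)^2`, `F(n+1,n+1) = C(2n+2,n+1)`, `F(n+2,n+2) = C(2n+4,n+2)`,
`(n+2) C(2n+4,n+2) = 2(2n+3) C(2n+2,n+1)`.
-/

set_option autoImplicit false

namespace MPf96

open Finset

/-- the summand of the Domb number -/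
def FT (N k : ℕ) : ℤ :=
  (N.choose k : ℤ) ^ 2 * (Nat.centralBinom k : ℤ) * (Nat.centralBinom (N - k) : ℤ)

/-- the Domb number `∑ C(N,k)^2 C(2k,k) C(2(N-k),N-k)` -/
def dom (N : ℕ) : ℤ := ∑ k ∈ range (N + 1), FT N k

theorem dom_zero : dom 0 = 1 := by
  decide

theorem dom_one : dom 1 = 4 := by
  decide

/-- the summand in `ℚ` -/
def dom_F (N k : ℕ) : ℚ :=
  (N.choose k : ℚ) ^ 2 * (Nat.centralBinom k : ℚ) * (Nat.centralBinom (N - k) : ℚ)

theorem dom_F_eq (N k : ℕ) : (FT N k : ℚ) = dom_F N k := by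
  simp only [FT, dom_F]
  push_cast
  ring

theorem dom_F_zero {N k : ℕ} (h : N < k) : dom_F N k = 0 := by
  simp [dom_F, Nat.choose_eq_zero_of_lt h]

theorem dom_cb (m : ℕ) :
    ((m : ℚ) + 1) * (Nat.centralBinom (m + 1) : ℚ) = 2 * (2 * m + 1) * (Nat.centralBinom m : ℚ) := by
  have h := Nat.succ_mul_centralBinom_succ m
  exact_mod_cast h

theorem dom_a (k m : ℕ) : ((m : ℚ) + 1) ^ 3 * dom_F (k + m + 1) k
    = 2 * ((k : ℚ) + m + 1) ^ 2 * (2 * m + 1) * dom_F (k + m) k := by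
  have h1 : ((m : ℚ) + 1) * ((k + m + 1).choose k : ℚ) = ((k : ℚ) + m + 1) * ((k + m).choose k : ℚ) := by
    have h := Nat.add_one_mul_choose_eq (k + m) m
    have e1 : (k + m).choose m = (k + m).choose k := by
      have := Nat.choose_symm_add (a := k) (b := m)
      exact this.symm
    have e2 : (k + m + 1).choose (m + 1) = (k + m + 1).choose k := by
      have := Nat.choose_symm_add (a := k) (b := m + 1)
      exact this.symm
    rw [e1, e2] at h
    have h' : (((k + m + 1 : ℕ) : ℚ)) * ((k + m).choose k : ℚ)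
        = ((k + m + 1).choose k : ℚ) * ((m + 1 : ℕ) : ℚ) := by
      exact_mod_cast h
    push_cast at h'
    linarith
  have h2 := dom_cb m
  have e3 : k + m + 1 - k = m + 1 := by omega
  have e4 : k + m - k = m := by omega
  rw [dom_F, dom_F, e3, e4]
  calc ((m : ℚ) + 1) ^ 3 * (((k + m + 1).choose k : ℚ) ^ 2 * (Nat.centralBinom k : ℚ)
        * (Nat.centralBinom (m + 1) : ℚ))
      = (((m : ℚ) + 1) * ((k + m + 1).choose k : ℚ)) ^ 2 * (Nat.centralBinom k : ℚ)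
        * (((m : ℚ) + 1) * (Nat.centralBinom (m + 1) : ℚ)) := by ring
    _ = _ := by
        rw [h1, h2]
        ring

theorem dom_b (k m : ℕ) : ((k : ℚ) + 1) ^ 3 * (2 * m + 1) * dom_F (k + 1 + m) (k + 1)
    = ((m : ℚ) + 1) ^ 3 * (2 * k + 1) * dom_F (k + 1 + m) k := by
  have h1 : ((k + 1 + m).choose (k + 1) : ℚ) * ((k : ℚ) + 1)
      = ((k + 1 + m).choose k : ℚ) * ((m : ℚ) + 1) := by
    have h := Nat.choose_succ_right_eq (k + 1 + m) k
    have e : k + 1 + m - k = m + 1 := by omega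
    rw [e] at h
    exact_mod_cast h
  have h2 := dom_cb m
  have h3 := dom_cb k
  have e3 : k + 1 + m - (k + 1) = m := by omega
  have e4 : k + 1 + m - k = m + 1 := by omega
  rw [dom_F, dom_F, e3, e4]
  calc ((k : ℚ) + 1) ^ 3 * (2 * m + 1) * (((k + 1 + m).choose (k + 1) : ℚ) ^ 2
        * (Nat.centralBinom (k + 1) : ℚ) * (Nat.centralBinom m : ℚ))
      = (((k + 1 + m).choose (k + 1) : ℚ) * ((k : ℚ) + 1)) ^ 2
        * (((k : ℚ) + 1) * (Nat.centralBinom (k + 1) : ℚ))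
        * ((2 * m + 1) * (Nat.centralBinom m : ℚ)) := by ring
    _ = (((k + 1 + m).choose k : ℚ) * ((m : ℚ) + 1)) ^ 2 * ((2 * k + 1) * (Nat.centralBinom k : ℚ))
        * (2 * (2 * m + 1) * (Nat.centralBinom m : ℚ)) := by
        rw [h1, h3]
        ring
    _ = (((k + 1 + m).choose k : ℚ) * ((m : ℚ) + 1)) ^ 2 * ((2 * k + 1) * (Nat.centralBinom k : ℚ))
        * (((m : ℚ) + 1) * (Nat.centralBinom (m + 1) : ℚ)) := by
        rw [h2]
    _ = _ := by ring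

/-- the polynomial `Q(n,k)` -/
def dom_Q (n k : ℚ) : ℚ :=
  16 * k ^ 3 - 24 * (3 * n + 5) * k ^ 2 + (104 * n ^ 2 + 356 * n + 296) * k
    - (48 * n ^ 3 + 248 * n ^ 2 + 416 * n + 224)

/-- the certificate -/
def dom_g (n : ℕ) : ℕ → ℚ
  | 0 => 0
  | i + 1 => dom_Q n ((i : ℚ) + 1) * (2 * i + 1) * dom_F (n + 1) i
      / (2 * (2 * ((n : ℚ) + 1 - i) - 1))

theorem dom_odd (m : ℕ) : (2 * (m : ℚ) - 1) ≠ 0 := by
  intro h
  have h1 : (2 * (m : ℤ) - 1 : ℤ) = 0 := by exact_mod_cast h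
  omega

theorem dom_g_eq (n k m : ℕ) (h : k + m = n + 1) :
    dom_g n k = dom_Q n k * (k : ℚ) ^ 3 * dom_F (n + 1) k / (2 * ((m : ℚ) + 1) ^ 3) := by
  cases k with
  | zero => simp [dom_g]
  | succ j =>
    have hb := dom_b j m
    rw [h] at hb
    have hn : (n : ℚ) + 1 = j + 1 + m := by exact_mod_cast h.symm
    have hm : ((m : ℚ) + 1) ≠ 0 := by positivity
    have h2m : (2 * (m : ℚ) + 1) ≠ 0 := by positivity
    rw [dom_g, hn]
    have e1 : (2 * ((j : ℚ) + 1 + m - j) - 1) = 2 * m + 1 := by ring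
    rw [e1]
    push_cast
    rw [div_eq_div_iff (by positivity) (by positivity)]
    linear_combination (-2 : ℚ) * dom_Q n ((j : ℚ) + 1) * hb

theorem dom_F_pred (n k m : ℕ) (h : k + m = n + 1) :
    dom_F n k = (m : ℚ) ^ 3 * dom_F (n + 1) k / (2 * ((n : ℚ) + 1) ^ 2 * (2 * m - 1)) := by
  cases m with
  | zero =>
    rw [dom_F_zero (by omega)]
    simp
  | succ m =>
    have hn : n = k + m := by omega
    subst hn
    have ha := dom_a k m
    have h2m : (2 * (m : ℚ) + 1) ≠ 0 := by positivity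
    have e1 : (2 * ((m + 1 : ℕ) : ℚ) - 1) = 2 * m + 1 := by
      push_cast
      ring
    rw [e1]
    push_cast
    rw [eq_div_iff (by positivity)]
    linear_combination (-1 : ℚ) * ha

theorem dom_star (n k : ℕ) (hk : k ≤ n + 2) :
    ((n : ℚ) + 2) ^ 3 * dom_F (n + 2) k
      - 2 * (2 * n + 3) * (5 * n ^ 2 + 15 * n + 12) * dom_F (n + 1) k
      + 64 * (n + 1) ^ 3 * dom_F n k = dom_g n (k + 1) - dom_g n k := by
  rcases Nat.lt_or_ge k (n + 2) with h1 | h1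
  · obtain ⟨m, hm⟩ : ∃ m, k + m = n + 1 := ⟨n + 1 - k, by omega⟩
    have ha := dom_a k m
    rw [hm] at ha
    have hm1 : ((m : ℚ) + 1) ≠ 0 := by positivity
    have hF : dom_F (n + 2) k = 2 * ((n : ℚ) + 2) ^ 2 * (2 * m + 1) * dom_F (n + 1) k
        / ((m : ℚ) + 1) ^ 3 := by
      rw [eq_div_iff (by positivity)]
      have hn : (k : ℚ) + m = n + 1 := by exact_mod_cast hm
      rw [hn] at ha
      linear_combination ha
    rw [hF, dom_F_pred n k m hm, dom_g_eq n k m hm, dom_g]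
    have hn : (n : ℚ) = k + m - 1 := by
      have : (k : ℚ) + m = n + 1 := by exact_mod_cast hm
      linarith
    have hn1 : (n : ℚ) + 1 ≠ 0 := by positivity
    have hodd := dom_odd m
    have e1 : (2 * ((n : ℚ) + 1 - k) - 1) = 2 * m - 1 := by
      rw [hn]
      ring
    rw [e1]
    generalize dom_F (n + 1) k = W
    rw [dom_Q, dom_Q]
    have hk' : (k : ℚ) = n + 1 - m := by linarith
    rw [hk']
    generalize (n : ℚ) = x at hn1 ⊢
    generalize (m : ℚ) = y at hm1 hodd ⊢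
    have hA : (y + 1) ^ 3 ≠ 0 := pow_ne_zero 3 hm1
    have hB : (x + 1) ^ 2 ≠ 0 := pow_ne_zero 2 hn1
    field_simp
    ring
  · have hk2 : k = n + 2 := by omega
    subst hk2
    have h2 : dom_F (n + 1) (n + 2) = 0 := dom_F_zero (by omega)
    have h3 : dom_F n (n + 2) = 0 := dom_F_zero (by omega)
    have h4 : dom_F (n + 2) (n + 2) = (Nat.centralBinom (n + 2) : ℚ) := by
      simp [dom_F]
    have h5 : dom_F (n + 1) (n + 1) = (Nat.centralBinom (n + 1) : ℚ) := by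
      simp [dom_F]
    have h6 := dom_cb (n + 1)
    push_cast at h6
    have h7 : dom_g n (n + 2 + 1) = 0 := by
      rw [dom_g, h2]
      simp
    have h8 : dom_g n (n + 2) = -(dom_Q n ((n : ℚ) + 2) * (2 * n + 3)
        * (Nat.centralBinom (n + 1) : ℚ)) / 2 := by
      rw [dom_g, h5]
      push_cast
      have e1 : (2 * (2 * ((n : ℚ) + 1 - (n + 1)) - 1)) = -2 := by ring
      have e2 : ((n : ℚ) + 1 + 1) = n + 2 := by ring
      rw [e1, e2]
      ring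
    rw [h2, h3, h4, h7, h8, dom_Q]
    have h9 : ((n : ℚ) + 2) * (Nat.centralBinom (n + 2) : ℚ)
        = 2 * (2 * n + 3) * (Nat.centralBinom (n + 1) : ℚ) := by
      have e2 : ((n : ℚ) + 1 + 1) = n + 2 := by ring
      rw [e2] at h6
      linear_combination h6
    linear_combination ((n : ℚ) + 2) ^ 2 * h9

theorem dom_ext (N M : ℕ) (h : N + 1 ≤ M) : (dom N : ℚ) = ∑ k ∈ range M, dom_F N k := by
  rw [dom]
  push_cast
  have h1 : ∑ k ∈ range (N + 1), (FT N k : ℚ) = ∑ k ∈ range (N + 1), dom_F N k :=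
    sum_congr rfl fun k _ => dom_F_eq N k
  rw [h1]
  refine sum_subset (range_mono h) fun k _ hk => ?_
  rw [mem_range] at hk
  exact dom_F_zero (by omega)

theorem dom_rec (n : ℕ) :
    ((n : ℤ) + 2) ^ 3 * dom (n + 2) - 2 * (2 * n + 3) * (5 * n ^ 2 + 15 * n + 12) * dom (n + 1) +
      64 * (n + 1) ^ 3 * dom n = 0 := by
  have key : ((n : ℚ) + 2) ^ 3 * (dom (n + 2) : ℚ)
      - 2 * (2 * n + 3) * (5 * n ^ 2 + 15 * n + 12) * (dom (n + 1) : ℚ) +
      64 * (n + 1) ^ 3 * (dom n : ℚ) = 0 := by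
    rw [dom_ext (n + 2) (n + 3) (by omega), dom_ext (n + 1) (n + 3) (by omega),
      dom_ext n (n + 3) (by omega), mul_sum, mul_sum, mul_sum, ← sum_sub_distrib,
      ← sum_add_distrib]
    rw [sum_congr rfl (fun k hk => dom_star n k (by rw [mem_range] at hk; omega)),
      sum_range_sub]
    have h7 : dom_g n (n + 3) = 0 := by
      rw [dom_g, dom_F_zero (by omega)]
      simp
    rw [h7, dom_g]
    ring
  exact_mod_cast key

end MPf96
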