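import Pool.Agent.H.MP_f96d9d_nt.Q2.PBase
import Pool.Agent.H.MP_f96d9d_nt.Q2.Dom

/-!
# Definitions in `ZMod (p^2)` for question 2
-/

set_option autoImplicit false

namespace MPf96

open Finset

/-- `1/3` in `ZMod (p^2)` -/
def third (p : ℕ) : ZMod (p ^ 2) := (3 : ZMod (p ^ 2))⁻¹

/-- the Domb number `D_j` in `ZMod (p^2)` -/
def Dz (p j : ℕ) : ZMod (p ^ 2) := ((dom j : ℤ) : ZMod (p ^ 2))

/-- `64^(1-p) 64^j D_(p-1-j)` -/
def Ds (p j : ℕ) : ZMod (p ^ 2) := (half p) ^ (6 * (p - 1)) * 64 ^ j * Dz p (p - 1 - j)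

/-- `(1 + ρ) D_j - ρ D*_j` -/
def yy (p : ℕ) (ρ : ZMod (p ^ 2)) (j : ℕ) : ZMod (p ^ 2) := (1 + ρ) * Dz p j - ρ * Ds p j

/-- `∑_{j<p} D_j / 8^j` -/
def phi8 (p : ℕ) : ZMod (p ^ 2) := ∑ j ∈ range p, Dz p j * (half p) ^ (3 * j)

/-- `1` or `-1` according to `p` modulo 3 -/
def ep (p : ℕ) : ZMod (p ^ 2) := if p % 3 = 1 then 1 else -1

variable {p : ℕ} [hp : Fact p.Prime]

theorem three_third (h3 : p ≠ 3) : 3 * third p = 1 := by
  have h : ¬ p ∣ 3 := by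
    intro h
    exact h3 ((Nat.prime_dvd_prime_iff_eq hp.out Nat.prime_three).1 h)
  have := mul_inv_nat (p := p) h
  exact_mod_cast this

theorem ep_sq (p : ℕ) : (ep p) ^ 2 = 1 := by
  unfold ep
  split_ifs <;> ring

theorem dbase_8 (h2 : p ≠ 2) : 8 * (half p) ^ 3 = 1 := by
  have h := two_half (p := p) h2
  linear_combination (4 * (half p) ^ 2 + 2 * half p + 1) * h

theorem dbase_64 (h2 : p ≠ 2) : 64 * (half p) ^ 6 = 1 := by
  have h := dbase_8 (p := p) h2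
  linear_combination (8 * (half p) ^ 3 + 1) * h

end MPf96
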