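import Pool.Agent.H.MP_f96d9d_nt.Q2.DomV
import Pool.Agent.H.MP_f96d9d_nt.HarmA

/-!
# Recurrences for `D_j` and `D*_j`, and `p D*_j = p D_j`

`rc μ a b c = μ^3 a - 2 (2μ-1)(5μ^2-5μ+2) b + 64 (μ-1)^3 c`.

`rc_D`: with `μ = j+2`, `2μ-1 = 2j+3`, `5μ^2-5μ+2 = 5j^2+15j+12`: this is `dom_rec j`. `rc_D1`:
`4 - 2*2*1 = 0`.
`Ds_zero`: `64^(1-p) D_(p-1) = 1`: `D_(p-1) = 1 + 6η` (`dom_top`) and
`(half p)^(6(p-1)) (2^(p-1))^6 = 1` with `(2^(p-1))^6 = (1+η)^6 = 1 + 6η` (`η^2 = 0`).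
`rc_Ds`: let `m = p-3-j`, so `D*_(j+2) = s 64^(j+2) D_m`, `D*_(j+1) = s 64^(j+1) D_(m+1)`,
`D*_j = s 64^j D_(m+2)`, and with `μ = j+2-p` one has `m = -μ - 1` in `ZMod (p^2)`:
`m+2 = -(μ-1)`, `m+1 = -μ`, `2m+3 = -(2μ-1)`, `5m^2+15m+12 = 5μ^2-5μ+2`. `dom_rec m` times
`-s 64^(j+1)` is the claim (`64 * 64^(j+1) = 64^(j+2)`, `64^(j+1) = 64 * 64^j`).
`rc_Ds1`: `dom_rec (p-2)`: `(p)^3 D_p - 2(2p-1)(5(p-2)^2+15(p-2)+12) D_(p-1) + 64 (p-1)^3 D_(p-2) = 0`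
and `p^3 = 0`; with `μ = 1-p` this is `-1/s` times the claim (`D*_1 = s 64 D_(p-2)`,
`D*_0 = s D_(p-1)`).
`pDs`: strong induction on `j < p`. `j = 0`: `Ds_zero`, `Dz p 0 = 1`. For `j ≥ 1` multiply the
recurrences of `D` and `D*` by `p`: as `p^2 = 0`, `p * rc (j - p) a b c = p * rc j a b c`
so both `p D_j` and `p D*_j` satisfy `j^3 x_j = 2(2j-1)(5j^2-5j+2) x_(j-1) - 64 (j-1)^3 x_(j-2)`
(for `j = 1` the last term is absent), and `j` is a unit for `0 < j < p`.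
-/

set_option autoImplicit false

namespace MPf96

open Finset

variable {p n : ℕ} [hp : Fact p.Prime]

theorem Dz_zero (p : ℕ) : Dz p 0 = 1 := by
  unfold Dz
  rw [dom_zero]
  simp

theorem doms_one (p : ℕ) : Dz p 1 = 4 := by
  unfold Dz
  rw [dom_one]
  norm_num

theorem doms_rec (p m : ℕ) :
    ((m : ZMod (p ^ 2)) + 2) ^ 3 * Dz p (m + 2) -
      2 * (2 * m + 3) * (5 * m ^ 2 + 15 * m + 12) * Dz p (m + 1) +
      64 * (m + 1) ^ 3 * Dz p m = 0 := by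
  have h := congrArg (fun z : ℤ => (z : ZMod (p ^ 2))) (dom_rec m)
  push_cast at h
  unfold Dz
  exact h

theorem doms_shift {R : Type*} [CommRing R] (q μ a b c : R) (hq : q ^ 2 = 0) :
    q * rc (μ - q) a b c = q * rc μ a b c := by
  unfold rc
  linear_combination (-(3 * μ ^ 2 - 3 * μ * q + q ^ 2) * a +
    2 * (30 * μ ^ 2 - 30 * μ * q + 10 * q ^ 2 - 30 * μ + 15 * q + 9) * b -
    64 * (3 * (μ - 1) ^ 2 - 3 * (μ - 1) * q + q ^ 2) * c) * hq

theorem rc_D (p j : ℕ) : rc ((j : ZMod (p ^ 2)) + 2) (Dz p (j + 2)) (Dz p (j + 1)) (Dz p j) = 0 := by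
  have h := doms_rec p j
  unfold rc
  linear_combination h

theorem rc_D1 (p : ℕ) : rc (1 : ZMod (p ^ 2)) (Dz p 1) (Dz p 0) 0 = 0 := by
  rw [doms_one, Dz_zero]
  unfold rc
  ring

theorem Ds_zero (hn : p = 2 * n + 1) : Ds p 0 = 1 := by
  have h1 := dom_top hn
  have h2 := two_half (p := p) (harma_p_ne_two hn)
  have h3 := eta_sq hn
  have h4 : (2 : ZMod (p ^ 2)) ^ (p - 1) = 1 + eta p := by
    unfold eta
    ring
  have h5 : (half p) ^ (6 * (p - 1)) * (1 + eta p) ^ 6 = 1 := by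
    rw [← h4, ← pow_mul, mul_comm (p - 1) 6, ← mul_pow, mul_comm (half p) 2, h2, one_pow]
  unfold Ds
  rw [Nat.sub_zero, h1, pow_zero, mul_one]
  generalize (half p) ^ (6 * (p - 1)) = S at h5 ⊢
  linear_combination h5 - S * (15 + 20 * eta p + 15 * eta p ^ 2 + 6 * eta p ^ 3 + eta p ^ 4) * h3

theorem rc_Ds (hn : p = 2 * n + 1) {j : ℕ} (hj : j + 2 < p) :
    rc ((j : ZMod (p ^ 2)) + 2 - p) (Ds p (j + 2)) (Ds p (j + 1)) (Ds p j) = 0 := by
  obtain ⟨m, hm⟩ : ∃ m, p = m + 3 + j := ⟨p - 3 - j, by omega⟩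
  have e1 : p - 1 - (j + 2) = m := by omega
  have e2 : p - 1 - (j + 1) = m + 1 := by omega
  have e3 : p - 1 - j = m + 2 := by omega
  have hc : (m : ZMod (p ^ 2)) = (p : ZMod (p ^ 2)) - 3 - j := by
    have h1 : ((p : ℕ) : ZMod (p ^ 2)) = ((m + 3 + j : ℕ) : ZMod (p ^ 2)) :=
      congrArg (fun z : ℕ => (z : ZMod (p ^ 2))) hm
    push_cast at h1
    linear_combination -h1
  have h := doms_rec p m
  rw [hc] at h
  unfold Ds
  rw [e1, e2, e3]
  generalize (half p) ^ (6 * (p - 1)) = S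
  generalize Dz p (m + 2) = x2 at h ⊢
  generalize Dz p (m + 1) = x1 at h ⊢
  generalize Dz p m = x0 at h ⊢
  rw [pow_succ (64 : ZMod (p ^ 2)) (j + 1), pow_succ (64 : ZMod (p ^ 2)) j]
  generalize (64 : ZMod (p ^ 2)) ^ j = a
  unfold rc
  linear_combination (-S * a * 64) * h

theorem rc_Ds1 (hn : p = 2 * n + 1) : rc (1 - (p : ZMod (p ^ 2))) (Ds p 1) (Ds p 0) 0 = 0 := by
  have hp2 := hp.out.two_le
  obtain ⟨m, hm⟩ : ∃ m, p = m + 2 := ⟨p - 2, by omega⟩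
  have e1 : p - 1 - 1 = m := by omega
  have e2 : p - 1 - 0 = m + 1 := by omega
  have hc : (m : ZMod (p ^ 2)) = (p : ZMod (p ^ 2)) - 2 := by
    have h1 : ((p : ℕ) : ZMod (p ^ 2)) = ((m + 2 : ℕ) : ZMod (p ^ 2)) :=
      congrArg (fun z : ℕ => (z : ZMod (p ^ 2))) hm
    push_cast at h1
    linear_combination -h1
  have h := doms_rec p m
  rw [hc] at h
  have hsq := p_sq (p := p)
  unfold Ds
  rw [e1, e2]
  generalize (half p) ^ (6 * (p - 1)) = S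
  generalize Dz p (m + 2) = x2 at h
  generalize Dz p (m + 1) = x1 at h ⊢
  generalize Dz p m = x0 at h ⊢
  unfold rc
  linear_combination (-S) * h + S * x2 * p * hsq

theorem pDs (hn : p = 2 * n + 1) {j : ℕ} (hj : j < p) :
    (p : ZMod (p ^ 2)) * Ds p j = p * Dz p j := by
  have hsq := p_sq (p := p)
  induction j using Nat.strong_induction_on with
  | _ j ih =>
    rcases j with _ | _ | j
    · rw [Ds_zero hn, Dz_zero]
    · have h1 := rc_Ds1 hn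
      have h2 := doms_shift (p : ZMod (p ^ 2)) 1 (Ds p 1) (Ds p 0) 0 hsq
      rw [h1, mul_zero] at h2
      have h3 := rc_D1 p
      rw [Ds_zero hn] at h2
      rw [Dz_zero] at h3
      show (p : ZMod (p ^ 2)) * Ds p 1 = p * Dz p 1
      unfold rc at h2 h3
      linear_combination -h2 - p * h3
    · have h1 := rc_Ds hn (j := j) (by omega)
      have h2 := doms_shift (p : ZMod (p ^ 2)) ((j : ZMod (p ^ 2)) + 2) (Ds p (j + 2)) (Ds p (j + 1))
        (Ds p j) hsq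
      rw [h1, mul_zero] at h2
      have h3 := rc_D p j
      have i1 := ih (j + 1) (by omega) (by omega)
      have i0 := ih j (by omega) (by omega)
      have hu := mul_inv_nat (p := p) (not_dvd_of_lt (m := j + 2) (by omega) hj)
      push_cast at hu
      generalize ((j : ZMod (p ^ 2)) + 2)⁻¹ = v at hu
      have h4 : ((j : ZMod (p ^ 2)) + 2) ^ 3 * (p * Ds p (j + 2) - p * Dz p (j + 2)) = 0 := by
        unfold rc at h2 h3
        linear_combination -h2 - p * h3 +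
          2 * (2 * ((j : ZMod (p ^ 2)) + 2) - 1) *
            (5 * ((j : ZMod (p ^ 2)) + 2) ^ 2 - 5 * ((j : ZMod (p ^ 2)) + 2) + 2) * i1 -
          64 * ((j : ZMod (p ^ 2)) + 2 - 1) ^ 3 * i0
      show (p : ZMod (p ^ 2)) * Ds p (j + 2) = p * Dz p (j + 2)
      generalize (j : ZMod (p ^ 2)) + 2 = μ at hu h4
      have h5 : μ ^ 3 * v ^ 3 = 1 := by
        rw [← mul_pow, hu, one_pow]
      linear_combination v ^ 3 * h4 - (p * Ds p (j + 2) - p * Dz p (j + 2)) * h5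

end MPf96
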