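import Pool.Agent.H.MP_f96d9d_nt.Q2.PBase

/-!
# The functions `e_k = (-X)^k (1-8X)^(2m)`

`R` a commutative ring with `2h = 1`. `Ld s f` with `θ = X d/dX` replaced by `θ - s`.
`EK8_ode`, `s = k + m + h`, `ν = -(m + h) = k - s`. For `m ≥ 2` put `q = 1 - 8X`; for a polynomial
`f = (-X)^k q^j c` (`c` a polynomial) `q (θ - s) f = (-X)^k q^j (q (k - s) c - 8 j X c + q θ c)`. Suggested
proof: (1) `q * dl s ((-X)^k q^j * c) = (-X)^k q^j * ((k - s) q c - 8 j X c + q X c')`; apply it three times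
to get `q^3 * Ld s ((-X)^k q^(2m)) = (-X)^k q^(2m) * (explicit polynomial in X, k, m, h)`.
(2) For the right side: `q^2 * (m EK8 (k+1) (m-1)) = - m X EK8 k m` and
`q^4 * (m (m-1) EK8 (k+2) (m-2)) = m (m-1) X^2 EK8 k m` (true also for `m = 0, 1`, natural
subtraction, since the factors vanish). So after multiplication by `q^4` both sides are `EK8 k m` times explicit
polynomials, which agree by `ring`-type computation using `2h = 1` (checked numerically).
(3) `q = 1 - 8X` is not a zero divisor (constant coefficient 1: the same induction as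
`fq_regular` in `PBase.lean`), cancel `q^4`.
-/

set_option autoImplicit false

namespace MPf96

open Polynomial Finset

variable {R : Type*} [CommRing R] {h : R}

/-- (-X)^k (1-8X)^(2m) -/
noncomputable def EK8 (R : Type*) [CommRing R] (k m : ℕ) : R[X] := (-X) ^ k * (1 - 8 * X) ^ (2 * m)

theorem ek_regular {g : R[X]} (hg : (1 - 8 * X) * g = 0) : g = 0 := by
  have e : ∀ m, g.coeff m = 0 := by
    intro m
    induction m with
    | zero =>
      have := congrArg (fun q => q.coeff 0) hg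
      simpa [sub_mul, mul_assoc] using this
    | succ m ih =>
      have h1 : (1 - 8 * X) * g = g - C 8 * (X * g) := by
        rw [map_ofNat]
        ring
      have := congrArg (fun q => q.coeff (m + 1)) hg
      simp only [h1, coeff_sub, coeff_C_mul, coeff_X_mul, coeff_zero, ih, mul_zero, sub_zero] at this
      exact this
  ext m
  simpa using e m

theorem ek_cancel {a b : R[X]} (hg : (1 - 8 * X) ^ 4 * a = (1 - 8 * X) ^ 4 * b) : a = b := by
  have h0 : (1 - 8 * X) ^ 4 * (a - b) = 0 := by rw [mul_sub, hg, sub_self]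
  have h1 : (1 - 8 * X) * ((1 - 8 * X) * ((1 - 8 * X) * ((1 - 8 * X) * (a - b)))) = 0 := by
    rw [← h0]
    ring
  exact sub_eq_zero.1 (ek_regular (ek_regular (ek_regular (ek_regular h1))))

theorem ek_der_X (k : ℕ) : X * derivative ((-X : R[X]) ^ k) = (k : R[X]) * (-X) ^ k := by
  induction k with
  | zero => simp
  | succ k ih =>
    rw [pow_succ, derivative_mul, derivative_neg, derivative_X]
    push_cast
    linear_combination (-X) * ih

theorem ek_der_q (j : ℕ) : (1 - 8 * X) * (X * derivative ((1 - 8 * X : R[X]) ^ j)) =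
    -(8 * (j : R[X]) * X * (1 - 8 * X) ^ j) := by
  have h8 : derivative (1 - 8 * X : R[X]) = -8 := by
    rw [show (8 : R[X]) = C 8 from (map_ofNat C 8).symm, derivative_sub, derivative_one,
      derivative_C_mul, derivative_X, mul_one, zero_sub]
  induction j with
  | zero => simp
  | succ j ih =>
    rw [pow_succ, derivative_mul, h8]
    push_cast
    linear_combination (1 - 8 * X) * ih

theorem ek_der (k m : ℕ) : (1 - 8 * X) * (X * derivative (EK8 R k m)) =
    ((k : R[X]) * (1 - 8 * X) - 16 * (m : R[X]) * X) * EK8 R k m := by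
  unfold EK8
  rw [derivative_mul]
  have h1 := ek_der_X (R := R) k
  have h2 := ek_der_q (R := R) (2 * m)
  push_cast at h2
  linear_combination ((1 - 8 * X) * (1 - 8 * X) ^ (2 * m)) * h1 + (-X) ^ k * h2

/-- one application of `θ - s` -/
theorem ek_dl (s : R) (k m : ℕ) (c : R[X]) : (1 - 8 * X) * dl s (EK8 R k m * c) =
    EK8 R k m * (((k : R[X]) * (1 - 8 * X) - 16 * (m : R[X]) * X - C s * (1 - 8 * X)) * c +
      (1 - 8 * X) * (X * derivative c)) := by
  unfold dl
  rw [derivative_mul]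
  linear_combination c * ek_der (R := R) k m

theorem ek_q (s : R) (F : R[X]) :
    (1 - 8 * X) * dl s F = dl s ((1 - 8 * X) * F) + 8 * X * F := by
  unfold dl
  have h8 : derivative (1 - 8 * X : R[X]) = -8 := by
    rw [show (8 : R[X]) = C 8 from (map_ofNat C 8).symm, derivative_sub, derivative_one,
      derivative_C_mul, derivative_X, mul_one, zero_sub]
  rw [derivative_mul, h8]
  ring

theorem ek_q2 (s : R) (F : R[X]) :
    (1 - 8 * X) ^ 2 * dl s F = dl s ((1 - 8 * X) ^ 2 * F) + 16 * X * ((1 - 8 * X) * F) := by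
  have h1 := ek_q s ((1 - 8 * X) * F)
  have h2 := ek_q s F
  have h3 : dl s ((1 - 8 * X) ^ 2 * F) = dl s ((1 - 8 * X) * ((1 - 8 * X) * F)) := by
    congr 1
    ring
  rw [h3]
  linear_combination (1 - 8 * X) * h2 + h1

theorem ek_thX (a b c d : R) : X * derivative (C a + C b * X + C c * X ^ 2 + C d * X ^ 3) =
    C b * X + 2 * C c * X ^ 2 + 3 * C d * X ^ 3 := by
  simp only [derivative_add, derivative_C, derivative_C_mul, derivative_X, derivative_X_pow,
    Nat.cast_ofNat, map_ofNat]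
  ring

theorem ek_E1 (k m : ℕ) : (1 - 8 * X) ^ 2 * ((m : R[X]) * EK8 R (k + 1) (m - 1)) =
    -((m : R[X]) * X * EK8 R k m) := by
  cases m with
  | zero => simp
  | succ m =>
    unfold EK8
    rw [Nat.add_sub_cancel, show 2 * (m + 1) = 2 * m + 2 by ring]
    ring

theorem ek_E2 (k m : ℕ) : (1 - 8 * X) ^ 4 * ((m : R[X]) * ((m : R[X]) - 1) * EK8 R (k + 2) (m - 2)) =
    (m : R[X]) * ((m : R[X]) - 1) * X ^ 2 * EK8 R k m := by
  rcases m with _ | _ | m
  · simp
  · simp
  · unfold EK8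
    rw [show m + 1 + 1 - 2 = m by omega, show 2 * (m + 1 + 1) = 2 * m + 4 by ring]
    ring

theorem EK8_ode (hh : 2 * h = 1) (k m : ℕ) :
    Ld ((k : R) + m + h) (EK8 R k m) = (1 - 64 * X ^ 2) *
      (C ((-((m : R) + h)) ^ 3) * EK8 R k m +
        C (4 * (m : R) * (7 * ((m : R) + h) ^ 2 - 7 * ((m : R) + h) + 2)) * EK8 R (k + 1) (m - 1) -
        C (128 * (m : R) * ((m : R) - 1) * (1 - ((m : R) + h))) * EK8 R (k + 2) (m - 2)) := by
  apply ek_cancel
  set s : R := (k : R) + m + h with hs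
  set g : R[X] := EK8 R k m with hg
  have hCs : (C s : R[X]) = (k : R[X]) + (m : R[X]) + C h := by
    rw [hs, C_add, C_add, map_natCast, map_natCast]
  have hH := pbase_h hh
  -- first
  have e1 : (1 - 8 * X) * dl s g = g * (C (-((m : R) + h)) + C (8 * h - 8 * (m : R)) * X +
      C 0 * X ^ 2 + C 0 * X ^ 3) := by
    have h1 := ek_dl s k m 1
    rw [mul_one, derivative_one, ← hg, hCs] at h1
    rw [h1]
    simp only [C_neg, C_add, C_sub, C_mul, map_natCast, map_ofNat, C_0]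
    ring
  have e2 : (1 - 8 * X) ^ 2 * dl s (dl s g) = g * (C (h ^ 2 + 2 * (m : R) * h + (m : R) ^ 2) +
      C (-16 * h ^ 2 - 16 * (m : R) + 16 * (m : R) ^ 2) * X +
      C (64 * h ^ 2 - 128 * (m : R) * h + 64 * (m : R) ^ 2) * X ^ 2 + C 0 * X ^ 3) := by
    have h1 := ek_q s (dl s g)
    rw [e1] at h1
    have h2 := ek_dl s k m (C (-((m : R) + h)) + C (8 * h - 8 * (m : R)) * X +
      C 0 * X ^ 2 + C 0 * X ^ 3)
    rw [ek_thX, ← hg, hCs] at h2
    have h3 : (1 - 8 * X) ^ 2 * dl s (dl s g) = (1 - 8 * X) * ((1 - 8 * X) * dl s (dl s g)) := by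
      ring
    rw [h3, h1, mul_add, h2]
    simp only [C_neg, C_add, C_sub, C_mul, C_pow, map_natCast, map_ofNat, C_0] at e1 ⊢
    linear_combination (8 * X) * e1
  have e3 : (1 - 8 * X) ^ 3 * dl s (dl s (dl s g)) = g *
      (C (-h ^ 3 - 3 * (m : R) * h ^ 2 - 3 * (m : R) ^ 2 * h - (m : R) ^ 3) +
      C (24 * h ^ 3 - 16 * (m : R) + 48 * (m : R) * h + 24 * (m : R) * h ^ 2 + 48 * (m : R) ^ 2 -
        24 * (m : R) ^ 2 * h - 24 * (m : R) ^ 3) * X +
      C (-192 * h ^ 3 - 128 * (m : R) - 384 * (m : R) * h + 192 * (m : R) * h ^ 2 +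
        384 * (m : R) ^ 2 + 192 * (m : R) ^ 2 * h - 192 * (m : R) ^ 3) * X ^ 2 +
      C (512 * h ^ 3 - 1536 * (m : R) * h ^ 2 + 1536 * (m : R) ^ 2 * h - 512 * (m : R) ^ 3) *
        X ^ 3) := by
    have h1 := ek_q2 s (dl s (dl s g))
    rw [e2] at h1
    have h2 := ek_dl s k m (C (h ^ 2 + 2 * (m : R) * h + (m : R) ^ 2) +
      C (-16 * h ^ 2 - 16 * (m : R) + 16 * (m : R) ^ 2) * X +
      C (64 * h ^ 2 - 128 * (m : R) * h + 64 * (m : R) ^ 2) * X ^ 2 + C 0 * X ^ 3)
    rw [ek_thX, ← hg, hCs] at h2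
    have h3 : (1 - 8 * X) ^ 3 * dl s (dl s (dl s g)) =
        (1 - 8 * X) * ((1 - 8 * X) ^ 2 * dl s (dl s (dl s g))) := by
      ring
    rw [h3, h1, mul_add, h2]
    simp only [C_neg, C_add, C_sub, C_mul, C_pow, map_natCast, map_ofNat, C_0] at e2 ⊢
    linear_combination (16 * X) * e2
  have r1 := ek_E1 (R := R) k m
  have r2 := ek_E2 (R := R) k m
  rw [← hg] at r1 r2
  unfold Ld
  simp only [C_neg, C_add, C_sub, C_mul, C_pow, map_natCast, map_ofNat, C_0, C_1] at e1 e2 e3 ⊢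
  generalize dl s (dl s (dl s g)) = d3 at e3 ⊢
  generalize dl s (dl s g) = d2 at e2 ⊢
  generalize dl s g = d1 at e1 ⊢
  generalize EK8 R (k + 1) (m - 1) = E1 at r1 ⊢
  generalize EK8 R (k + 2) (m - 2) = E2 at r2 ⊢
  generalize (C h : R[X]) = H at *
  generalize (m : R[X]) = M at *
  linear_combination ((1 - 8 * X) * (1 - 20 * X + 64 * X ^ 2)) * e3 +
    ((1 - 8 * X) ^ 2 * (-30 * X + 192 * X ^ 2)) * e2 +
    ((1 - 8 * X) ^ 3 * (-18 * X + 192 * X ^ 2)) * e1 -
    ((1 - 64 * X ^ 2) * 4 * (7 * (M + H) ^ 2 - 7 * (M + H) + 2) * (1 - 8 * X) ^ 2) * r1 +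
    ((1 - 64 * X ^ 2) * 128 * (1 - (M + H))) * r2 +
    (g * (4*X + -192*X^2 + 3584*X^3 + -32768*X^4 + 147456*X^5 + -262144*X^6 + -10*H*X + 384*H*X^2 + -5888*H*X^3 + 45056*H*X^4 + -172032*H*X^5 + 262144*H*X^6 + 10*H^2*X + -384*H^2*X^2 + 5888*H^2*X^3 + -45056*H^2*X^4 + 172032*H^2*X^5 + -262144*H^2*X^6 + -10*M*X + -64*M*X^2 + 7680*M*X^3 + -94208*M*X^4 + 434176*M*X^5 + -786432*M*X^6 + 20*M*H*X + -320*M*H*X^2 + 20480*M*H*X^4 + -81920*M*H*X^5 + 10*M^2*X + 64*M^2*X^2 + -3840*M^2*X^3 + 8192*M^2*X^4 + 204800*M^2*X^5 + -786432*M^2*X^6)) * hH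

end MPf96
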