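import Pool.Agent.H.MP_f96d9d_nt.Q2.Block

/-!
# Evaluation at `1/8`

`x = (half p)^3 = 1/8`, `η = eta p`. `x^(p-1) = 1 - 3η`: `(2^(p-1) (half p)^(p-1)) = 1` so
`(half p)^(p-1) = 1 - η` (`η^2 = 0`), cubed.
`yy_sum`: `∑_{j<p} D*_j x^j = x^(p-1) phi8`: `D*_j x^j = 64^(1-p) (64 x)^j D_(p-1-j)`,
`64 x = 8 = 1/x`, `64^(1-p) = x^(2(p-1))`; with `i = p-1-j` (`Finset.sum_range_reflect`) the term is
`x^(2(p-1)) x^(-(p-1-i)) D_i = x^(p-1) x^i D_i`. So
`∑ yy ρ j x^j = ((1+ρ) - ρ(1 - 3η)) phi8 = (1 + 3ηρ) phi8`.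
`ev_block`: write `F(x) = ∑_{m < pN} F_m x^m = ∑_{r<N} ∑_{j<p} F_(pr+j) x^(pr+j)` (`Polynomial.eval_eq_sum_range'`,
`Finset.sum_range`/`Nat.sum_range_mul..`: `Finset.range (p*N)` as a double sum; e.g. induction on
`N` with `Finset.sum_range_add`), by `block` the inner sum is
`F_(pr) x^(pr) (1 + 3η(r-ς)) phi8`, and `x^(pr) = x^r (x^(p-1))^r = x^r (1 - 3η)^r = x^r (1 - 3 r η)`, so
`x^(pr) (1 + 3η(r-ς)) = x^r (1 - 3ης)` by `η^2 = 0`.
-/

set_option autoImplicit false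

namespace MPf96

open Polynomial Finset

variable {p n : ℕ} [hp : Fact p.Prime]

theorem x8_pow (hn : p = 2 * n + 1) : ((half p) ^ 3) ^ (p - 1) = 1 - 3 * eta p := by
  have h2 : p ≠ 2 := by omega
  have h1 : (1 + eta p) * (half p) ^ (p - 1) = 1 := by
    have h3 : (2 * half p) ^ (p - 1) = 1 := by rw [two_half h2, one_pow]
    rw [mul_pow] at h3
    unfold eta
    linear_combination h3
  have h4 := eta_sq hn
  have h5 : (half p) ^ (p - 1) = 1 - eta p := by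
    linear_combination (1 - eta p) * h1 + (half p) ^ (p - 1) * h4
  rw [← pow_mul, mul_comm, pow_mul, h5]
  linear_combination (3 - eta p) * h4

theorem evblock_term (hn : p = 2 * n + 1) {j : ℕ} (hj : j < p) :
    Ds p j * ((half p) ^ 3) ^ j =
      ((half p) ^ 3) ^ (p - 1) * (Dz p (p - 1 - j) * (half p) ^ (3 * (p - 1 - j))) := by
  have h2 : p ≠ 2 := by omega
  have h1 : (64 : ZMod (p ^ 2)) ^ j * (half p) ^ (6 * j) = 1 := by
    rw [pow_mul, ← mul_pow, dbase_64 h2, one_pow]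
  obtain ⟨k, hk⟩ : ∃ k, p - 1 = j + k := ⟨p - 1 - j, by omega⟩
  have h3 : p - 1 - j = k := by omega
  unfold Ds
  rw [h3, hk]
  have h4 : (half p) ^ (6 * (j + k)) = (half p) ^ (6 * j) * (half p) ^ (6 * k) := by
    rw [← pow_add]
    congr 1
    ring
  rw [h4]
  have h5 : ((half p) ^ 3) ^ (j + k) = (half p) ^ (3 * j) * (half p) ^ (3 * k) := by
    rw [← pow_mul, ← pow_add]
    congr 1
    ring
  have h6 : ((half p) ^ 3) ^ j = (half p) ^ (3 * j) := by rw [← pow_mul]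
  have h7 : (half p) ^ (6 * k) = (half p) ^ (3 * k) * (half p) ^ (3 * k) := by
    rw [← pow_add]
    congr 1
    ring
  rw [h5, h6, h7]
  linear_combination (half p) ^ (3 * k) * (half p) ^ (3 * k) * Dz p k * (half p) ^ (3 * j) * h1

omit hp in
theorem evblock_D : ∑ j ∈ range p, Dz p j * ((half p) ^ 3) ^ j = phi8 p := by
  unfold phi8
  refine Finset.sum_congr rfl fun j _ => ?_
  rw [← pow_mul]

theorem evblock_Ds (hn : p = 2 * n + 1) :
    ∑ j ∈ range p, Ds p j * ((half p) ^ 3) ^ j = (1 - 3 * eta p) * phi8 p := by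
  rw [← x8_pow hn]
  unfold phi8
  rw [Finset.mul_sum, ← Finset.sum_range_reflect
    (fun j => ((half p) ^ 3) ^ (p - 1) * (Dz p j * (half p) ^ (3 * j))) p]
  refine Finset.sum_congr rfl fun j hj => ?_
  exact evblock_term hn (mem_range.1 hj)

theorem yy_sum (hn : p = 2 * n + 1) (ρ : ZMod (p ^ 2)) :
    ∑ j ∈ range p, yy p ρ j * ((half p) ^ 3) ^ j = (1 + 3 * eta p * ρ) * phi8 p := by
  have h1 : ∑ j ∈ range p, yy p ρ j * ((half p) ^ 3) ^ j =
      (1 + ρ) * ∑ j ∈ range p, Dz p j * ((half p) ^ 3) ^ j -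
        ρ * ∑ j ∈ range p, Ds p j * ((half p) ^ 3) ^ j := by
    rw [Finset.mul_sum, Finset.mul_sum, ← Finset.sum_sub_distrib]
    refine Finset.sum_congr rfl fun j _ => ?_
    unfold yy
    ring
  rw [h1, evblock_D, evblock_Ds hn]
  ring

theorem evblock_pow (hn : p = 2 * n + 1) (r : ℕ) :
    (1 - 3 * eta p) ^ r = 1 - 3 * (r : ZMod (p ^ 2)) * eta p := by
  have h4 := eta_sq hn
  induction r with
  | zero => simp
  | succ r ih =>
    rw [pow_succ (1 - 3 * eta p) r, ih]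
    push_cast
    linear_combination 9 * (r : ZMod (p ^ 2)) * h4

theorem evblock_range {R : Type*} [CommRing R] (f : ℕ → R) (p N : ℕ) :
    ∑ m ∈ range (p * N), f m = ∑ r ∈ range N, ∑ j ∈ range p, f (p * r + j) := by
  induction N with
  | zero => simp
  | succ N ih =>
    rw [Finset.sum_range_succ, ← ih, mul_add, mul_one, Finset.sum_range_add]

theorem ev_block (hn : p = 2 * n + 1) (ς : ZMod (p ^ 2)) {F : (ZMod (p ^ 2))[X]}
    (hF : Ld ((p : ZMod (p ^ 2)) * ς) F = 0) {N : ℕ} (hd : F.natDegree < p * N) :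
    F.eval ((half p) ^ 3) = (1 - 3 * eta p * ς) * phi8 p *
      ∑ r ∈ range N, F.coeff (p * r) * ((half p) ^ 3) ^ r := by
  rw [eval_eq_sum_range' hd, evblock_range, Finset.mul_sum]
  refine Finset.sum_congr rfl fun r _ => ?_
  have h1 : ∑ j ∈ range p, F.coeff (p * r + j) * ((half p) ^ 3) ^ (p * r + j) =
      F.coeff (p * r) * ((half p) ^ 3) ^ (p * r) *
        ∑ j ∈ range p, yy p ((r : ZMod (p ^ 2)) - ς) j * ((half p) ^ 3) ^ j := by
    rw [Finset.mul_sum]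
    refine Finset.sum_congr rfl fun j hj => ?_
    rw [block hn ς hF r (mem_range.1 hj), pow_add]
    ring
  have h2 : ((half p) ^ 3) ^ (p * r) =
      ((half p) ^ 3) ^ r * (1 - 3 * (r : ZMod (p ^ 2)) * eta p) := by
    rw [← evblock_pow hn r, ← x8_pow hn, ← pow_mul ((half p) ^ 3) (p - 1) r, ← pow_add]
    congr 1
    obtain ⟨k, hk⟩ : ∃ k, p = k + 1 := ⟨p - 1, by omega⟩
    rw [hk, Nat.add_sub_cancel]
    ring
  rw [h1, yy_sum hn, h2]
  have h4 := eta_sq hn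
  linear_combination (-9) * F.coeff (p * r) * ((half p) ^ 3) ^ r * (r : ZMod (p ^ 2)) *
    ((r : ZMod (p ^ 2)) - ς) * phi8 p * h4

end MPf96
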