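import Pool.Agent.H.MP_f96d9d_nt.Q2.Y2Deg
import Pool.Agent.H.MP_f96d9d_nt.Q2.EvBlock

/-!
# The sum `B_2`

`x = (half p)^3 = 1/8`, `w = third p`. `w (4x - 1) = -w/2 = -(half p * third p)` (`4x = half p`).
`Y2(x) = (1-x) ∑_{k<p} T_k^3 x^(p-1-k)`, `T_k = Tv h (-(h w)) k` (`eval_comp`, `eval_Tp`), and
`x^(p-1-k) = x^(p-1) 8^k`, `x^(p-1) = 1 - 3η` (`x8_pow`); so `Y2(x) = (1-x)(1-3η) B_2`.
By `ev_block` with `ς = 1`, `N = 2` (`Ld_Y2`, `Y2_deg`): `Y2(x) = (1-3η) phi8 (ep - ep x)`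
(`Y2_zero`, `Y2_p`). `1 - 3η` and `1 - x = 7x` are units (`p ≠ 7`; `8x = 1`).
-/

set_option autoImplicit false

namespace MPf96

open Polynomial Finset

variable {p n : ℕ} [hp : Fact p.Prime]

theorem TX_eval8 (hn : p = 2 * n + 1) (k : ℕ) :
    (TX (half p) (third p) k).eval ((half p) ^ 3) = Tv (half p) (-(half p * third p)) k := by
  have hh := two_half (p := p) (by omega)
  unfold TX fq
  rw [eval_comp, eval_Tp]
  congr 1
  have e4 : eval ((half p) ^ 3) (4 : (ZMod (p ^ 2))[X]) = 4 := by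
    rw [show (4 : (ZMod (p ^ 2))[X]) = C 4 from (map_ofNat C 4).symm, eval_C]
  rw [eval_mul, eval_C, eval_sub, eval_mul, e4, eval_X, eval_one]
  linear_combination (third p * half p * (2 * half p + 1) + third p) * hh

theorem evp_pow (hn : p = 2 * n + 1) {k : ℕ} (hk : k < p) :
    ((half p) ^ 3) ^ (p - 1 - k) = (1 - 3 * eta p) * 8 ^ k := by
  have h8 := dbase_8 (p := p) (by omega)
  have e : ((half p) ^ 3) ^ (p - 1) = ((half p) ^ 3) ^ (p - 1 - k) * ((half p) ^ 3) ^ k := by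
    rw [← pow_add]
    congr 1
    omega
  have e2 : ((half p) ^ 3) ^ k * 8 ^ k = 1 := by
    rw [← mul_pow, mul_comm, h8, one_pow]
  rw [← x8_pow hn, e, mul_assoc, e2, mul_one]

theorem B2_val (hn : p = 2 * n + 1) (h3 : p ≠ 3) (h7 : p ≠ 7) :
    ∑ k ∈ range p, (Tv (half p) (-(half p * third p)) k) ^ 3 * 8 ^ k = ep p * phi8 p := by
  have h2 : p ≠ 2 := by omega
  have hh := two_half (p := p) h2
  have hw := three_third (p := p) h3
  have h8 := dbase_8 (p := p) h2
  have hx : IsUnit ((half p) ^ 3) := IsUnit.of_mul_eq_one 8 (by rw [mul_comm]; exact h8)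
  have hu1 : IsUnit (1 - 3 * eta p) := by
    rw [← x8_pow hn]
    exact hx.pow _
  have hu2 : IsUnit (1 - (half p) ^ 3) := by
    have h7' : ¬ p ∣ 7 := by
      intro h
      exact h7 ((Nat.prime_dvd_prime_iff_eq hp.out (by norm_num)).1 h)
    have h := unit_nat (p := p) h7'
    have e : ((7 : ℕ) : ZMod (p ^ 2)) = 8 * (1 - (half p) ^ 3) := by
      push_cast
      linear_combination h8
    rw [e] at h
    exact isUnit_of_mul_isUnit_right h
  refine cancel_unit (hu1.mul hu2) ?_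
  have hL : Ld ((p : ZMod (p ^ 2)) * 1) (Y2 (half p) (third p) p) = 0 := by
    rw [mul_one]
    exact Ld_Y2 hh hw p_sq
  have h1 := ev_block hn 1 hL (Y2_deg hn)
  rw [sum_range_succ, sum_range_succ, sum_range_zero, mul_zero, mul_one p, Y2_zero hn h3,
    Y2_p hn h3] at h1
  have h3' : (Y2 (half p) (third p) p).eval ((half p) ^ 3) = (1 - (half p) ^ 3) *
      ((1 - 3 * eta p) *
        ∑ k ∈ range p, (Tv (half p) (-(half p * third p)) k) ^ 3 * 8 ^ k) := by
    unfold Y2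
    rw [eval_mul, eval_sub, eval_one, eval_X, eval_finsetSum]
    congr 1
    rw [mul_sum]
    refine sum_congr rfl fun k hk => ?_
    rw [eval_mul, eval_pow, eval_pow, eval_X, TX_eval8 hn, evp_pow hn (mem_range.1 hk)]
    ring
  rw [h3'] at h1
  linear_combination h1

end MPf96
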