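import Pool.Agent.H.MP_f96d9d_nt.Q2.KV
import Pool.Agent.H.MP_f96d9d_nt.Q2.EvBlock
import Pool.Agent.H.MP_f96d9d_nt.Q2.EvP

/-!
# The sum `B_1`

`x = (half p)^3 = 1/8`, `h = half p`, `4x - 1 = h - 1 = -h`. `VV(x) = (1-x) ∑_{k<p} 27^k x^k (-h)^(M-3k) T_k^3`
with `T_k = Tv h (-(h w)) k` (`TX_eval8`), `M = 3n(p+1)` even, `(-h)^(M-3k) = h^M (-8)^k`
(`(-h)(-2) = 1`, `3k ≤ M`). So `VV(x) = (1-x) h^M B_1`, `B_1 = ∑ T_k^3 (-27)^k` (`8x = 1`).
`ev_block` with `ς = 0`, `N = 3n+2` (`VV_ode` is `Ld 0 VV = 0`, `p * 0 = 0`;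
`VV_deg`: `3np+4n+1 < p(3n+2)`) and `KV` at `x`: `VV(x) = phi8 (1-x)(1-4x)^(3n) = phi8 (1-x) h^(3n)`.
`1 - x = 7x` is a unit. `h^M B_1 = h^(3n) phi8`; multiply by `2^M`, `M = 3np + 3n`.
-/

set_option autoImplicit false

namespace MPf96

open Polynomial Finset

variable {p n : ℕ} [hp : Fact p.Prime]

theorem evz_term {R : Type*} [CommRing R] (h T : R) {M k : ℕ} (hM : 3 * k ≤ M) (he : Even M) :
    27 ^ k * ((h ^ 3) ^ k * (-h) ^ (M - 3 * k)) * T ^ 3 = h ^ M * (T ^ 3 * (-27) ^ k) := by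
  obtain ⟨e, rfl⟩ : ∃ e, M = 3 * k + e := ⟨M - 3 * k, by omega⟩
  have h1 : 3 * k + e - 3 * k = e := by omega
  rw [h1]
  have h2 : ((-1 : R)) ^ e = (-1) ^ k := by
    have h3 : Even (e + 3 * k) := by rwa [add_comm] at he
    have h4 : Even (e + k) := by
      have : Even (e + k + 2 * k) := by
        have e1 : e + k + 2 * k = e + 3 * k := by ring
        rw [e1]
        exact h3
      exact (Nat.even_add.1 this).2 (even_two_mul k)
    have h5 : ((-1 : R)) ^ (e + k) = 1 := h4.neg_one_pow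
    have h6 : ((-1 : R)) ^ (k + k) = 1 := Even.neg_one_pow ⟨k, rfl⟩
    rw [pow_add] at h5 h6
    linear_combination (-1 : R) ^ k * h5 - (-1 : R) ^ e * h6
  rw [neg_pow h e, h2, neg_pow (27 : R) k, pow_add h, ← pow_mul]
  ring

theorem evz_sum {h : ZMod (p ^ 2)} (hh : h = half p) (h2 : 2 * h = 1) (hn : p = 2 * n + 1)
    (h1n : 1 ≤ n) :
    (VV p n).eval (h ^ 3) = (1 - h ^ 3) * (h ^ (3 * n * (p + 1)) *
      ∑ k ∈ range p, (Tv (half p) (-(half p * third p)) k) ^ 3 * (-27) ^ k) := by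
  have hM : Even (3 * n * (p + 1)) := by
    rw [hn]
    have e1 : 3 * n * (2 * n + 1 + 1) = 2 * (3 * n * (n + 1)) := by ring
    rw [e1]
    exact even_two_mul _
  unfold VV VK
  rw [eval_mul, eval_sub, eval_one, eval_X, eval_finsetSum, Finset.mul_sum (a := h ^ (3 * n * (p + 1)))]
  congr 1
  refine Finset.sum_congr rfl fun k hk => ?_
  have hk' := mem_range.1 hk
  have hk3 : 3 * k ≤ 3 * n * (p + 1) := by
    have e1 : 3 * n * (p + 1) = 3 * (n * (p + 1)) := by ring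
    have e2 : n * 2 ≤ n * (p + 1) := Nat.mul_le_mul_left n (by omega)
    omega
  have hf : (fq : (ZMod (p ^ 2))[X]).eval (h ^ 3) = -h := by
    unfold fq
    have e4 : (4 : (ZMod (p ^ 2))[X]) = C 4 := (map_ofNat C 4).symm
    rw [eval_sub, eval_one, eval_mul, eval_X, e4, eval_C]
    linear_combination (2 * h ^ 2 + h + 1) * h2
  rw [eval_mul, eval_mul, eval_mul, eval_pow, eval_pow, eval_pow, eval_C, eval_X, hf]
  have hT : (TX (half p) (third p) k).eval (h ^ 3) = Tv (half p) (-(half p * third p)) k := by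
    rw [hh]
    exact TX_eval8 hn k
  rw [hT]
  exact evz_term h _ hk3 hM

theorem B1_val (hn : p = 2 * n + 1) (h3 : p ≠ 3) (h7 : p ≠ 7) :
    ∑ k ∈ range p, (Tv (half p) (-(half p * third p)) k) ^ 3 * (-27) ^ k =
      2 ^ (3 * n * p) * phi8 p := by
  have hp2 : p ≠ 2 := by omega
  have h1n : 1 ≤ n := by
    have := hp.out.two_le
    omega
  obtain ⟨h, hh⟩ : ∃ h, h = half p := ⟨_, rfl⟩
  have h2 : 2 * h = 1 := by
    rw [hh]
    exact two_half hp2
  have hs := evz_sum hh h2 hn h1n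
  have hb := ev_block hn 0 (F := VV p n) (by rw [mul_zero]; exact VV_ode hn h3) (N := 3 * n + 2) (by
    have h4 := VV_deg hn
    have e1 : p * (3 * n + 2) = 3 * n * p + 2 * p := by ring
    omega)
  rw [KV hn h3, ← hh, hs] at hb
  have h4x : 1 - 4 * h ^ 3 = h := by linear_combination (-(2 * h ^ 2 + h + 1)) * h2
  rw [h4x] at hb
  generalize (∑ k ∈ range p, (Tv (half p) (-(half p * third p)) k) ^ 3 * (-27) ^ k) = B at hb ⊢
  have hu : IsUnit (1 - h ^ 3) := by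
    have h7u : IsUnit ((7 : ℕ) : ZMod (p ^ 2)) := by
      refine unit_nat fun hd => h7 ?_
      exact (Nat.prime_dvd_prime_iff_eq hp.out (by norm_num)).1 hd
    have e : ((7 : ℕ) : ZMod (p ^ 2)) = 8 * (1 - h ^ 3) := by
      push_cast
      linear_combination (4 * h ^ 2 + 2 * h + 1) * h2
    rw [e] at h7u
    exact isUnit_of_mul_isUnit_right h7u
  have hc : h ^ (3 * n * (p + 1)) * B = phi8 p * h ^ (3 * n) := by
    refine hu.mul_left_cancel ?_
    rw [hb]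
    ring
  have e1 : 3 * n * (p + 1) = 3 * n * p + 3 * n := by ring
  have e2 : (2 : ZMod (p ^ 2)) ^ (3 * n * (p + 1)) * h ^ (3 * n * (p + 1)) = 1 := by
    rw [← mul_pow, h2, one_pow]
  have e3 : (2 : ZMod (p ^ 2)) ^ (3 * n * (p + 1)) * h ^ (3 * n) = 2 ^ (3 * n * p) := by
    rw [e1, pow_add, mul_assoc, ← mul_pow, h2, one_pow, mul_one]
  linear_combination (2 : ZMod (p ^ 2)) ^ (3 * n * (p + 1)) * hc - B * e2 + phi8 p * e3

end MPf96
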