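import Pool.Agent.H.MP_f96d9d_nt.Q2.FraA

/-!
# The Franel type recurrence of `AA`

Let `ν = i - p h`, `2 ≤ i ≤ n`, `T 0 = 0`, `T (j+1) = cb (ν-1) j`, and
`P0(j) = 4 j^3 - 6 (3ν-1) j^2 + 3ν (9ν-5) j - 2ν^2 (7ν-5)`.
For `0 ≤ j < p`: (1) `cb ν j = T (j+1) + T j` (`cb_pascal`; `j = 0` trivial);
(2) `(ν-1) cb (ν-2) j = (ν-1-j) T (j+1)` (`cb_down` for `ν-1`); (3) `j T (j+1) = (ν-j) T j`
(`cb_succ` with `j-1`: `j cb (ν-1) j = (ν-1-(j-1)) cb (ν-1) (j-1)`).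
Claim: `(ν-1) [ν^2 (cb ν j)^3 - (7ν^2-7ν+2) (cb (ν-1) j)^3 - 8 (ν-1)^2 (cb (ν-2) j)^3]
  = P0(j+1) T(j+1)^3 - P0(j) T(j)^3`.
By (1), (2) the left side is `ν^2 (ν-1) (T(j+1)+T(j))^3 - (7ν^2-7ν+2)(ν-1) T(j+1)^3 - 8 (ν-1-j)^3 T(j+1)^3`.
For `j ≥ 1` `j` is a unit (`unit_nat`): put `T j = j t`; by (3) `T (j+1) = (ν-j) t`; the claim is then
`t^3` times a polynomial identity in `ν`, `j` (`ring`). For `j = 0`: `T 0 = 0`, `T 1 = 1`: direct `ring`.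
Sum over `j < p`: `(ν-1) [ν^2 AA_i - (7ν^2-7ν+2) AA_(i-1) - 8 (ν-1)^2 AA_(i-2)] = P0(p) T(p)^3`
(`Finset.sum_range_sub`; `ν - 1 = (i-1) - p h`, `ν - 2 = (i-2) - p h`), and
`T p = cb ((i-1) - p h) (p-1)` is a multiple of `p` (`cb_small`, `i - 1 < p - 1`), so its cube is 0.
`ν - 1 = (i-1) - p h` is a unit since `i - 1` is (`0 < i-1 < p`; `(x - y)(x + y) = x^2` if `y^2 = 0`).
-/

set_option autoImplicit false

namespace MPf96

open Finset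

variable {p n : ℕ} [hp : Fact p.Prime]

/-- `T 0 = 0`, `T (j+1) = cb (ν-1) j` -/
def frab_T (p : ℕ) (ν : ZMod (p ^ 2)) : ℕ → ZMod (p ^ 2)
  | 0 => 0
  | j + 1 => cb p (ν - 1) j

/-- the multiplier of the telescoping sum -/
def frab_P (p : ℕ) (ν : ZMod (p ^ 2)) (j : ℕ) : ZMod (p ^ 2) :=
  4 * (j : ZMod (p ^ 2)) ^ 3 - 6 * (3 * ν - 1) * (j : ZMod (p ^ 2)) ^ 2 +
    3 * ν * (9 * ν - 5) * (j : ZMod (p ^ 2)) - 2 * ν ^ 2 * (7 * ν - 5)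

theorem frab_step (ν : ZMod (p ^ 2)) {j : ℕ} (hj : j < p) :
    (ν - 1) * (ν ^ 2 * (cb p ν j) ^ 3 - (7 * ν ^ 2 - 7 * ν + 2) * (cb p (ν - 1) j) ^ 3 -
      8 * (ν - 1) ^ 2 * (cb p (ν - 2) j) ^ 3) =
      frab_P p ν (j + 1) * (frab_T p ν (j + 1)) ^ 3 - frab_P p ν j * (frab_T p ν j) ^ 3 := by
  cases j with
  | zero =>
    rw [cb_zero, cb_zero, cb_zero]
    show _ = frab_P p ν (0 + 1) * (cb p (ν - 1) 0) ^ 3 - frab_P p ν 0 * (0 : ZMod (p ^ 2)) ^ 3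
    rw [cb_zero]
    unfold frab_P
    push_cast
    ring
  | succ k =>
    have h1 := cb_pascal (p := p) ν hj
    have h2 := cb_down (p := p) (ν - 1) hj
    have h3 := cb_succ (p := p) (ν - 1) hj
    have hu : IsUnit (((k + 1 : ℕ) : ZMod (p ^ 2))) :=
      unit_nat (not_dvd_of_lt (Nat.succ_pos k) hj)
    show _ = frab_P p ν (k + 1 + 1) * (cb p (ν - 1) (k + 1)) ^ 3 -
      frab_P p ν (k + 1) * (cb p (ν - 1) k) ^ 3
    obtain ⟨t, ht⟩ : ∃ t, cb p (ν - 1) k = ((k + 1 : ℕ) : ZMod (p ^ 2)) * t := by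
      obtain ⟨v, hv⟩ := hu
      refine ⟨(↑v⁻¹ : ZMod (p ^ 2)) * cb p (ν - 1) k, ?_⟩
      rw [← hv, ← mul_assoc, Units.mul_inv, one_mul]
    have ht2 : cb p (ν - 1) (k + 1) = (ν - ((k + 1 : ℕ) : ZMod (p ^ 2))) * t := by
      apply cancel_unit hu
      rw [ht] at h3
      push_cast at h3 ⊢
      linear_combination h3
    have h2' : (ν - 1) ^ 3 * (cb p (ν - 2) (k + 1)) ^ 3 =
        (ν - 1 - ((k + 1 : ℕ) : ZMod (p ^ 2))) ^ 3 * (cb p (ν - 1) (k + 1)) ^ 3 := by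
      rw [show ν - 2 = ν - 1 - 1 by ring, ← mul_pow, h2, mul_pow]
    have e : (ν - 1) * (ν ^ 2 * (cb p ν (k + 1)) ^ 3 - (7 * ν ^ 2 - 7 * ν + 2) *
        (cb p (ν - 1) (k + 1)) ^ 3 - 8 * (ν - 1) ^ 2 * (cb p (ν - 2) (k + 1)) ^ 3) =
        (ν - 1) * ν ^ 2 * (cb p ν (k + 1)) ^ 3 - (ν - 1) * (7 * ν ^ 2 - 7 * ν + 2) *
        (cb p (ν - 1) (k + 1)) ^ 3 - 8 * ((ν - 1) ^ 3 * (cb p (ν - 2) (k + 1)) ^ 3) := by ring
    rw [e, h2', h1, ht2, ht]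
    unfold frab_P
    push_cast
    ring

theorem frab_unit {i : ℕ} (h0 : 0 < i) (h1 : i < p) :
    IsUnit ((i : ZMod (p ^ 2)) - (p : ZMod (p ^ 2)) * half p) := by
  have hu : IsUnit ((i : ZMod (p ^ 2)) ^ 2) := (unit_nat (not_dvd_of_lt h0 h1)).pow 2
  have e : ((i : ZMod (p ^ 2)) - (p : ZMod (p ^ 2)) * half p) *
      ((i : ZMod (p ^ 2)) + (p : ZMod (p ^ 2)) * half p) = (i : ZMod (p ^ 2)) ^ 2 := by
    have h := p_sq (p := p)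
    linear_combination (-(half p) ^ 2) * h
  rw [← e] at hu
  exact isUnit_of_mul_isUnit_left hu

theorem AA_rec (hn : p = 2 * n + 1) {i : ℕ} (hi : i + 2 ≤ n) (ν : ZMod (p ^ 2))
    (hν : ν = (i : ZMod (p ^ 2)) + 2 - (p : ZMod (p ^ 2)) * half p) :
    ν ^ 2 * AA p (i + 2) = (7 * ν ^ 2 - 7 * ν + 2) * AA p (i + 1) +
      8 * (ν - 1) ^ 2 * AA p i := by
  have hp2 := hp.out.two_le
  have e0 : (i : ZMod (p ^ 2)) - p * half p = ν - 2 := by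
    rw [hν]
    ring
  have e1 : ((i + 1 : ℕ) : ZMod (p ^ 2)) - p * half p = ν - 1 := by
    rw [hν]
    push_cast
    ring
  have e2 : ((i + 2 : ℕ) : ZMod (p ^ 2)) - p * half p = ν := by
    rw [hν]
    push_cast
    ring
  have hsum : (ν - 1) * (ν ^ 2 * AA p (i + 2) - (7 * ν ^ 2 - 7 * ν + 2) * AA p (i + 1) -
      8 * (ν - 1) ^ 2 * AA p i) = 0 := by
    have h1 : (ν - 1) * (ν ^ 2 * AA p (i + 2) - (7 * ν ^ 2 - 7 * ν + 2) * AA p (i + 1) -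
        8 * (ν - 1) ^ 2 * AA p i) = ∑ j ∈ range p,
        (frab_P p ν (j + 1) * (frab_T p ν (j + 1)) ^ 3 - frab_P p ν j * (frab_T p ν j) ^ 3) := by
      unfold AA
      rw [e0, e1, e2, mul_sum, mul_sum, mul_sum, ← sum_sub_distrib, ← sum_sub_distrib, mul_sum]
      exact sum_congr rfl fun j hj => frab_step ν (mem_range.1 hj)
    rw [h1, Finset.sum_range_sub (fun j => frab_P p ν j * (frab_T p ν j) ^ 3)]
    obtain ⟨m, hm⟩ : ∃ m, p = m + 1 := ⟨p - 1, by omega⟩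
    obtain ⟨z, hz⟩ := cb_small (p := p) (i := i + 1) (j := m) (by omega) (by omega)
    have hT : frab_T p ν p = (p : ZMod (p ^ 2)) * z := by
      rw [← hz, e1]
      have hgen : ∀ k : ℕ, k = m + 1 → frab_T p ν k = cb p (ν - 1) m := by
        rintro k rfl
        rfl
      exact hgen p hm
    have h0 : frab_T p ν 0 = 0 := rfl
    have hsq := p_sq (p := p)
    rw [hT, h0]
    linear_combination (frab_P p ν p * (p : ZMod (p ^ 2)) * z ^ 3) * hsq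
  have hu : IsUnit (ν - 1) := by
    rw [← e1]
    exact frab_unit (Nat.succ_pos i) (by omega)
  have := eq_zero_of_unit_mul hu hsum
  linear_combination this

end MPf96
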