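import Pool.Agent.H.MP_f96d9d_nt.Q2.EK
import Pool.Agent.H.MP_f96d9d_nt.Q2.FraB
import Pool.Agent.H.MP_f96d9d_nt.Q2.EvBlock

/-!
# `F(1)` in terms of `phi8`

`p = 2n+1`, `h = half p`, `b_k = 4^k u_(n-k) AA_k`, `S = ∑_{k ≤ n} b_k EK8 k (n-k)`.
`GS_ode`: `Ld (p h) S = 0`. `p h = n + h = k + (n-k) + h`, so `EK8_ode` applies with `m = n-k`,
`ν_k = -(m+h) = k - p h`. Write `m = n - k`. With `ν = ν_k`: `m + h = -ν`, the coefficient of
`EK8 (k+1) (m-1)` is `4 m (7ν^2 + 7ν + 2)` and that of `EK8 (k+2) (m-2)` is `-128 m (m-1) (1+ν)`. So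
`Ld (p h) S = (1-64X^2) ∑_k c_k EK8 k (n-k)` with (for `k ≥ 2`)
`c_k = ν^3 b_k + 4 (n-k+1) (7(ν-1)^2 + 7(ν-1) + 2) b_(k-1) - 128 (n-k+2)(n-k+1) (ν-1) b_(k-2)`
(`ν = ν_k`, `ν_(k-1) = ν - 1`, `1 + ν_(k-2) = ν - 1`; the terms with index beyond `n` have zero coefficient:
`m = 0` for `k = n`, and `m (m-1) = 0` for `k = n-1, n`), `7(ν-1)^2 + 7(ν-1) + 2 = 7ν^2 - 7ν + 2`.
`c_k = 0`: `u_succ` gives `2(j+1) u_(j+1) = (2j+1) u_j`; with `2ν_k = 2k - p = -(2(n-k)+1)`:
`2 (n-k+1) u_(n-k+1) = (2(n-k)+1) u_(n-k) = -2ν u_(n-k)`, i.e. `(n-k+1) u_(n-k+1) = -ν u_(n-k)`, and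
similarly `(n-k+2) u_(n-k+2) = -(ν-1) u_(n-k+1)`. So
`4 (n-k+1) b_(k-1) = 4^k (n-k+1) u_(n-k+1) AA_(k-1) = -4^k ν u_(n-k) AA_(k-1)` and
`128 (n-k+2)(n-k+1) b_(k-2) = 8 * 4^k (n-k+1) (n-k+2) u_(n-k+2) AA_(k-2)
  = -8 * 4^k (ν-1) (n-k+1) u_(n-k+1) AA_(k-2) = 8 * 4^k (ν-1) ν u_(n-k) AA_(k-2)`. Hence
`c_k = 4^k u_(n-k) ν [ν^2 AA_k - (7ν^2-7ν+2) AA_(k-1) - 8 (ν-1)^2 AA_(k-2)] = 0` by `AA_rec`.
`c_0 = ν_0^3 b_0 = (-p h)^3 b_0 = 0`. `c_1 = 4 u_(n-1) ν [ν^2 AA_1 - (7ν^2-7ν+2) AA_0]`, `ν = 1 - p h`,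
`AA_0 = 1`, `AA_1 = 2 - 3 p h`: `(1-2ph)(2-3ph) = 2 - 7ph = 7ν^2 - 7ν + 2` (`p^2 = 0`).
`GS_deg`: `EK8 k (n-k)` has degree at most `k + 2(n-k) ≤ 2n < p`. `GS_zero`: only `k = 0`: `b_0 = u_n`.
`F_phi8`: `ev_block` with `ς = h`, `N = 1`, `x = h^3`: `S(x) = (1 - 3ηh) phi8 u_n`. `1 - 8x = 0`, so only
`k = n` contributes to `S(x)`: `b_n (-x)^n = 4^n AA_n (-x)^n = (-1)^n h^n F(1)` (`4x = h`, `AA_n`).
`u_n = (-1)^n (1+η)` (`H4`). So `h^n F(1) = (1 - 3ηh)(1+η) phi8 = (1 - ηh) phi8` (`2h = 1`, `η^2 = 0`).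
Multiply by `2^n`: `F(1) = 2^n (1 - ηh) phi8`, and `2^(np) = 2^n (2^(p-1))^n = 2^n (1+η)^n
= 2^n (1 + nη) = 2^n (1 - hη)` (`2nη = (p-1)η = -η`, `p_eta`).
-/

set_option autoImplicit false

namespace MPf96

open Polynomial Finset

/-- `∑ b_k e_k` -/
noncomputable def GS (p n : ℕ) : (ZMod (p ^ 2))[X] :=
  ∑ k ∈ range (n + 1), C (4 ^ k * u (half p) (n - k) * AA p k) * EK8 (ZMod (p ^ 2)) k (n - k)

theorem gb_shift {S : Type*} [CommRing S] (t : ℕ) (a b g E : ℕ → S) (hb : b (t + 1) = 0)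
    (hg : g (t + 1) = 0) (hg' : g t = 0) (h0 : a 0 = 0) (h1 : a 1 + b 0 = 0)
    (h2 : ∀ i < t, a (i + 2) + b (i + 1) - g i = 0) :
    ∑ k ∈ range (t + 2), (a k * E k + b k * E (k + 1) - g k * E (k + 2)) = 0 := by
  rw [Finset.sum_sub_distrib, Finset.sum_add_distrib]
  have e1 : ∑ k ∈ range (t + 2), a k * E k =
      ∑ i ∈ range t, a (i + 2) * E (i + 2) + a 1 * E 1 + a 0 * E 0 := by
    rw [Finset.sum_range_succ', Finset.sum_range_succ']
  have e2 : ∑ k ∈ range (t + 2), b k * E (k + 1) =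
      ∑ i ∈ range t, b (i + 1) * E (i + 2) + b 0 * E 1 := by
    rw [Finset.sum_range_succ, Finset.sum_range_succ', hb, zero_mul, add_zero]
  have e3 : ∑ k ∈ range (t + 2), g k * E (k + 2) = ∑ i ∈ range t, g i * E (i + 2) := by
    rw [Finset.sum_range_succ, Finset.sum_range_succ, hg, hg', zero_mul, zero_mul, add_zero,
      add_zero]
  have e4 : ∑ i ∈ range t, a (i + 2) * E (i + 2) + ∑ i ∈ range t, b (i + 1) * E (i + 2) -
      ∑ i ∈ range t, g i * E (i + 2) = 0 := by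
    rw [← Finset.sum_add_distrib, ← Finset.sum_sub_distrib]
    apply Finset.sum_eq_zero
    intro i hi
    linear_combination E (i + 2) * h2 i (Finset.mem_range.1 hi)
  rw [e1, e2, e3]
  linear_combination e4 + E 1 * h1 + E 0 * h0

variable {p n : ℕ} [hp : Fact p.Prime]

theorem gb_ph (hn : p = 2 * n + 1) : (p : ZMod (p ^ 2)) * half p = n + half p := by
  have h2 : p ≠ 2 := by omega
  have h := two_half h2
  have h3 : (p : ZMod (p ^ 2)) = 2 * (n : ZMod (p ^ 2)) + 1 := by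
    have := congrArg (fun x : ℕ => (x : ZMod (p ^ 2))) hn
    push_cast at this
    exact this
  rw [h3]
  linear_combination (n : ZMod (p ^ 2)) * h

theorem gb_u (h2 : p ≠ 2) (m : ℕ) :
    ((m : ZMod (p ^ 2)) + 1) * u (half p) (m + 1) = ((m : ZMod (p ^ 2)) + half p) * u (half p) m := by
  have h := two_half h2
  have h3 := u_succ h m
  linear_combination (half p) * h3 -
    (((m : ZMod (p ^ 2)) + 1) * u (half p) (m + 1) - (m : ZMod (p ^ 2)) * u (half p) m) * h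

theorem GS_ode (hn : p = 2 * n + 1) (h3 : p ≠ 3) :
    Ld ((p : ZMod (p ^ 2)) * half p) (GS p n) = 0 := by
  have h2 : p ≠ 2 := by omega
  have hh := two_half h2
  have hn2 : 2 ≤ n := by
    have := hp.out.two_le
    omega
  obtain ⟨t, ht⟩ : ∃ t, n = t + 1 := ⟨n - 1, by omega⟩
  have hph := gb_ph hn
  have hterm : ∀ k ∈ range (n + 1),
      C (4 ^ k * u (half p) (n - k) * AA p k) * Ld ((p : ZMod (p ^ 2)) * half p)
        (EK8 (ZMod (p ^ 2)) k (n - k)) = (1 - 64 * X ^ 2) *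
      (C (4 ^ k * u (half p) (n - k) * AA p k * (-(((n - k : ℕ) : ZMod (p ^ 2)) + half p)) ^ 3) *
          EK8 (ZMod (p ^ 2)) k (n - k) +
        C (4 ^ k * u (half p) (n - k) * AA p k * (4 * ((n - k : ℕ) : ZMod (p ^ 2)) *
          (7 * (((n - k : ℕ) : ZMod (p ^ 2)) + half p) ^ 2 -
            7 * (((n - k : ℕ) : ZMod (p ^ 2)) + half p) + 2))) *
          EK8 (ZMod (p ^ 2)) (k + 1) (n - (k + 1)) -
        C (4 ^ k * u (half p) (n - k) * AA p k * (128 * ((n - k : ℕ) : ZMod (p ^ 2)) *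
          (((n - k : ℕ) : ZMod (p ^ 2)) - 1) * (1 - (((n - k : ℕ) : ZMod (p ^ 2)) + half p)))) *
          EK8 (ZMod (p ^ 2)) (k + 2) (n - (k + 2))) := by
    intro k hk
    have hk' : k ≤ n := by
      have := Finset.mem_range.1 hk
      omega
    have e1 : (p : ZMod (p ^ 2)) * half p = (k : ZMod (p ^ 2)) + ((n - k : ℕ) : ZMod (p ^ 2)) +
        half p := by
      rw [hph, Nat.cast_sub hk']
      ring
    have e2 : n - k - 1 = n - (k + 1) := by omega
    have e3 : n - k - 2 = n - (k + 2) := by omega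
    rw [e1, EK8_ode hh, e2, e3]
    simp only [C_mul]
    ring
  unfold GS
  rw [Ld_sum]
  simp only [Ld_C_mul]
  rw [Finset.sum_congr rfl hterm, ← Finset.mul_sum]
  have key := gb_shift t
    (fun k => C (4 ^ k * u (half p) (n - k) * AA p k *
      (-(((n - k : ℕ) : ZMod (p ^ 2)) + half p)) ^ 3))
    (fun k => C (4 ^ k * u (half p) (n - k) * AA p k * (4 * ((n - k : ℕ) : ZMod (p ^ 2)) *
          (7 * (((n - k : ℕ) : ZMod (p ^ 2)) + half p) ^ 2 -
            7 * (((n - k : ℕ) : ZMod (p ^ 2)) + half p) + 2))))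
    (fun k => C (4 ^ k * u (half p) (n - k) * AA p k * (128 * ((n - k : ℕ) : ZMod (p ^ 2)) *
          (((n - k : ℕ) : ZMod (p ^ 2)) - 1) * (1 - (((n - k : ℕ) : ZMod (p ^ 2)) + half p)))))
    (fun k => EK8 (ZMod (p ^ 2)) k (n - k)) ?_ ?_ ?_ ?_ ?_ ?_
  · rw [show n + 1 = t + 2 by omega, key, mul_zero]
  · have e : n - (t + 1) = 0 := by omega
    simp only [e, Nat.cast_zero, mul_zero, zero_mul, C_0]
  · have e : n - (t + 1) = 0 := by omega
    simp only [e, Nat.cast_zero, mul_zero, zero_mul, C_0]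
  · have e : n - t = 1 := by omega
    simp only [e, Nat.cast_one, sub_self, mul_zero, zero_mul, C_0]
  · have e : (-(((n - 0 : ℕ) : ZMod (p ^ 2)) + half p)) ^ 3 = 0 := by
      rw [Nat.sub_zero, ← hph]
      linear_combination (-(p : ZMod (p ^ 2)) * half p ^ 3) * (p_sq (p := p))
    simp only [e, mul_zero, C_0]
  · -- k = 1
    show C _ + C _ = 0
    rw [← C_add]
    have hM : (n : ZMod (p ^ 2)) = ((n - 1 : ℕ) : ZMod (p ^ 2)) + 1 := by
      rw [Nat.cast_sub (by omega : 1 ≤ n)]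
      push_cast
      ring
    have hu := gb_u h2 (n - 1)
    have e1 : n - 1 + 1 = n := by omega
    rw [e1] at hu
    have hA1 := AA_one hn
    have hA0 := AA_zero hn
    have hp2 := p_sq (p := p)
    rw [Nat.sub_zero, hA1, hA0]
    obtain ⟨M, hMd⟩ : ∃ M : ZMod (p ^ 2), M = ((n - 1 : ℕ) : ZMod (p ^ 2)) := ⟨_, rfl⟩
    rw [← hMd] at hM hu ⊢
    have hMh : M + half p = (p : ZMod (p ^ 2)) * half p - 1 := by
      rw [hph, hM]
      ring
    rw [← C_0]
    congr 1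
    rw [hM]
    have hu' : (M + 1) * u (half p) n = ((p : ZMod (p ^ 2)) * half p - 1) * u (half p) (n - 1) := by
      rw [← hMh]
      exact hu
    have e2 : M + 1 + half p = (p : ZMod (p ^ 2)) * half p := by
      linear_combination hMh
    rw [e2, hMh]
    obtain ⟨w, hw⟩ : ∃ w, w = (p : ZMod (p ^ 2)) * half p := ⟨_, rfl⟩
    have hw2 : w ^ 2 = 0 := by
      rw [hw, mul_pow, hp2, zero_mul]
    rw [show (2 : ZMod (p ^ 2)) - 3 * p * half p = 2 - 3 * w by rw [hw]; ring, ← hw]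
    rw [← hw] at hu'
    generalize u (half p) (n - 1) = U at *
    generalize u (half p) n = V at *
    linear_combination 4 * (7 * w ^ 2 - 7 * w + 2) * hu' +
      (4 * U * (1 - w) * (2 * w ^ 2 - 7 * w + 7) +
        U * (-24 + 40 * w - 24 * w ^ 2 + 8 * w ^ 3)) * hw2
  · intro i hi
    show C _ + C _ - C _ = 0
    rw [← C_add, ← C_sub, ← C_0]
    congr 1
    have h10 : i + 2 ≤ n := by omega
    obtain ⟨m, hm⟩ : ∃ m, n = m + i + 2 := ⟨n - (i + 2), by omega⟩
    have e1 : n - (i + 2) = m := by omega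
    have e2 : n - (i + 1) = m + 1 := by omega
    have e3 : n - i = m + 2 := by omega
    rw [e1, e2, e3]
    have hr := AA_rec hn h10 (-((m : ZMod (p ^ 2)) + half p)) (by
      rw [hph, hm]
      push_cast
      ring)
    have hu1 := gb_u h2 m
    have hu2 : ((m : ZMod (p ^ 2)) + 1 + 1) * u (half p) (m + 2) =
        ((m : ZMod (p ^ 2)) + 1 + half p) * u (half p) (m + 1) := by
      have := gb_u h2 (m + 1)
      push_cast at this
      exact this
    push_cast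
    rw [pow_succ (4 : ZMod (p ^ 2)) (i + 1), pow_succ (4 : ZMod (p ^ 2)) i]
    generalize u (half p) m = U0 at *
    generalize u (half p) (m + 1) = U1 at *
    generalize u (half p) (m + 2) = U2 at *
    generalize AA p i = A0 at *
    generalize AA p (i + 1) = A1 at *
    generalize AA p (i + 2) = A2 at *
    generalize (4 : ZMod (p ^ 2)) ^ i = w at *
    generalize half p = h at *
    generalize (m : ZMod (p ^ 2)) = M at *
    linear_combination (-16 * w * (M + h) * U0) * hr +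
      (16 * w * (7 * (M + 1 + h) ^ 2 - 7 * (M + 1 + h) + 2) * A1) * hu1 +
      (128 * w * (M + 1) * (M + 1 + h) * A0) * hu2 + (128 * w * (M + 1 + h) ^ 2 * A0) * hu1

theorem gb_deg (R : Type*) [CommRing R] (k m : ℕ) : (EK8 R k m).natDegree ≤ k + 2 * m := by
  unfold EK8
  refine natDegree_mul_le.trans (add_le_add ?_ ?_)
  · refine natDegree_pow_le.trans ?_
    have h1 : (-X : R[X]).natDegree ≤ 1 := by
      rw [natDegree_neg]
      exact natDegree_X_le
    calc k * (-X : R[X]).natDegree ≤ k * 1 := Nat.mul_le_mul_left _ h1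
      _ = k := mul_one k
  · refine natDegree_pow_le.trans ?_
    have h1 : (1 - 8 * X : R[X]).natDegree ≤ 1 := by
      compute_degree
    calc 2 * m * (1 - 8 * X : R[X]).natDegree ≤ 2 * m * 1 := Nat.mul_le_mul_left _ h1
      _ = 2 * m := mul_one _

theorem GS_deg (hn : p = 2 * n + 1) : (GS p n).natDegree < p * 1 := by
  have h1 : (GS p n).natDegree ≤ 2 * n := by
    unfold GS
    apply natDegree_sum_le_of_forall_le
    intro k hk
    have hk' := Finset.mem_range.1 hk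
    refine (natDegree_C_mul_le _ _).trans ((gb_deg _ k (n - k)).trans ?_)
    omega
  omega

theorem GS_zero (hn : p = 2 * n + 1) : (GS p n).coeff 0 = u (half p) n := by
  rw [coeff_zero_eq_eval_zero]
  unfold GS
  rw [eval_finsetSum, Finset.sum_eq_single 0]
  · rw [eval_mul, eval_C]
    unfold EK8
    rw [AA_zero hn]
    simp
  · intro k _ hk
    rw [eval_mul]
    unfold EK8
    simp [hk]
  · intro h
    exact absurd (Finset.mem_range.2 (by omega)) h

theorem gb_eval (h2 : p ≠ 2) : (GS p n).eval ((half p) ^ 3) = 4 ^ n * AA p n * (-(half p) ^ 3) ^ n := by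
  have hh := two_half h2
  unfold GS
  rw [eval_finsetSum, Finset.sum_eq_single n]
  · rw [eval_mul, eval_C]
    unfold EK8
    rw [Nat.sub_self, u_zero]
    simp
  · intro k hk hkn
    have hk' := Finset.mem_range.1 hk
    have h8 : (1 : ZMod (p ^ 2)) - 8 * (half p) ^ 3 = 0 := by
      linear_combination (-(4 * (half p) ^ 2 + 2 * half p + 1)) * hh
    have h9 : 2 * (n - k) ≠ 0 := by omega
    rw [eval_mul]
    unfold EK8
    rw [eval_mul, eval_pow (n := 2 * (n - k))]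
    have h10 : (1 - 8 * X : (ZMod (p ^ 2))[X]).eval ((half p) ^ 3) = 0 := by
      simpa using h8
    rw [h10, zero_pow h9, mul_zero, mul_zero]
  · intro h
    exact absurd (Finset.mem_range.2 (by omega)) h

theorem F_phi8 (hn : p = 2 * n + 1) (h3 : p ≠ 3) : FF p n 1 = 2 ^ (n * p) * phi8 p := by
  have h2 : p ≠ 2 := by omega
  have hh := two_half h2
  have hη := eta_sq hn
  have hpη := p_eta hn
  have h1 := ev_block hn (half p) (GS_ode hn h3) (GS_deg hn)
  rw [gb_eval h2, Finset.sum_range_one, mul_zero, GS_zero hn, pow_zero, mul_one, H4 hn,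
    AA_n hn] at h1
  -- the powers
  have e1 : (4 : ZMod (p ^ 2)) ^ n * (-(half p) ^ 3) ^ n = (-1) ^ n * (half p) ^ n := by
    rw [← mul_pow, ← mul_pow]
    congr 1
    linear_combination (-(half p) * (2 * half p + 1)) * hh
  have e2 : ((-1 : ZMod (p ^ 2))) ^ n * (-1) ^ n = 1 := by
    rw [← mul_pow]
    simp
  have e3 : (2 : ZMod (p ^ 2)) ^ n * (half p) ^ n = 1 := by
    rw [← mul_pow, hh, one_pow]
  have e4 : (2 : ZMod (p ^ 2)) ^ (p - 1) = 1 + eta p := by
    unfold eta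
    ring
  have e5 : ∀ m : ℕ, (1 + eta p) ^ m = 1 + m * eta p := by
    intro m
    induction m with
    | zero => simp
    | succ m ih =>
      rw [pow_succ (1 + eta p) m, ih]
      push_cast
      linear_combination (m : ZMod (p ^ 2)) * hη
  have e6 : (2 : ZMod (p ^ 2)) ^ (n * p) = 2 ^ n * (1 + n * eta p) := by
    rw [← e5, ← e4, ← pow_mul, ← pow_add]
    congr 1
    obtain ⟨q, hq⟩ : ∃ q, p = q + 1 := ⟨p - 1, by omega⟩
    rw [hq, Nat.add_sub_cancel]
    ring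
  have e7 : (n : ZMod (p ^ 2)) * eta p = - (half p) * eta p := by
    have h5 := gb_ph hn
    linear_combination (-(eta p)) * h5 + half p * hpη
  rw [e4] at h1
  rw [e6]
  generalize eta p = η at *
  generalize half p = h at *
  generalize FF p n 1 = F at *
  generalize phi8 p = Φ at *
  generalize (-1 : ZMod (p ^ 2)) ^ n = s at *
  generalize (2 : ZMod (p ^ 2)) ^ n = t at *
  generalize (4 : ZMod (p ^ 2)) ^ n = f at *
  generalize (-h ^ 3) ^ n = g at *
  generalize h ^ n = k at *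
  generalize (n : ZMod (p ^ 2)) = N at *
  linear_combination (-F) * e3 + (-t * k * F) * e2 + (-t * s * F) * e1 + (t * s) * h1 +
    (t * Φ * (1 - 3 * η * h) * (1 + η)) * e2 + (-t * Φ * η) * hh + (-3 * h * t * Φ) * hη +
    (-t * Φ) * e7

end MPf96
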