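import Pool.Agent.H.MP_f96d9d_nt.Q2.Link
import Pool.Agent.H.MP_f96d9d_nt.Q2.EvP
import Pool.Agent.H.MP_f96d9d_nt.Q2.EvZ
import Pool.Agent.H.MP_f96d9d_nt.Q2.GB
import Pool.Agent.H.MP_f96d9d_nt.Q2.CM.CMfin
import Pool.Agent.H.MP_f96d9d_nt.Q2.CM.SS2
import Pool.Agent.H.MP_f96d9d_nt.Final

/-!
# Question 2

`T = Tv (half p) (-(half p * third p))`, `F = FF p n 1`, `s = 2^(np)`, `s^2 = 1`.
`B_link`: `final_R p (B1 p) (∑ T_k^3 (-27)^k)` and `final_R p (B2 p) (∑ T_k^3 8^k)`: as in `final_A`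
(`Final.lean`): `T_k(10,49)^3 / (-512)^k` corresponds to `24^(3k) T_k^3 / (-512)^k = T_k^3 (-27)^k`
(`24^3 = 13824 = 27 * 512 = 1728 * 8`).
`B1_F`: `∑ T_k^3 (-27)^k = s^3 phi8 = s phi8 = F` (`B1_val`, `F_phi8`, `s^2 = 1` by `s_leg` and
`legendreSym` squared). `B2_F`: `∑ T_k^3 8^k = ep phi8 = ep s F` (`phi8 = s F`).
So `(-1/p) B1 = (-1/p) F` and `(6/p) B2 = (6/p) (-3/p) (2/p) F = (-1/p) F` (multiplicativity of `legendreSym`,
`ep_leg`, `s_leg`; `(6/p)(-3/p)(2/p) = (2/p)^2 (3/p)^2 (-1/p)`), `(-1/p) = (-1)^n`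
(`legendreSym.at_neg_one`, `ZMod.χ₄`, or `legendreSym.eq_pow`; `(-1)^n` in both rings).
For `p ≡ 1, 3 mod 8`, `p = x^2 + 2 y^2`, `p ≥ 11` (`p > 3`; the primes 5, 7 are `5, 7 mod 8`):
`F1_ord`. For `p ≡ 5, 7 mod 8`: `F1_ss`. Then `final_cong`.
-/

set_option autoImplicit false

namespace MPf96

open Finset

/-- `B_1(p) = ∑_{k<p} T_k(10,49)^3 / (-512)^k` -/
def B1 (p : ℕ) : ℚ := ∑ k ∈ Finset.range p, ((Texp 10 49 k : ℤ) : ℚ) ^ 3 / (-512) ^ k

/-- `B_2(p) = ∑_{k<p} T_k(10,49)^3 / 1728^k` -/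
def B2 (p : ℕ) : ℚ := ∑ k ∈ Finset.range p, ((Texp 10 49 k : ℤ) : ℚ) ^ 3 / 1728 ^ k

/-- the congruences of question 2 at the prime `p` -/
def Holds2 (p : ℕ) [Fact p.Prime] : Prop :=
  Cong p ((legendreSym p (-1) : ℤ) * B1 p) ((legendreSym p 6 : ℤ) * B2 p) ∧
    ((p % 8 = 1 ∨ p % 8 = 3) → ∀ x y : ℤ, (p : ℤ) = x ^ 2 + 2 * y ^ 2 →
      Cong p ((legendreSym p 6 : ℤ) * B2 p) (4 * (x : ℚ) ^ 2 - 2 * p)) ∧
    ((p % 8 = 5 ∨ p % 8 = 7) → Cong p ((legendreSym p 6 : ℤ) * B2 p) 0)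

section

variable {p : ℕ} [hp : Fact p.Prime]

theorem finalq2_half (h2 : p ≠ 2) : final_R p ((1 : ℚ) / 2) (half p) := by
  refine ⟨1, 2, ?_, ?_, ?_⟩
  · intro h
    have h3 : p ∣ 2 := by exact_mod_cast h
    exact h2 ((Nat.prime_dvd_prime_iff_eq hp.out Nat.prime_two).1 h3)
  · norm_num
  · push_cast
    exact two_half h2

theorem finalq2_third (h3 : p ≠ 3) : final_R p ((1 : ℚ) / 3) (third p) := by
  refine ⟨1, 3, ?_, ?_, ?_⟩
  · intro h
    have h4 : p ∣ 3 := by exact_mod_cast h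
    exact h3 ((Nat.prime_dvd_prime_iff_eq hp.out Nat.prime_three).1 h4)
  · norm_num
  · push_cast
    exact three_third h3

theorem finalq2_B1 {n : ℕ} (hn : p = 2 * n + 1) (h3 : p ≠ 3) :
    final_R p (B1 p) (∑ k ∈ range p, (Tv (half p) (-(half p * third p)) k) ^ 3 * (-27) ^ k) := by
  have h2 : p ≠ 2 := by omega
  have hh := two_half (p := p) h2
  have hhR := finalq2_half (p := p) h2
  unfold B1
  refine final_R_sum _ _ p fun k hk => ?_
  have h1 := final_R_mul (final_R_pow (final_R_int (p := p) (Texp 10 49 k)) 3)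
    (final_R_pow (final_R_mul (final_R_int (p := p) (-1)) (final_R_pow hhR 9)) k)
  have e1 : ((Texp 10 49 k : ℤ) : ℚ) ^ 3 / (-512) ^ k =
      ((Texp 10 49 k : ℤ) : ℚ) ^ 3 * (((-1 : ℤ) : ℚ) * ((1 : ℚ) / 2) ^ 9) ^ k := by
    rw [div_eq_mul_inv, ← inv_pow]
    norm_num
  have e2 : (Tv (half p) (-(half p * third p)) k) ^ 3 * (-27) ^ k =
      ((Texp 10 49 k : ℤ) : ZMod (p ^ 2)) ^ 3 * (((-1 : ℤ) : ZMod (p ^ 2)) * (half p) ^ 9) ^ k := by
    rw [T_link10 hn h3 hk, mul_pow, ← pow_mul, mul_comm k 3, pow_mul, mul_comm _ ((Tv _ _ k) ^ 3),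
      mul_assoc, ← mul_pow]
    congr 2
    have h512 : 512 * (half p) ^ 9 = 1 := by
      have : (2 * half p) ^ 9 = 1 := by rw [hh, one_pow]
      rw [mul_pow] at this
      norm_num at this
      exact this
    push_cast
    linear_combination (27 : ZMod (p ^ 2)) * h512
  rw [e1, e2]
  exact h1

theorem finalq2_B2 {n : ℕ} (hn : p = 2 * n + 1) (h3 : p ≠ 3) :
    final_R p (B2 p) (∑ k ∈ range p, (Tv (half p) (-(half p * third p)) k) ^ 3 * 8 ^ k) := by
  have h2 : p ≠ 2 := by omega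
  have hh := two_half (p := p) h2
  have hw := three_third (p := p) h3
  have hhR := finalq2_half (p := p) h2
  have hwR := finalq2_third (p := p) h3
  unfold B2
  refine final_R_sum _ _ p fun k hk => ?_
  have h1 := final_R_mul (final_R_pow (final_R_int (p := p) (Texp 10 49 k)) 3)
    (final_R_pow (final_R_mul (final_R_pow hhR 6) (final_R_pow hwR 3)) k)
  have e1 : ((Texp 10 49 k : ℤ) : ℚ) ^ 3 / 1728 ^ k =
      ((Texp 10 49 k : ℤ) : ℚ) ^ 3 * (((1 : ℚ) / 2) ^ 6 * ((1 : ℚ) / 3) ^ 3) ^ k := by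
    rw [div_eq_mul_inv, ← inv_pow]
    norm_num
  have e2 : (Tv (half p) (-(half p * third p)) k) ^ 3 * 8 ^ k =
      ((Texp 10 49 k : ℤ) : ZMod (p ^ 2)) ^ 3 * ((half p) ^ 6 * (third p) ^ 3) ^ k := by
    rw [T_link10 hn h3 hk, mul_pow, ← pow_mul, mul_comm k 3, pow_mul, mul_comm _ ((Tv _ _ k) ^ 3),
      mul_assoc, ← mul_pow]
    congr 2
    have h64 : 64 * (half p) ^ 6 = 1 := by
      have : (2 * half p) ^ 6 = 1 := by rw [hh, one_pow]
      rw [mul_pow] at this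
      norm_num at this
      exact this
    have h27 : 27 * (third p) ^ 3 = 1 := by
      have : (3 * third p) ^ 3 = 1 := by rw [hw, one_pow]
      rw [mul_pow] at this
      norm_num at this
      exact this
    linear_combination -(8 : ZMod (p ^ 2)) * h27 - 8 * (27 * (third p) ^ 3) * h64
  rw [e1, e2]
  exact h1

theorem finalq2_neg_one {n : ℕ} (hn : p = 2 * n + 1) : legendreSym p (-1) = (-1) ^ n := by
  have h2 : p ≠ 2 := by omega
  rw [legendreSym.at_neg_one h2, ZMod.χ₄_eq_neg_one_pow (by omega)]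
  congr 1
  omega

theorem finalq2_signs (h2 : p ≠ 2) (h3 : p ≠ 3) :
    legendreSym p 6 * (legendreSym p (-3) * legendreSym p 2) = legendreSym p (-1) := by
  have h6 : ((6 : ℤ) : ZMod p) ≠ 0 := by
    intro h
    have h' : ((6 : ℕ) : ZMod p) = 0 := by exact_mod_cast h
    rw [ZMod.natCast_eq_zero_iff] at h'
    have h5 : p ∣ 2 * 3 := h'
    rcases (Nat.Prime.dvd_mul hp.out).1 h5 with h7 | h7
    · exact h2 ((Nat.prime_dvd_prime_iff_eq hp.out Nat.prime_two).1 h7)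
    · exact h3 ((Nat.prime_dvd_prime_iff_eq hp.out Nat.prime_three).1 h7)
  have h8 := legendreSym.sq_one p h6
  rw [← legendreSym.mul, ← legendreSym.mul]
  have e : (6 : ℤ) * (-3 * 2) = -1 * (6 * 6) := by norm_num
  rw [e, legendreSym.mul p (-1) (6 * 6), legendreSym.mul p 6 6, ← pow_two, h8, mul_one]

end

theorem holds2 (p : ℕ) [hp : Fact p.Prime] (h3 : 3 < p) (h7 : p ≠ 7) : Holds2 p := by
  obtain ⟨n, hn⟩ : ∃ n, p = 2 * n + 1 := by
    rcases hp.out.eq_two_or_odd' with h | h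
    · omega
    · exact h
  have hp2 : p ≠ 2 := by omega
  have hp3 : p ≠ 3 := by omega
  have hB1 := finalq2_B1 (p := p) hn hp3
  have hB2 := finalq2_B2 (p := p) hn hp3
  rw [B1_val hn hp3 h7] at hB1
  rw [B2_val hn hp3 h7] at hB2
  have hF := F_phi8 (p := p) hn hp3
  have hsl := s_leg (p := p) hn
  have hel := ep_leg (p := p) hn hp3
  obtain ⟨s, hs⟩ : ∃ s : ZMod (p ^ 2), s = 2 ^ (n * p) := ⟨_, rfl⟩
  rw [← hs] at hF hsl
  have h2u : ((2 : ℤ) : ZMod p) ≠ 0 := by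
    intro h
    have h' : ((2 : ℕ) : ZMod p) = 0 := by exact_mod_cast h
    rw [ZMod.natCast_eq_zero_iff] at h'
    exact hp2 ((Nat.prime_dvd_prime_iff_eq hp.out Nat.prime_two).1 h')
  have hs2 : s ^ 2 = 1 := by
    rw [← hsl]
    have h8 := legendreSym.sq_one p h2u
    exact_mod_cast congrArg (fun z : ℤ => (z : ZMod (p ^ 2))) h8
  have hs3 : (2 : ZMod (p ^ 2)) ^ (3 * n * p) = s ^ 3 := by
    rw [hs, ← pow_mul]
    congr 1
    ring
  have e1 : (2 : ZMod (p ^ 2)) ^ (3 * n * p) * phi8 p = FF p n 1 := by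
    rw [hs3, hF]
    linear_combination (s * phi8 p) * hs2
  rw [e1] at hB1
  have hL1 := final_R_int (p := p) (legendreSym p (-1))
  have hL6 := final_R_int (p := p) (legendreSym p 6)
  have hsig : ((legendreSym p 6 : ℤ) : ZMod (p ^ 2)) * (ep p * s) =
      ((legendreSym p (-1) : ℤ) : ZMod (p ^ 2)) := by
    rw [← hsl, ← hel, ← finalq2_signs hp2 hp3]
    push_cast
    ring
  have hneg : ((legendreSym p (-1) : ℤ) : ZMod (p ^ 2)) = (-1) ^ n := by
    rw [finalq2_neg_one hn]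
    push_cast
    ring
  have e2 : ((legendreSym p 6 : ℤ) : ZMod (p ^ 2)) * (ep p * phi8 p) = (-1) ^ n * FF p n 1 := by
    rw [← hneg, ← hsig, hF]
    linear_combination -(((legendreSym p 6 : ℤ) : ZMod (p ^ 2)) * ep p * phi8 p) * hs2
  have hR2 := final_R_mul hL6 hB2
  rw [e2] at hR2
  have hR1 := final_R_mul hL1 hB1
  rw [hneg] at hR1
  refine ⟨final_cong hR1 hR2, fun h8 x y hxy => ?_, fun h8 => ?_⟩
  · have h11 : 11 ≤ p := by
      have h9 : p ≠ 9 := by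
        intro h
        have := hp.out
        rw [h] at this
        norm_num at this
      omega
    have h1 := F1_ord (p := p) hn h11 x y hxy
    rw [h1] at hR2
    refine final_cong hR2 ?_
    have h4 := final_R_int (p := p) (4 * x ^ 2 - 2 * p)
    push_cast at h4
    exact h4
  · rw [F1_ss (p := p) hn h8, mul_zero] at hR2
    have h0 := final_R_int (p := p) 0
    rw [Int.cast_zero, Int.cast_zero] at h0
    exact final_cong hR2 h0

end MPf96
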