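import Pool.Agent.H.MP_f96d9d_nt.Q2.DBase
import Pool.Agent.H.MP_f96d9d_nt.Rev

/-!
# Sums of cubes of generalized binomial coefficients modulo `p^2`

`cb ν j = ν (ν-1) ... (ν-j+1) / j!` in `ZMod (p^2)` (used for `j < p`; `j!` is a unit).
`cb_succ`: `(j+1) cb ν (j+1) = (ν - j) cb ν j`. `cb_absorb`: `(j+1) cb ν (j+1) = ν cb (ν-1) j` (both sides are
`ν (ν-1) ... (ν-j) / j!`; `Finset.prod_range_succ`, `Finset.prod_range_succ'`). `cb_pascal`: subtract
`(j+1) cb (ν-1) (j+1) = (ν-1-j) cb (ν-1) j` and cancel the unit `j+1`.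
`AA p i = ∑_{j<p} cb (i - p h)^3`, `h = half p`.
`cb_small`: for `i < j ≤ p - 1`... the product `∏_{m<j} (i - p h - m)` has the factor `m = i`, `-p h`; so
`cb (i - p h) j` is a multiple of `p` for `i < j < p`.
`AA_zero`: `j = 0` gives 1, the others are cubes of multiples of `p`, hence 0.
`AA_one`: `1 + (1 - p h)^3 = 2 - 3 p h` (`p^2 = 0`), the terms `j ≥ 2` vanish.
`AA_n`: `n - p h = -h` (`2n = p - 1`): `cb (-h) j = (-1)^j u_j` (`cb_succ` and `u_succ`), so
`AA p n = ∑_{j<p} (-1)^j u_j^3` (`(-1)^(3j) = (-1)^j`), and `u_j` is a multiple of `p` for `n < j < p`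
(`u_big`), cube 0; compare with `FF p n 1`.
-/

set_option autoImplicit false

namespace MPf96

open Finset

/-- generalized binomial coefficient -/
def cb (p : ℕ) (ν : ZMod (p ^ 2)) (j : ℕ) : ZMod (p ^ 2) :=
  (∏ i ∈ range j, (ν - i)) * ((j.factorial : ℕ) : ZMod (p ^ 2))⁻¹

/-- `∑_{j<p} C(i - p/2, j)^3` -/
def AA (p i : ℕ) : ZMod (p ^ 2) := ∑ j ∈ range p, (cb p ((i : ZMod (p ^ 2)) - p * half p) j) ^ 3

variable {p n : ℕ} [hp : Fact p.Prime]

theorem fraa_unit {j : ℕ} (hj : j < p) : IsUnit ((j.factorial : ℕ) : ZMod (p ^ 2)) :=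
  unit_nat fun h => absurd ((Nat.Prime.dvd_factorial hp.out).1 h) (by omega)

theorem fraa_mul (ν : ZMod (p ^ 2)) {j : ℕ} (hj : j < p) :
    ((j.factorial : ℕ) : ZMod (p ^ 2)) * cb p ν j = ∏ i ∈ range j, (ν - i) := by
  have h := ZMod.mul_inv_of_unit _ (fraa_unit hj)
  unfold cb
  linear_combination (∏ i ∈ range j, (ν - i)) * h

omit hp in
theorem fraa_fact (j : ℕ) : (((j + 1).factorial : ℕ) : ZMod (p ^ 2)) =
    ((j : ZMod (p ^ 2)) + 1) * ((j.factorial : ℕ) : ZMod (p ^ 2)) := by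
  rw [Nat.factorial_succ]
  push_cast
  ring

omit hp in
theorem fraa_prod (ν : ZMod (p ^ 2)) (j : ℕ) :
    ν * ∏ i ∈ range j, (ν - 1 - (i : ZMod (p ^ 2))) =
      ∏ i ∈ range (j + 1), (ν - (i : ZMod (p ^ 2))) := by
  rw [Finset.prod_range_succ', Nat.cast_zero, sub_zero, mul_comm]
  congr 1
  apply Finset.prod_congr rfl
  intro i _
  push_cast
  ring

theorem fraa_p3 (z : ZMod (p ^ 2)) : ((p : ZMod (p ^ 2)) * z) ^ 3 = 0 := by
  have h := p_sq (p := p)
  linear_combination ((p : ZMod (p ^ 2)) * z ^ 3) * h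

theorem cb_zero (ν : ZMod (p ^ 2)) : cb p ν 0 = 1 := by
  have h := fraa_mul (p := p) ν (j := 0) hp.out.pos
  rwa [Finset.prod_range_zero, Nat.factorial_zero, Nat.cast_one, one_mul] at h

theorem cb_succ (ν : ZMod (p ^ 2)) {j : ℕ} (hj : j + 1 < p) :
    ((j : ZMod (p ^ 2)) + 1) * cb p ν (j + 1) = (ν - j) * cb p ν j := by
  apply cancel_unit (fraa_unit (p := p) (j := j) (by omega))
  have h1 := fraa_mul (p := p) ν hj
  have h2 := fraa_mul (p := p) ν (j := j) (by omega)
  rw [fraa_fact, Finset.prod_range_succ] at h1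
  linear_combination h1 - (ν - j) * h2

theorem cb_absorb (ν : ZMod (p ^ 2)) {j : ℕ} (hj : j + 1 < p) :
    ((j : ZMod (p ^ 2)) + 1) * cb p ν (j + 1) = ν * cb p (ν - 1) j := by
  apply cancel_unit (fraa_unit (p := p) (j := j) (by omega))
  have h1 := fraa_mul (p := p) ν hj
  have h2 := fraa_mul (p := p) (ν - 1) (j := j) (by omega)
  rw [fraa_fact, ← fraa_prod] at h1
  linear_combination h1 - ν * h2

theorem cb_pascal (ν : ZMod (p ^ 2)) {j : ℕ} (hj : j + 1 < p) :
    cb p ν (j + 1) = cb p (ν - 1) (j + 1) + cb p (ν - 1) j := by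
  have h0 := unit_nat (p := p) (not_dvd_of_lt (m := j + 1) (by omega) hj)
  push_cast at h0
  apply cancel_unit h0
  have h1 := cb_absorb (p := p) ν hj
  have h2 := cb_succ (p := p) (ν - 1) hj
  linear_combination h1 - h2

theorem cb_down (ν : ZMod (p ^ 2)) {j : ℕ} (hj : j < p) :
    ν * cb p (ν - 1) j = (ν - j) * cb p ν j := by
  apply cancel_unit (fraa_unit (p := p) hj)
  have h1 := fraa_mul (p := p) ν hj
  have h2 := fraa_mul (p := p) (ν - 1) hj
  have h3 := fraa_prod (p := p) ν j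
  rw [Finset.prod_range_succ] at h3
  linear_combination ν * h2 - (ν - j) * h1 + h3

theorem cb_small {i j : ℕ} (h1 : i < j) (h2 : j < p) :
    ∃ z, cb p ((i : ZMod (p ^ 2)) - p * half p) j = (p : ZMod (p ^ 2)) * z := by
  have h : ((i : ZMod (p ^ 2)) - p * half p - i) ∣
      ∏ m ∈ range j, ((i : ZMod (p ^ 2)) - p * half p - m) :=
    Finset.dvd_prod_of_mem (fun m : ℕ => (i : ZMod (p ^ 2)) - p * half p - m)
      (Finset.mem_range.2 h1)
  obtain ⟨c, hc⟩ := h
  refine ⟨-half p * c * ((j.factorial : ℕ) : ZMod (p ^ 2))⁻¹, ?_⟩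
  unfold cb
  rw [hc]
  ring

theorem AA_zero (hn : p = 2 * n + 1) : AA p 0 = 1 := by
  unfold AA
  rw [Finset.sum_eq_single 0]
  · rw [cb_zero, one_pow]
  · intro j hj hj0
    obtain ⟨z, hz⟩ := cb_small (p := p) (i := 0) (j := j) (by omega) (Finset.mem_range.1 hj)
    rw [hz, fraa_p3]
  · intro h
    exact absurd (Finset.mem_range.2 hp.out.pos) h

theorem AA_one (hn : p = 2 * n + 1) : AA p 1 = 2 - 3 * p * half p := by
  have hp1 := hp.out.one_lt
  have hp2 : 2 < p := by omega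
  have h2 : ∑ j ∈ range 2, (cb p (((1 : ℕ) : ZMod (p ^ 2)) - p * half p) j) ^ 3 = AA p 1 := by
    unfold AA
    apply Finset.sum_subset (Finset.range_mono hp2.le)
    intro j hj hj2
    rw [Finset.mem_range] at hj
    rw [Finset.mem_range, not_lt] at hj2
    obtain ⟨z, hz⟩ := cb_small (p := p) (i := 1) (j := j) (by omega) hj
    rw [hz, fraa_p3]
  rw [← h2, Finset.sum_range_succ, Finset.sum_range_one, cb_zero]
  have h3 := cb_succ (p := p) (((1 : ℕ) : ZMod (p ^ 2)) - p * half p) (j := 0) (by omega)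
  rw [cb_zero] at h3
  have h4 := p_sq (p := p)
  have h5 : cb p (((1 : ℕ) : ZMod (p ^ 2)) - p * half p) 1 = 1 - p * half p := by
    push_cast at h3 ⊢
    simpa using h3
  rw [h5]
  linear_combination (3 * half p ^ 2 - p * half p ^ 3) * h4

theorem AA_n (hn : p = 2 * n + 1) : AA p n = FF p n 1 := by
  have hp1 := hp.out.one_lt
  have hh := two_half (p := p) (by omega)
  have hpn : (p : ZMod (p ^ 2)) = 2 * n + 1 := by
    have h : ((p : ℕ) : ZMod (p ^ 2)) = ((2 * n + 1 : ℕ) : ZMod (p ^ 2)) := by rw [← hn]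
    rw [h]
    push_cast
    ring
  have e : (n : ZMod (p ^ 2)) - p * half p = -half p := by
    linear_combination (-half p) * hpn - (n : ZMod (p ^ 2)) * hh
  have h1 : ∀ j, j < p → cb p (-half p) j = (-1) ^ j * u (half p) j := by
    intro j
    induction j with
    | zero =>
      intro _
      rw [cb_zero, u_zero, pow_zero, one_mul]
    | succ j ih =>
      intro hj
      have h0 := unit_nat (p := p) (not_dvd_of_lt (m := j + 1) (by omega) hj)
      push_cast at h0
      apply cancel_unit h0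
      have h2 := cb_succ (p := p) (-half p) hj
      rw [ih (by omega)] at h2
      have h3 := u_succ hh j
      rw [h2, pow_succ (-1 : ZMod (p ^ 2)) j]
      linear_combination (half p * (-1) ^ j) * h3 -
        ((-1) ^ j * ((j : ZMod (p ^ 2)) + 1) * u (half p) (j + 1) -
          (-1) ^ j * (j : ZMod (p ^ 2)) * u (half p) j) * hh
  unfold AA FF
  symm
  rw [e]
  have h2 : ∀ j ∈ range (n + 1), u (half p) j ^ 3 * (-1) ^ j = cb p (-half p) j ^ 3 := by
    intro j hj
    rw [h1 j (by rw [Finset.mem_range] at hj; omega), mul_pow, ← pow_mul, mul_comm j 3, pow_mul]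
    norm_num
    ring
  rw [Finset.sum_congr rfl h2]
  apply Finset.sum_subset (Finset.range_mono (by omega))
  intro j hj hj2
  rw [Finset.mem_range] at hj
  rw [Finset.mem_range, not_lt] at hj2
  obtain ⟨z, hz⟩ := u_big (p := p) (n := n) hn (j := j) (by omega) hj
  rw [h1 j hj, hz, mul_left_comm, fraa_p3]

end MPf96
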