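import Pool.Agent.H.MP_f96d9d_nt.Q2.DBase

/-!
# Powers of `fq = 4X - 1` modulo `p^2`

`R = ZMod (p^2)`, `p = 2n+1`, `a = -(1 - 4X^p)`.
`frob_f`: `(4X - 1)^p = ∑ C(p,i) (4X)^i (-1)^(p-i)`; for `0 < i < p` `C(p,i)` is a multiple of `p`; `i = 0`:
`(-1)^p = -1`; `i = p`: `4^p X^p` and `4^p = 4 + p z` (Fermat: `ZMod.pow_card` / `Int.ModEq.pow_card_sub_one`...,
`eq_p_mul_of_cast_zero` in `Base.lean`; or `exists_add_pow_prime_eq` for both steps).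
`frob_div1`: `fq^(3np) = (fq^p)^(3n) = (a + p G)^(3n) = a^(3n) + 3n p G a^(3n-1)` (`(p)^2 = 0`; induction on the
exponent), divisible by `a^(3n-1)` (`n ≥ 1`), i.e. by `(1 - 4X^p)^(3n-1)`.
`frob_div2`: `3np - n = (3n-1) p + (p - n)`; `p fq^((3n-1)p) = p (a + pG)^(3n-1) = p a^(3n-1)`.
`frob_p2`: `fq^(p^2) = (a + pG)^p = a^p + p (pG) a^(p-1) = a^p = -(1 - 4X^p)^p` (`p` odd), to the
power `t` (even).
`frob_coeff`: `(1 - 4X^p)^m` has coefficients 1 at 0, 0 at `0 < j < p` and `-4m` at `p`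
(for example `(1 - 4X^p)^m = (expand p ((1 - 4X)^m))`, or induction on `m` for the statement
`∃ W, (1 - 4X^p)^m = 1 - 4 m X^p + X^(2p) W`).
-/

set_option autoImplicit false

namespace MPf96

open Polynomial Finset

variable {p n : ℕ} [hp : Fact p.Prime]

theorem frob_four : ∃ z : ZMod (p ^ 2), (4 : ZMod (p ^ 2)) ^ p = 4 + (p : ZMod (p ^ 2)) * z := by
  obtain ⟨z, hz⟩ := eq_p_mul_of_cast_zero (p := p) (x := (4 : ZMod (p ^ 2)) ^ p - 4) (by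
    rw [map_sub, map_pow, ZMod.pow_card, sub_self])
  exact ⟨z, by linear_combination hz⟩

theorem frob_Cp2 : C (p : ZMod (p ^ 2)) * C (p : ZMod (p ^ 2)) = 0 := by
  rw [← C_mul, ← pow_two, p_sq, C_0]

theorem frob_pos (hn : p = 2 * n + 1) : 1 ≤ n := by
  have := hp.out.two_le
  omega

theorem frob_f (hn : p = 2 * n + 1) : ∃ G : (ZMod (p ^ 2))[X],
    (fq : (ZMod (p ^ 2))[X]) ^ p = -(1 - 4 * X ^ p) + C (p : ZMod (p ^ 2)) * G := by
  obtain ⟨z, hz⟩ := frob_four (p := p)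
  obtain ⟨r, hr⟩ := exists_add_pow_prime_eq hp.out (4 * X : (ZMod (p ^ 2))[X]) (-1)
  refine ⟨C z * X ^ p - 4 * X * r, ?_⟩
  have h1 : (-1 : (ZMod (p ^ 2))[X]) ^ p = -1 := Odd.neg_one_pow ⟨n, hn⟩
  have h4 : (4 : (ZMod (p ^ 2))[X]) ^ p = 4 + C (p : ZMod (p ^ 2)) * C z := by
    have e : (4 : (ZMod (p ^ 2))[X]) = C 4 := (map_ofNat (C : ZMod (p ^ 2) →+* _) 4).symm
    rw [e, ← C_pow, hz, C_add, C_mul]
  have hc : ((p : ℕ) : (ZMod (p ^ 2))[X]) = C (p : ZMod (p ^ 2)) := by simp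
  unfold fq
  rw [sub_eq_add_neg, hr, h1, mul_pow, h4, hc]
  ring

/-- expansion with a summand of square zero -/
theorem frob_exp {R : Type*} [CommRing R] (x P : R) (hP : P * P = 0) (m : ℕ) :
    (x + P) ^ (m + 1) = x ^ (m + 1) + P * (((m + 1 : ℕ) : R) * x ^ m) := by
  induction m with
  | zero => simp
  | succ m ih =>
    rw [pow_succ (x + P) (m + 1), ih]
    push_cast
    linear_combination (((m : R) + 1) * x ^ m) * hP

theorem frob_div1 (hn : p = 2 * n + 1) (A : (ZMod (p ^ 2))[X]) :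
    (1 - 4 * X ^ p) ^ (3 * n - 1) ∣ fq ^ (3 * n * p) * A := by
  obtain ⟨G, hG⟩ := frob_f hn
  have hn1 := frob_pos hn
  obtain ⟨m, hm⟩ : ∃ m, 3 * n = m + 1 := ⟨3 * n - 1, by omega⟩
  have hP : (C (p : ZMod (p ^ 2)) * G) * (C (p : ZMod (p ^ 2)) * G) = 0 := by
    linear_combination (G * G) * frob_Cp2 (p := p)
  rw [mul_comm (3 * n) p, pow_mul, hG, hm, Nat.add_sub_cancel, frob_exp _ _ hP]
  apply dvd_mul_of_dvd_left
  apply dvd_add
  · exact ((pow_dvd_pow_of_dvd (dvd_neg.2 dvd_rfl) m).trans (pow_dvd_pow _ (Nat.le_succ m)))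
  · exact dvd_mul_of_dvd_right (dvd_mul_of_dvd_right (pow_dvd_pow_of_dvd (dvd_neg.2 dvd_rfl) m) _) _

theorem frob_div2 (hn : p = 2 * n + 1) (B : (ZMod (p ^ 2))[X]) :
    (1 - 4 * X ^ p) ^ (3 * n - 1) ∣ C (p : ZMod (p ^ 2)) * (fq ^ (3 * n * p - n) * B) := by
  obtain ⟨G, hG⟩ := frob_f hn
  have hn1 := frob_pos hn
  obtain ⟨m, hm⟩ : ∃ m, 3 * n = m + 1 := ⟨3 * n - 1, by omega⟩
  have he : 3 * n * p - n = p * m + (p - n) := by
    rw [hm, Nat.add_mul, one_mul, mul_comm m p]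
    omega
  obtain ⟨q, hq⟩ := sub_dvd_pow_sub_pow (-(1 - 4 * X ^ p) + C (p : ZMod (p ^ 2)) * G)
    (-(1 - 4 * X ^ p)) m
  rw [he, pow_add, pow_mul, hG, hm, Nat.add_sub_cancel]
  have h5 : C (p : ZMod (p ^ 2)) * ((-(1 - 4 * X ^ p) + C (p : ZMod (p ^ 2)) * G) ^ m *
      fq ^ (p - n) * B) = (-(1 - 4 * X ^ p)) ^ m * (C (p : ZMod (p ^ 2)) * fq ^ (p - n) * B) := by
    linear_combination (C (p : ZMod (p ^ 2)) * fq ^ (p - n) * B) * hq +
      (G * q * fq ^ (p - n) * B) * frob_Cp2 (p := p)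
  rw [h5]
  exact dvd_mul_of_dvd_left (pow_dvd_pow_of_dvd (dvd_neg.2 dvd_rfl) m) _

theorem frob_p2 (hn : p = 2 * n + 1) {t : ℕ} (ht : Even t) :
    (fq : (ZMod (p ^ 2))[X]) ^ (p ^ 2 * t) = (1 - 4 * X ^ p) ^ (p * t) := by
  obtain ⟨G, hG⟩ := frob_f hn
  have hP : (C (p : ZMod (p ^ 2)) * G) * (C (p : ZMod (p ^ 2)) * G) = 0 := by
    linear_combination (G * G) * frob_Cp2 (p := p)
  have h1 : (-(1 - 4 * X ^ p) + C (p : ZMod (p ^ 2)) * G) ^ p = (-(1 - 4 * X ^ p)) ^ p := by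
    have h2 := frob_exp (-(1 - 4 * X ^ p)) (C (p : ZMod (p ^ 2)) * G) hP (p - 1)
    have hp1 : p - 1 + 1 = p := Nat.succ_pred_prime hp.out
    rw [hp1] at h2
    rw [h2]
    have hc : ((p : ℕ) : (ZMod (p ^ 2))[X]) = C (p : ZMod (p ^ 2)) := by simp
    rw [hc]
    linear_combination (G * (-(1 - 4 * X ^ p)) ^ (p - 1)) * frob_Cp2 (p := p)
  have he : p ^ 2 * t = p * (p * t) := by ring
  rw [he, pow_mul, hG, pow_mul, h1, ← pow_mul]
  exact Even.neg_pow (ht.mul_left p) _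

theorem frob_coeff (R : Type*) [CommRing R] {p : ℕ} (hp : 0 < p) (m : ℕ) :
    ∃ W : R[X], (1 - 4 * X ^ p) ^ m = 1 - 4 * (m : R[X]) * X ^ p + X ^ (2 * p) * W := by
  induction m with
  | zero => exact ⟨0, by simp⟩
  | succ m ih =>
    obtain ⟨W, hW⟩ := ih
    refine ⟨16 * (m : R[X]) + W * (1 - 4 * X ^ p), ?_⟩
    rw [pow_succ, hW]
    push_cast
    ring

end MPf96
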