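import Pool.Agent.H.MP_f96d9d_nt.Q2.ValB
import Pool.Agent.H.MP_f96d9d_nt.Q2.CubeL
import Pool.Agent.H.MP_f96d9d_nt.Q2.Block

/-!
# The coefficients of `V` at multiples of `p`

`VV_div`: by `cube_L` each `fq^(M-3k) TX_k^3` is `fq^(3np) A + C p (fq^(3np-n) B)`, divisible by
`P = (1 - 4X^p)^(3n-1)` (`frob_div1`, `frob_div2`), so `VV = P * Va`. `P` has degree `(3n-1)p` and leading
coefficient `(-4)^(3n-1)`, a unit (`(1-4X^p)` has leading coefficient `-4`, a unit of `ZMod (p^2)`;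
`Polynomial.natDegree_mul'`/`leadingCoeff_pow'` need a nonzero product, true for a unit); so if `Va ≠ 0`
then `natDegree Va = natDegree VV - (3n-1)p ≤ 3np+4n+1 - 3np + p = 3p - 1` (`VV_deg`).
`KV_poly`: let `K = Polynomial.contract p (VV p n)` (`coeff_contract`: its coefficient of `X^r` is
`VV_(rp)`), `P = expand p ((1-4X)^(3n-1))`, and `contract p (expand p g * f) = g * contract p f`
(look for `Polynomial.contract_mul_expand`; or prove it by coefficients: the coefficient of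
`X^(rp)` in `expand p g * f` is `∑_i g_i f_((r-i)p)`). So `K = (1-4X)^(3n-1) (v0 + v1 X + v2 X^2)`
with `v_i = Va_(ip)` (`Va` has degree `< 3p`).
Constant coefficient: `v0 = VV_0 = 1`. Coefficient of `X`: `v1 - 4(3n-1) v0 = VV_p = 5 - 6p`, so
`v1 = 5 - 6p + 12 n - 4 = -5` (`2n = p - 1`). Coefficient of `X^(3n+1)`: `(-4)^(3n-1) v2 = VV_(p(3n+1))`.
By `block` (`ς = 0`, `r = 3n+1`, `j = p-1`, `p(3n+1) + (p-1) = 3np + 4n + 1`):
`VV_top = VV_(p(3n+1)) * yy (3n+1) (p-1)`, `yy ρ (p-1) = (1+ρ)(1+6η) - ρ Ds(p-1)`, and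
`Ds p (p-1) = (half p)^(6(p-1)) 64^(p-1) D_0 = 1`, so `yy = 1 + 6η(3n+2) = 1 + 3η`
(`6 n η = 3(p-1) η = -3η`, so `18 n η + 12 η = -9η + 12η = 3η`). `1 + 3η` is a unit, so
`VV_(p(3n+1)) = -(-4)^(3n)` and `v2 = 4`. `1 - 5X + 4X^2 = (1-X)(1-4X)`.
`KV`: evaluate `KV_poly`; the coefficients `VV_(pr)` with `r ≥ 3n+2` vanish by degree.
-/

set_option autoImplicit false

namespace MPf96

open Polynomial Finset

variable {p n : ℕ} [hp : Fact p.Prime]

theorem kv_two (hn : p = 2 * n + 1) : p ≠ 2 := by omega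

theorem kv_pos (hn : p = 2 * n + 1) : 0 < n := by
  have := hp.out.two_le
  omega

theorem kv_unit4 (hn : p = 2 * n + 1) : IsUnit (-4 : ZMod (p ^ 2)) := by
  have h := two_half (p := p) (kv_two hn)
  refine isUnit_iff_exists_inv.2 ⟨-(half p) ^ 2, ?_⟩
  linear_combination (2 * half p + 1) * h

theorem kv_deg1 (R : Type*) [CommRing R] : (1 - 4 * X : R[X]).natDegree ≤ 1 := by
  have h4 : (4 : R[X]) = C 4 := (map_ofNat C 4).symm
  rw [h4]
  refine (natDegree_sub_le _ _).trans (max_le ?_ ?_)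
  · rw [natDegree_one]
    exact zero_le_one
  · exact (natDegree_C_mul_le _ _).trans natDegree_X_le

theorem kv_coeff1 (R : Type*) [CommRing R] (g : R[X]) :
    (g * (1 - 4 * X)).coeff 1 = g.coeff 1 - 4 * g.coeff 0 := by
  have h4 : (4 : R[X]) = C 4 := (map_ofNat C 4).symm
  have e : g * (1 - 4 * X) = g - C 4 * (g * X) := by
    rw [h4]
    ring
  rw [e, coeff_sub, coeff_C_mul, coeff_mul_X]

theorem kv_lin (R : Type*) [CommRing R] (m : ℕ) :
    ((1 - 4 * X : R[X]) ^ m).natDegree ≤ m ∧ ((1 - 4 * X : R[X]) ^ m).coeff m = (-4) ^ m ∧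
      ((1 - 4 * X : R[X]) ^ m).coeff 0 = 1 ∧ ((1 - 4 * X : R[X]) ^ m).coeff 1 = -(4 * m) := by
  have h4 : (4 : R[X]) = C 4 := (map_ofNat C 4).symm
  have hd := kv_deg1 R
  have h0 : ∀ m : ℕ, ((1 - 4 * X : R[X]) ^ m).coeff 0 = 1 := by
    intro m
    rw [coeff_zero_eq_eval_zero]
    simp
  refine ⟨?_, ?_, h0 m, ?_⟩
  · have := natDegree_pow_le_of_le m hd
    rwa [mul_one] at this
  · have := coeff_pow_of_natDegree_le (n := 1) (m := m) hd
    rw [mul_one] at this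
    rw [this]
    congr 1
    rw [h4, coeff_sub, coeff_C_mul, coeff_X_one, coeff_one]
    norm_num
  · induction m with
    | zero => simp [coeff_one]
    | succ m ih =>
      rw [pow_succ, kv_coeff1, ih, h0]
      push_cast
      ring

theorem kv_expand (m : ℕ) : ((1 - 4 * X ^ p : (ZMod (p ^ 2))[X]) ^ m) =
    expand (ZMod (p ^ 2)) p ((1 - 4 * X) ^ m) := by
  rw [map_pow, map_sub, map_mul, map_one, map_ofNat, expand_X]

theorem kv_lead (hn : p = 2 * n + 1) (m : ℕ) :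
    ((1 - 4 * X ^ p : (ZMod (p ^ 2))[X]) ^ m).natDegree = m * p ∧
      IsUnit ((1 - 4 * X ^ p : (ZMod (p ^ 2))[X]) ^ m).leadingCoeff := by
  have hf : Fact (1 < p ^ 2) := ⟨Nat.one_lt_pow two_ne_zero hp.out.one_lt⟩
  obtain ⟨h1, h2, -, -⟩ := kv_lin (ZMod (p ^ 2)) m
  have h3 : IsUnit ((-4 : ZMod (p ^ 2)) ^ m) := (kv_unit4 hn).pow m
  have h4 : ((1 - 4 * X : (ZMod (p ^ 2))[X]) ^ m).natDegree = m :=
    natDegree_eq_of_le_of_coeff_ne_zero h1 (by rw [h2]; exact h3.ne_zero)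
  rw [kv_expand, natDegree_expand, h4, leadingCoeff_expand hp.out.pos, leadingCoeff, h4, h2]
  exact ⟨rfl, h3⟩

theorem kv_dvd (hn : p = 2 * n + 1) : (1 - 4 * X ^ p) ^ (3 * n - 1) ∣ VV p n := by
  unfold VV VK
  refine Dvd.dvd.mul_left (Finset.dvd_sum fun k hk => ?_) _
  obtain ⟨A, B, h⟩ := cube_L hn (third p) (Finset.mem_range.1 hk)
  have e : C (27 ^ k) * (X ^ k * fq ^ (3 * n * (p + 1) - 3 * k)) * TX (half p) (third p) k ^ 3 =
      (C (27 ^ k) * X ^ k) * (fq ^ (3 * n * p) * A +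
        C (p : ZMod (p ^ 2)) * (fq ^ (3 * n * p - n) * B)) := by
    rw [← h]
    ring
  rw [e]
  exact Dvd.dvd.mul_left (dvd_add (frob_div1 hn A) (frob_div2 hn B)) _

theorem VV_div (hn : p = 2 * n + 1) (h3 : p ≠ 3) : ∃ Va : (ZMod (p ^ 2))[X],
    VV p n = (1 - 4 * X ^ p) ^ (3 * n - 1) * Va ∧ Va.natDegree < 3 * p := by
  obtain ⟨Va, hVa⟩ := kv_dvd (n := n) hn
  refine ⟨Va, hVa, ?_⟩
  have hp0 := hp.out.pos
  by_cases h0 : Va = 0
  · rw [h0, natDegree_zero]
    omega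
  · obtain ⟨h1, h2⟩ := kv_lead hn (3 * n - 1)
    have h4 : (((1 - 4 * X ^ p : (ZMod (p ^ 2))[X]) ^ (3 * n - 1)).leadingCoeff) * Va.leadingCoeff
        ≠ 0 := by
      intro h5
      exact h0 (leadingCoeff_eq_zero.1 (h2.mul_right_eq_zero.1 h5))
    have h5 := natDegree_mul' h4
    rw [← hVa, h1] at h5
    have h6 := VV_deg (n := n) hn
    have h7 : (3 * n - 1) * p + p = 3 * n * p := by
      have h8 : 3 * n - 1 + 1 = 3 * n := by
        have := kv_pos hn
        omega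
      calc (3 * n - 1) * p + p = (3 * n - 1 + 1) * p := by ring
        _ = 3 * n * p := by rw [h8]
    omega

/-- the coefficient at `p (3n+1)` -/
theorem kv_top (hn : p = 2 * n + 1) (h3 : p ≠ 3) :
    (VV p n).coeff (p * (3 * n + 1)) = -(-4) ^ (3 * n) := by
  have hF : Ld ((p : ZMod (p ^ 2)) * 0) (VV p n) = 0 := by
    rw [mul_zero]
    exact VV_ode hn h3
  have hlt : p - 1 < p := Nat.sub_lt hp.out.pos one_pos
  have hb := block hn 0 hF (3 * n + 1) hlt
  have hidx : p * (3 * n + 1) + (p - 1) = 3 * n * p + 4 * n + 1 := by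
    have h1 : p - 1 = 2 * n := by omega
    rw [h1]
    have h2 : p * (3 * n + 1) = 3 * n * p + p := by ring
    rw [h2]
    omega
  rw [hidx, VV_top hn h3] at hb
  have h64 := dbase_64 (p := p) (kv_two hn)
  have hDs : Ds p (p - 1) = 1 := by
    unfold Ds
    rw [Nat.sub_self, Dz_zero, mul_one, pow_mul, ← mul_pow, mul_comm, h64, one_pow]
  have hη := p_eta (p := p) hn
  have hpn : (p : ZMod (p ^ 2)) = 2 * (n : ZMod (p ^ 2)) + 1 := by
    exact_mod_cast congrArg (fun k : ℕ => (k : ZMod (p ^ 2))) hn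
  have hyy : yy p (((3 * n + 1 : ℕ) : ZMod (p ^ 2)) - 0) (p - 1) = 1 + 3 * eta p := by
    unfold yy
    rw [hDs, dom_top hn]
    push_cast
    linear_combination (9 : ZMod (p ^ 2)) * hη - 9 * eta p * hpn
  rw [hyy] at hb
  have hu : (1 + 3 * eta p) * (1 - 3 * eta p) = 1 := by
    linear_combination (-9 : ZMod (p ^ 2)) * eta_sq hn
  linear_combination ((VV p n).coeff (p * (3 * n + 1)) + (-4) ^ (3 * n)) * (-hu) -
    (1 - 3 * eta p) * hb

theorem KV_poly (hn : p = 2 * n + 1) (h3 : p ≠ 3) :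
    Polynomial.contract p (VV p n) = (1 - X) * (1 - 4 * X) ^ (3 * n) := by
  obtain ⟨Va, hVa, hd⟩ := VV_div hn h3
  have hp0 : p ≠ 0 := hp.out.ne_zero
  have hK : contract p (VV p n) = contract p Va * (1 - 4 * X) ^ (3 * n - 1) := by
    rw [hVa, kv_expand, mul_comm, contract_mul_expand hp0]
  have hn0 := kv_pos hn
  obtain ⟨m, hm⟩ : ∃ m, 3 * n = m + 1 := ⟨3 * n - 1, by omega⟩
  have hm1 : 3 * n - 1 = m := by omega
  rw [hm1] at hK
  obtain ⟨l1, l2, l3, l4⟩ := kv_lin (ZMod (p ^ 2)) m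
  have hc : ∀ r, 3 ≤ r → (contract p Va).coeff r = 0 := by
    intro r hr
    rw [coeff_contract hp0]
    refine coeff_eq_zero_of_natDegree_lt (lt_of_lt_of_le hd ?_)
    exact Nat.mul_le_mul_right p hr
  have hd2 : (contract p Va).natDegree ≤ 2 := by
    rw [natDegree_le_iff_coeff_eq_zero]
    intro r hr
    exact hc r hr
  have hv0 : (contract p Va).coeff 0 = 1 := by
    have h1 := congrArg (fun q => q.coeff 0) hK
    rw [mul_coeff_zero, l3, mul_one, coeff_contract hp0, zero_mul, VV_zero hn] at h1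
    exact h1.symm
  have hv1 : (contract p Va).coeff 1 = -5 := by
    have h1 := congrArg (fun q => q.coeff 1) hK
    rw [coeff_contract hp0, one_mul, VV_p hn h3, mul_coeff_one, hv0, l3, l4] at h1
    have hpn : (p : ZMod (p ^ 2)) = 2 * (n : ZMod (p ^ 2)) + 1 := by
      exact_mod_cast congrArg (fun k : ℕ => (k : ZMod (p ^ 2))) hn
    have hmn : 3 * (n : ZMod (p ^ 2)) = (m : ZMod (p ^ 2)) + 1 := by
      exact_mod_cast congrArg (fun k : ℕ => (k : ZMod (p ^ 2))) hm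
    linear_combination -h1 - 6 * hpn - 4 * hmn
  have hv2 : (contract p Va).coeff 2 = 4 := by
    have h1 := congrArg (fun q => q.coeff (2 + m)) hK
    rw [coeff_mul_add_eq_of_natDegree_le hd2 l1, l2, coeff_contract hp0] at h1
    have h2 : (2 + m) * p = p * (3 * n + 1) := by
      rw [hm]
      ring
    rw [h2, kv_top hn h3, hm] at h1
    have h4 : IsUnit ((-4 : ZMod (p ^ 2)) ^ m) := (kv_unit4 hn).pow m
    refine h4.mul_left_cancel ?_
    rw [mul_comm ((-4 : ZMod (p ^ 2)) ^ m) ((contract p Va).coeff 2), ← h1]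
    ring
  have hKa : contract p Va = 1 - 5 * X + 4 * X ^ 2 := by
    have h4 : (4 : (ZMod (p ^ 2))[X]) = C 4 := (map_ofNat C 4).symm
    have h5 : (5 : (ZMod (p ^ 2))[X]) = C 5 := (map_ofNat C 5).symm
    rw [(contract p Va).as_sum_range_C_mul_X_pow' (n := 3) (by omega)]
    simp only [Finset.sum_range_succ, Finset.sum_range_zero, hv0, hv1, hv2]
    rw [h4, h5]
    simp only [map_neg, map_one]
    ring
  rw [hK, hKa, hm]
  ring

theorem KV (hn : p = 2 * n + 1) (h3 : p ≠ 3) (x : ZMod (p ^ 2)) :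
    ∑ r ∈ range (3 * n + 2), (VV p n).coeff (p * r) * x ^ r = (1 - x) * (1 - 4 * x) ^ (3 * n) := by
  have hK := KV_poly hn h3
  have hp0 : p ≠ 0 := hp.out.ne_zero
  have hd : (contract p (VV p n)).natDegree < 3 * n + 2 := by
    rw [hK]
    have h1 := (kv_lin (ZMod (p ^ 2)) (3 * n)).1
    have h2 : (1 - X : (ZMod (p ^ 2))[X]).natDegree ≤ 1 := by
      refine (natDegree_sub_le _ _).trans (max_le ?_ natDegree_X_le)
      rw [natDegree_one]
      exact zero_le_one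
    have h4 := natDegree_mul_le_of_le h2 h1
    omega
  have h1 := eval_eq_sum_range' hd x
  rw [hK] at h1
  simp only [← hK, coeff_contract hp0] at h1
  have h2 : ∀ r, (VV p n).coeff (r * p) = (VV p n).coeff (p * r) := fun r => by rw [mul_comm]
  simp only [h2] at h1
  rw [← h1, hK]
  simp

end MPf96
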