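import Pool.Agent.H.MP_f96d9d_nt.Q2.DBase
import Pool.Agent.H.MP_f96d9d_nt.TExpl
import Pool.Agent.H.MP_f96d9d_nt.Omega

/-!
# `T_k(10,49) = 24^k T_k(-1/6)` and the signs

`T_link10`: `t = -(half p * third p)`, `6 t = -1`. Strong induction on `k < p`: `Texp_zero`, `Texp_one`, `Tv_zero`,
`Tv_one` (`2 Tv 1 = 1 + t`, so `24 Tv_1 = 12 + 12 t = 10`), `Texp_rec` with `b = 10`, `c = 49`:
`(k+2) T_(k+2) = 10 (2k+3) T_(k+1) + 96 (k+1) T_k` and `r0v` times `12 * 24^(k+1)`:
`(k+2) 24^(k+2) Tv_(k+2) = (2k+3) 12 (1+t) 24^(k+1) Tv_(k+1) - (k+1) 24 * 24 t 24^k Tv_k`,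
`12 (1+t) = 10`, `-576 t = 96`. Cancel the unit `k+2` (`k + 2 < p`).
`ep_leg`: `(-3/p) = 1` iff `p ≡ 1 mod 3` (quadratic reciprocity; in Mathlib e.g. `ZMod.exists_sq_eq_neg_three_iff`
if present, or `legendreSym.quadratic_reciprocity` with 3, or: `-3` is a square mod `p` iff there is a
primitive cube root of unity iff `3 ∣ p - 1`; or from `gg_p`-like facts: `p (-3)^n = p ep` in
`ZMod (p^2)` (`EO.lean`, `gg_p`), so `(-3)^n = ep` in `ZMod p`, and Euler's criterion
`legendreSym.eq_pow`).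
`s_leg`: `2^(np) = (2/p)` in `ZMod (p^2)`: `s = 2^(np)` satisfies `s^2 = 2^((p-1)p) = 1` (Euler) and
`s ≡ 2^n ≡ (2/p)` modulo `p` (Fermat, `legendreSym.eq_pow`); `(s - l)(s + l) = 0` with `l = (2/p)` and
`s + l ≡ 2l` is a unit (`unit_of_red` in `Omega.lean`).
-/

set_option autoImplicit false

namespace MPf96

open Finset

variable {p n : ℕ} [hp : Fact p.Prime]

private theorem link_six (hn : p = 2 * n + 1) (h3 : p ≠ 3) :
    6 * (-(half p * third p)) = -1 := by
  have a1 := two_half (p := p) (by omega)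
  have a2 := three_third (p := p) h3
  linear_combination (-3 * third p) * a1 - a2

theorem T_link10 (hn : p = 2 * n + 1) (h3 : p ≠ 3) {k : ℕ} (hk : k < p) :
    ((Texp 10 49 k : ℤ) : ZMod (p ^ 2)) = 24 ^ k * Tv (half p) (-(half p * third p)) k := by
  have hh := two_half (p := p) (by omega)
  have h6 := link_six hn h3
  set t : ZMod (p ^ 2) := -(half p * third p) with ht
  induction k using Nat.twoStepInduction with
  | zero => rw [Texp_zero, Tv_zero, Int.cast_one, pow_zero, mul_one]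
  | one =>
    have h1 := Tv_one hh t
    rw [Texp_one]
    push_cast
    linear_combination (-12) * h1 - 2 * h6
  | more k ih0 ih1 =>
    have e0 := ih0 (by omega)
    have e1 := ih1 (by omega)
    have h1 := Texp_rec 10 49 k
    have h2 := r0v hh t k
    have h1' : (((((k : ℤ) + 2) * Texp 10 49 (k + 2) : ℤ)) : ZMod (p ^ 2)) =
        ((((2 * (k : ℤ) + 3) * 10 * Texp 10 49 (k + 1) -
          ((k : ℤ) + 1) * (10 ^ 2 - 4 * 49) * Texp 10 49 k : ℤ)) : ZMod (p ^ 2)) := by rw [h1]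
    push_cast at h1'
    have hu : IsUnit ((k : ZMod (p ^ 2)) + 2) := by
      have := unit_nat (p := p) (not_dvd_of_lt (m := k + 2) (by omega) (by omega))
      push_cast at this
      exact this
    apply cancel_unit hu
    rw [h1', e0, e1]
    have p1 : (24 : ZMod (p ^ 2)) ^ (k + 1) = 24 * 24 ^ k := pow_succ' _ _
    have p2 : (24 : ZMod (p ^ 2)) ^ (k + 1 + 1) = 576 * 24 ^ k := by
      rw [pow_succ', pow_succ']
      ring
    have p3 : (24 : ZMod (p ^ 2)) ^ (k + 2) = 576 * 24 ^ k := p2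
    rw [p1, p3]
    linear_combination (-288 * 24 ^ k) * h2 +
      (-(48 * (2 * (k : ZMod (p ^ 2)) + 3) * 24 ^ k * Tv (half p) t (k + 1)) +
        96 * ((k : ZMod (p ^ 2)) + 1) * 24 ^ k * Tv (half p) t k) * h6

private theorem link_leg3 (hn : p = 2 * n + 1) (h3 : p ≠ 3) :
    legendreSym p (-3) = if p % 3 = 1 then 1 else -1 := by
  have : Fact (Nat.Prime 3) := ⟨Nat.prime_three⟩
  have h2 : p ≠ 2 := by omega
  have e1 : (-3 : ℤ) = (-1) * ((3 : ℕ) : ℤ) := by norm_num
  have e2 := legendreSym.quadratic_reciprocity' (p := 3) (q := p) (by norm_num) h2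
  have e3 := legendreSym.at_neg_one (p := p) h2
  have e4 := ZMod.χ₄_eq_neg_one_pow (n := p) (by omega)
  rw [e1, legendreSym.mul, e3, e4, e2]
  have e5 : (3 : ℕ) / 2 * (p / 2) = p / 2 := by norm_num
  rw [e5, ← mul_assoc, ← mul_pow, neg_one_mul, neg_neg, one_pow, one_mul]
  rw [legendreSym.mod]
  have hp3 : ¬ 3 ∣ p := by
    intro h
    exact h3 ((Nat.prime_dvd_prime_iff_eq Nat.prime_three hp.out).1 h).symm
  have h5 : ((p : ℤ) % ((3 : ℕ) : ℤ)) = ((p % 3 : ℕ) : ℤ) := by push_cast; rfl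
  rw [h5]
  have h6 : p % 3 = 1 ∨ p % 3 = 2 := by omega
  rcases h6 with h6 | h6
  · rw [h6, if_pos rfl, Nat.cast_one, legendreSym.at_one]
  · rw [h6, if_neg (by norm_num)]
    have h7 := legendreSym.at_two (p := 3) (by norm_num)
    rw [Nat.cast_ofNat, h7]
    decide

theorem ep_leg (hn : p = 2 * n + 1) (h3 : p ≠ 3) :
    ((legendreSym p (-3) : ℤ) : ZMod (p ^ 2)) = ep p := by
  rw [link_leg3 hn h3]
  unfold ep
  split_ifs <;> simp

theorem s_leg (hn : p = 2 * n + 1) :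
    ((legendreSym p 2 : ℤ) : ZMod (p ^ 2)) = 2 ^ (n * p) := by
  have h2 : p ≠ 2 := by omega
  have h0 : ((2 : ℤ) : ZMod p) ≠ 0 := by
    intro h
    have h1 := (ZMod.intCast_zmod_eq_zero_iff_dvd 2 p).1 h
    have h3 : p ∣ 2 := by exact_mod_cast h1
    exact h2 ((Nat.prime_dvd_prime_iff_eq hp.out Nat.prime_two).1 h3)
  have e1 := legendreSym.eq_pow p 2
  have e2 : p / 2 = n := by omega
  rw [e2] at e1
  have e3 := om_of_int (p := p) (legendreSym p 2)
  rw [e1, om_pow, om_of_int, ← pow_mul, Int.cast_ofNat] at e3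
  rw [mul_comm n p, e3]
  have hodd : Odd p := hp.out.odd_of_ne_two h2
  rcases legendreSym.eq_one_or_neg_one p h0 with h | h
  · rw [h]
    simp
  · rw [h]
    push_cast
    exact hodd.neg_one_pow.symm

end MPf96
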