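import Pool.Agent.H.MP_f96d9d_nt.RecA

/-!
# MP_f96d9d, question 2: the polynomials `T_k((4X-1)/3)` and the Domb operator

`fq = 4X - 1`, `TX h w k = T_k(w (4X-1))` (`2h = 1`, `3w = 1`), `dl s f = θ f - s f`,
`Ld s` is the Domb operator `θ^3 - 2X(2θ+1)(5θ^2+5θ+2) + 64 X^2 (θ+1)^3` with `θ` replaced by
`θ - s`. `rc μ a b c = μ^3 a - 2(2μ-1)(5μ^2-5μ+2) b + 64 (μ-1)^3 c`.
-/

set_option autoImplicit false

namespace MPf96

open Polynomial Finset

variable {R : Type*} [CommRing R] {h w : R}

/-- `4X - 1` -/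
noncomputable def fq : R[X] := 4 * X - 1

/-- `T_k((4X-1)/3)` -/
noncomputable def TX (h w : R) (k : ℕ) : R[X] := (Tp h k).comp (C w * fq)

/-- `θ f - s f` -/
noncomputable def dl (s : R) (f : R[X]) : R[X] := X * derivative f - C s * f

/-- the Domb operator with `θ` replaced by `θ - s` -/
noncomputable def Ld (s : R) (f : R[X]) : R[X] :=
  dl s (dl s (dl s f)) - 2 * X * (10 * dl s (dl s (dl s f)) + 15 * dl s (dl s f) + 9 * dl s f +
    2 * f) + 64 * X ^ 2 * (dl s (dl s (dl s f)) + 3 * dl s (dl s f) + 3 * dl s f + f)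

/-- the recurrence form -/
def rc (μ a b c : R) : R :=
  μ ^ 3 * a - 2 * (2 * μ - 1) * (5 * μ ^ 2 - 5 * μ + 2) * b + 64 * (μ - 1) ^ 3 * c

theorem fq_regular {g : R[X]} (hg : fq * g = 0) : g = 0 := by
  have e : ∀ m, g.coeff m = 0 := by
    intro m
    induction m with
    | zero =>
      have := congrArg (fun q => q.coeff 0) hg
      simpa [fq, sub_mul, mul_assoc] using this
    | succ m ih =>
      have h1 : fq * g = C 4 * (X * g) - g := by
        unfold fq
        rw [map_ofNat]
        ring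
      have := congrArg (fun q => q.coeff (m + 1)) hg
      simp only [h1, coeff_sub, coeff_C_mul, coeff_X_mul, coeff_zero, ih, mul_zero, zero_sub] at this
      exact neg_eq_zero.1 this
  ext m
  simpa using e m

theorem fq_cancel {a b : R[X]} (hg : fq * a = fq * b) : a = b := by
  have : fq * (a - b) = 0 := by rw [mul_sub, hg, sub_self]
  exact sub_eq_zero.1 (fq_regular this)

theorem TX_zero : TX h w 0 = 1 := by
  unfold TX
  rw [Tp_zero, one_comp]

theorem pbase_w (hw : 3 * w = 1) : (3 : R[X]) * C w = 1 := by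
  have : (3 : R[X]) = C (3 : R) := (map_ofNat C 3).symm
  rw [this, ← C_mul, hw, C_1]

theorem pbase_h (hh : 2 * h = 1) : (2 : R[X]) * C h = 1 := by
  have : (2 : R[X]) = C (2 : R) := (map_ofNat C 2).symm
  rw [this, ← C_mul, hh, C_1]

theorem TX_one (hh : 2 * h = 1) (hw : 3 * w = 1) : 3 * TX h w 1 = 2 * X + 1 := by
  have h1 := congrArg (fun q : R[X] => q.comp (C w * fq)) (r0one hh)
  simp only [mul_comp, add_comp, one_comp, X_comp] at h1
  have h2 : (2 : R[X]).comp (C w * fq) = 2 := by
    rw [show (2 : R[X]) = C 2 from (map_ofNat C 2).symm, C_comp]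
  rw [h2] at h1
  have e1 : 2 * TX h w 1 = 1 + C w * fq := h1
  have e2 := pbase_w hw
  have e3 := pbase_h hh
  unfold fq at e1
  linear_combination (3 * C h) * e1 + (C h * (4 * X - 1)) * e2 - (3 * TX h w 1 - (2 * X + 1)) * e3

/-- the derivative of `TX` -/
theorem pbase_theta (k : ℕ) :
    X * derivative (TX h w k) = 4 * C w * X * (derivative (Tp h k)).comp (C w * fq) := by
  unfold TX
  rw [derivative_comp]
  have : derivative (C w * fq : R[X]) = 4 * C w := by
    unfold fq
    rw [derivative_C_mul, derivative_sub, derivative_one, sub_zero]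
    have : derivative (4 * X : R[X]) = 4 := by
      rw [show (4 : R[X]) = C 4 from (map_ofNat C 4).symm, derivative_C_mul, derivative_X, mul_one]
    rw [this]
    ring
  rw [this]
  ring

theorem xr1 (hh : 2 * h = 1) (hw : 3 * w = 1) (k : ℕ) :
    (1 - X) * (X * derivative (TX h w (k + 1))) =
      ((k : R[X]) + 1) * X * (TX h w k - TX h w (k + 1)) := by
  have h1 := congrArg (fun q : R[X] => q.comp (C w * fq)) (r1 hh k)
  simp only [mul_comp, add_comp, sub_comp, one_comp, X_comp] at h1
  have h2 : ((k : R[X])).comp (C w * fq) = (k : R[X]) := by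
    rw [show (k : R[X]) = C (k : R) from (map_natCast C k).symm, C_comp]
  rw [h2] at h1
  change _ = _ * (TX h w k - TX h w (k + 1)) at h1
  have e2 := pbase_w hw
  rw [pbase_theta]
  generalize (derivative (Tp h (k + 1))).comp (C w * fq) = P at h1
  have e3 : (1 - C w * fq : R[X]) = 4 * C w * (1 - X) := by
    unfold fq
    linear_combination (-1 : R[X]) * e2
  rw [e3] at h1
  apply fq_cancel
  linear_combination (3 * X) * h1 + (((k : R[X]) + 1) * X * fq * (TX h w k - TX h w (k + 1)) -
    4 * C w * (1 - X) * X * fq * P) * e2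

theorem xr2 (hh : 2 * h = 1) (hw : 3 * w = 1) (k : ℕ) :
    fq * (1 - X) * (X * derivative (TX h w k)) =
      X * ((3 * (k : R[X]) + 1 + 2 * X) * TX h w k - 3 * ((k : R[X]) + 1) * TX h w (k + 1)) := by
  have h1 := congrArg (fun q : R[X] => q.comp (C w * fq)) (r2 hh k)
  simp only [mul_comp, add_comp, sub_comp, one_comp, X_comp] at h1
  have h2 : ((k : R[X])).comp (C w * fq) = (k : R[X]) := by
    rw [show (k : R[X]) = C (k : R) from (map_natCast C k).symm, C_comp]
  have h3 : (2 : R[X]).comp (C w * fq) = 2 := by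
    rw [show (2 : R[X]) = C 2 from (map_ofNat C 2).symm, C_comp]
  rw [h2, h3] at h1
  change _ = _ * TX h w k - _ * TX h w (k + 1) at h1
  have e2 := pbase_w hw
  have e4 := pbase_h hh
  rw [pbase_theta]
  generalize (derivative (Tp h k)).comp (C w * fq) = P at h1
  generalize TX h w k = T at h1 ⊢
  generalize TX h w (k + 1) = T' at h1 ⊢
  have e3 : (1 - C w * fq : R[X]) = 4 * C w * (1 - X) := by
    unfold fq
    linear_combination (-1 : R[X]) * e2
  rw [e3] at h1
  have key : 2 * (fq * (1 - X) * (4 * C w * X * P)) =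
      2 * (X * ((3 * (k : R[X]) + 1 + 2 * X) * T - 3 * ((k : R[X]) + 1) * T')) := by
    have : (2 : R[X]) * (fq * (1 - X) * (4 * C w * X * P)) =
        2 * (fq * (1 - X) * (4 * C w * X * P)) * (3 * C w) := by rw [e2, mul_one]
    rw [this]
    unfold fq at h1 ⊢
    linear_combination (3 * X) * h1 + (X * (4 * X - 1) * T) * e2
  linear_combination (C h) * key - (fq * (1 - X) * (4 * C w * X * P) -
    X * ((3 * (k : R[X]) + 1 + 2 * X) * T - 3 * ((k : R[X]) + 1) * T')) * e4

theorem xr0 (hh : 2 * h = 1) (hw : 3 * w = 1) (k : ℕ) :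
    3 * ((k : R[X]) + 2) * TX h w (k + 2) =
      (2 * (k : R[X]) + 3) * (2 * X + 1) * TX h w (k + 1) - ((k : R[X]) + 1) * fq * TX h w k := by
  have h1 := xr1 hh hw k
  have h2 := xr2 hh hw (k + 1)
  have hX : ∀ g : R[X], X * g = 0 → g = 0 := by
    intro g hg
    ext m
    have := congrArg (fun q => q.coeff (m + 1)) hg
    simpa [coeff_X_mul] using this
  apply sub_eq_zero.1
  apply hX
  push_cast at h2
  have e : fq * ((1 - X) * (X * derivative (TX h w (k + 1)))) =
      fq * (((k : R[X]) + 1) * X * (TX h w k - TX h w (k + 1))) := by rw [h1]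
  unfold fq at e h2 ⊢
  linear_combination h2 - e

theorem dl_add (s : R) (f g : R[X]) : dl s (f + g) = dl s f + dl s g := by
  unfold dl
  rw [derivative_add]
  ring

theorem dl_C_mul (s a : R) (f : R[X]) : dl s (C a * f) = C a * dl s f := by
  unfold dl
  rw [derivative_C_mul]
  ring

theorem dl_zero (s : R) : dl s (0 : R[X]) = 0 := by
  unfold dl
  simp

theorem pbase_thX (a : ℕ) (f : R[X]) : X * derivative (X ^ a * f) =
    X ^ a * (X * derivative f) + (a : R[X]) * (X ^ a * f) := by
  rw [derivative_mul, derivative_X_pow]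
  cases a with
  | zero => simp
  | succ a =>
    rw [Nat.add_sub_cancel]
    simp only [map_natCast]
    ring

theorem dl_shift (s : R) (a : ℕ) (f : R[X]) :
    dl (s + a) (X ^ a * f) = X ^ a * dl s f := by
  unfold dl
  rw [pbase_thX, C_add, map_natCast]
  ring

theorem Ld_add (s : R) (f g : R[X]) : Ld s (f + g) = Ld s f + Ld s g := by
  unfold Ld
  simp only [dl_add]
  ring

theorem Ld_C_mul (s a : R) (f : R[X]) : Ld s (C a * f) = C a * Ld s f := by
  unfold Ld
  simp only [dl_C_mul]
  ring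

theorem Ld_zero (s : R) : Ld s (0 : R[X]) = 0 := by
  unfold Ld
  simp only [dl_zero]
  ring

theorem Ld_neg (s : R) (f : R[X]) : Ld s (-f) = -Ld s f := by
  have := Ld_C_mul s (-1) f
  simpa using this

theorem Ld_sub (s : R) (f g : R[X]) : Ld s (f - g) = Ld s f - Ld s g := by
  rw [sub_eq_add_neg, Ld_add, Ld_neg, ← sub_eq_add_neg]

theorem Ld_sum (s : R) {ι : Type*} (S : Finset ι) (f : ι → R[X]) :
    Ld s (∑ i ∈ S, f i) = ∑ i ∈ S, Ld s (f i) := by
  classical
  induction S using Finset.induction_on with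
  | empty => simp [Ld_zero]
  | insert a S ha ih => rw [Finset.sum_insert ha, Finset.sum_insert ha, Ld_add, ih]

theorem Ld_shift (s : R) (a : ℕ) (f : R[X]) : Ld (s + a) (X ^ a * f) = X ^ a * Ld s f := by
  unfold Ld
  simp only [dl_shift]
  ring

theorem coeff_dl (s : R) (f : R[X]) (m : ℕ) : (dl s f).coeff m = ((m : R) - s) * f.coeff m := by
  unfold dl
  rw [coeff_sub, coeff_theta, coeff_C_mul]
  ring

theorem pbase_Ld (s : R) (f : R[X]) : Ld s f = dl s (dl s (dl s f)) -
    X * (C 20 * dl s (dl s (dl s f)) + C 30 * dl s (dl s f) + C 18 * dl s f + C 4 * f) +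
    X * (X * (C 64 * dl s (dl s (dl s f)) + C 192 * dl s (dl s f) + C 192 * dl s f + C 64 * f)) := by
  unfold Ld
  simp only [map_ofNat]
  ring

theorem coeff_Ld_zero (s : R) (f : R[X]) : (Ld s f).coeff 0 = rc (-s) (f.coeff 0) 0 0 := by
  rw [pbase_Ld]
  simp only [coeff_add, coeff_sub, mul_coeff_zero, coeff_X_zero, zero_mul, sub_zero, add_zero,
    coeff_dl]
  unfold rc
  push_cast
  ring

theorem coeff_Ld_one (s : R) (f : R[X]) :
    (Ld s f).coeff 1 = rc (1 - s) (f.coeff 1) (f.coeff 0) 0 := by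
  rw [pbase_Ld]
  have e : ∀ g : R[X], (X * g).coeff 1 = g.coeff 0 := fun g => coeff_X_mul g 0
  simp only [coeff_add, coeff_sub, e, mul_coeff_zero, coeff_X_zero, zero_mul, add_zero,
    coeff_C_zero, coeff_dl]
  unfold rc
  push_cast
  ring

theorem coeff_Ld (s : R) (f : R[X]) (m : ℕ) :
    (Ld s f).coeff (m + 2) = rc ((m : R) + 2 - s) (f.coeff (m + 2)) (f.coeff (m + 1))
      (f.coeff m) := by
  rw [pbase_Ld]
  have e : ∀ g : R[X], (X * g).coeff (m + 2) = g.coeff (m + 1) := fun g => coeff_X_mul g (m + 1)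
  simp only [coeff_add, coeff_sub, e, coeff_X_mul, coeff_C_mul, coeff_dl]
  unfold rc
  push_cast
  ring

end MPf96
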