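import Pool.Agent.H.MP_f96d9d_nt.Q2.CertP

/-!
# The polynomial `Y2` and its differential equation
-/

set_option autoImplicit false

namespace MPf96

open Polynomial Finset

variable {R : Type*} [CommRing R] {h w : R}

/-- `Y2 = (1-X) ∑_{k<p} T_k^3 X^(p-1-k)`, `T_k` at `(4X-1)/3` -/
noncomputable def Y2 (h w : R) (p : ℕ) : R[X] :=
  (1 - X) * ∑ k ∈ range p, TX h w k ^ 3 * X ^ (p - 1 - k)

theorem telep_X_cancel {g : R[X]} (hg : X * g = 0) : g = 0 := by
  ext m
  have := congrArg (fun q => q.coeff (m + 1)) hg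
  simpa [coeff_X_mul] using this

theorem telep_cancel {g : R[X]} (hg : X * ((1 - X) ^ 2 * fq) * g = 0) : g = 0 := by
  apply q_regular
  have h1 : X * ((1 - X) * fq * ((1 - X) * g)) = 0 := by
    rw [← hg]
    ring
  have h2 := q_regular (telep_X_cancel h1)
  rw [mul_assoc, mul_left_comm, h2, mul_zero]

theorem telep_gp_zero (B : R[X]) : gp (0 : R[X]) 0 B = 0 := by
  unfold gp
  ring

theorem telep_gp_p {p : ℕ} (hp2 : (p : R) ^ 2 = 0) (A B : R[X]) :
    gp (p : R[X]) ((p : R[X]) * A) B = 0 := by
  have e : (p : R[X]) ^ 2 = 0 := by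
    have := congrArg (C : R → R[X]) hp2
    simpa only [C_pow, map_natCast, C_0] using this
  have e2 : gp (p : R[X]) ((p : R[X]) * A) B = (p : R[X]) ^ 2 *
      ((p : R[X]) * (X * (1 + X * ((-8) + X * ((-14) + X * (224 + X * ((-352) + X * ((-256)))))))) *
          B ^ 3 +
        ((X * (X * ((-9) + X * (36 + X * (144 + X * ((-576))))))) +
          (p : R[X]) * (X * (X * (9 + X * (180 + X * ((-1224) + X * (1440))))))) * (A * B ^ 2) +
        (X * (X * (27 + X * ((-162) + X * (324 + X * (216))))) +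
          (p : R[X]) * (X * (X * ((-54) + X * ((-81) + X * (972 + X * ((-432)))))))) *
          (A ^ 2 * B) +
        (p : R[X]) * (X * (X * (27 + X * (108 + X * ((-540)))))) * A ^ 3) := by
    unfold gp
    ring
  rw [e2, e, zero_mul]

theorem Ld_Y2 (hh : 2 * h = 1) (hw : 3 * w = 1) {p : ℕ} (hp2 : (p : R) ^ 2 = 0) :
    Ld (p : R) (Y2 h w p) = 0 := by
  apply telep_cancel
  have key : ∀ K : ℕ, X * ((1 - X) ^ 2 * fq) *
      Ld (K : R) ((1 - X) * ∑ k ∈ range K, TX h w k ^ 3 * X ^ (K - 1 - k)) =
        gp (K : R[X]) ((K : R[X]) * TX h w K) (TB h w K) := by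
    intro K
    induction K with
    | zero =>
      simp only [range_zero, sum_empty, mul_zero, Ld_zero, Nat.cast_zero, zero_mul]
      exact (telep_gp_zero _).symm
    | succ K ih =>
      have e1 : (1 - X) * ∑ k ∈ range (K + 1), TX h w k ^ 3 * X ^ (K + 1 - 1 - k) =
          X ^ 1 * ((1 - X) * ∑ k ∈ range K, TX h w k ^ 3 * X ^ (K - 1 - k)) +
            (1 - X) * TX h w K ^ 3 := by
        rw [sum_range_succ]
        have : ∑ k ∈ range K, TX h w k ^ 3 * X ^ (K + 1 - 1 - k) =
            X * ∑ k ∈ range K, TX h w k ^ 3 * X ^ (K - 1 - k) := by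
          rw [mul_sum]
          refine sum_congr rfl fun k hk => ?_
          have hk' := mem_range.1 hk
          have e3 : K + 1 - 1 - k = (K - 1 - k) + 1 := by omega
          rw [e3, pow_succ]
          ring
        rw [this, Nat.add_sub_cancel, Nat.sub_self, pow_zero]
        ring
      have e2 := Ld_shift (K : R) 1
        ((1 - X) * ∑ k ∈ range K, TX h w k ^ 3 * X ^ (K - 1 - k))
      have c := certP hh hw K
      rw [e1, Ld_add]
      push_cast
      push_cast at e2
      have e4 : TB h w (K + 1) = TX h w K := rfl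
      rw [e2, mul_add, c, e4]
      linear_combination X * ih
  have := key p
  rw [telep_gp_p hp2] at this
  exact this

end MPf96
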