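import Pool.Agent.H.MP_f96d9d_nt.Q2.CertZ

/-!
# The polynomial `VK` and its differential equation
-/

set_option autoImplicit false

namespace MPf96

open Polynomial Finset

variable {R : Type*} [CommRing R] {h w : R}

/-- `VK = (1-X) ∑_{k<K} 27^k X^k (4X-1)^(M-3k) T_k^3`, `T_k` at `(4X-1)/3` -/
noncomputable def VK (h w : R) (M K : ℕ) : R[X] :=
  (1 - X) * ∑ k ∈ range K, C (27 ^ k) * (X ^ k * fq ^ (M - 3 * k)) * TX h w k ^ 3

theorem telez_gz_zero (B : R[X]) : gz (0 : R[X]) 0 B = 0 := by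
  unfold gz
  ring

theorem telez_gz_p {p : ℕ} (hp2 : (p : R) ^ 2 = 0) (A B : R[X]) :
    gz (p : R[X]) ((p : R[X]) * A) B = 0 := by
  have e : (p : R[X]) ^ 2 = 0 := by
    have := congrArg (C : R → R[X]) hp2
    simpa only [C_pow, map_natCast, C_0] using this
  have e2 : gz (p : R[X]) ((p : R[X]) * A) B = (p : R[X]) ^ 2 *
      ((p : R[X]) * (X * (1 + X * ((-12) + X * (12 + X * (448 + X * ((-2688) + X * (6144 +
          X * ((-5120))))))))) * B ^ 3 +
        (X * (3 + X * ((-54) + X * (396 + X * ((-1464) + X * (2592 + X * ((-1152) +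
            X * ((-1536)))))))) +
          (p : R[X]) * (X * (6 + X * ((-63) + X * (72 + X * (1392 + X * ((-6336) +
            X * (9216 + X * ((-3072)))))))))) * (A * B ^ 2) +
        (X * (3 + X * ((-36) + X * (96 + X * (384 + X * ((-2304) + X * (3072)))))) +
          (p : R[X]) * (X * (3 + X * (36 + X * ((-840) + X * (4704 + X * ((-10368) +
            X * (7680)))))))) * (A ^ 2 * B) +
        (p : R[X]) * ((-1) + X * (12 + X * ((-18) + X * ((-280) + X * (1248 + X * ((-1152) +
          X * ((-1024)))))))) * A ^ 3) := by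
    unfold gz
    ring
  rw [e2, e, zero_mul]

theorem Ld_VK (hh : 2 * h = 1) (hw : 3 * w = 1) {M : ℕ} (hM : 2 * (M : R) + 3 = 0) (K : ℕ)
    (hK : 3 * K ≤ M + 3) :
    ((1 - X) ^ 2 * fq ^ 5) * Ld (0 : R) (VK h w M K) =
      C (27 ^ K) * (X ^ K * fq ^ (M + 3 - 3 * K)) *
        gz (K : R[X]) ((K : R[X]) * TX h w K) (TB h w K) := by
  induction K with
  | zero =>
    unfold VK
    simp only [range_zero, sum_empty, mul_zero, Ld_zero, Nat.cast_zero, zero_mul]
    rw [telez_gz_zero, mul_zero]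
  | succ K ih =>
    have ih' := ih (by omega)
    have he : 2 * ((M - 3 * K : ℕ) : R) + 3 + 6 * (K : R) = 0 := by
      have : ((M - 3 * K : ℕ) : R) = (M : R) - 3 * (K : R) := by
        rw [Nat.cast_sub (by omega)]
        push_cast
        ring
      rw [this]
      linear_combination hM
    have c := certZ hh hw K (M - 3 * K) he
    have e1 : VK h w M (K + 1) = VK h w M K + C (27 ^ K) *
        (X ^ K * fq ^ (M - 3 * K) * ((1 - X) * TX h w K ^ 3)) := by
      unfold VK
      rw [sum_range_succ]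
      ring
    rw [e1, Ld_add, Ld_C_mul, mul_add, ih']
    have e2 : M + 3 - 3 * K = (M - 3 * K) + 3 := by omega
    have e3 : M + 3 - 3 * (K + 1) = M - 3 * K := by omega
    have e4 : TB h w (K + 1) = TX h w K := rfl
    have e5 : (C (27 ^ (K + 1)) : R[X]) = C (27 ^ K) * 27 := by
      rw [pow_succ, C_mul, map_ofNat]
    rw [e2, e3, e4, e5]
    push_cast
    linear_combination (C (27 ^ K)) * c

theorem telez_cancel {g : R[X]} (hg : (1 - X) ^ 2 * fq ^ 5 * g = 0) : g = 0 := by
  have h1 : fq * (fq * (fq * ((1 - X) * fq * ((1 - X) * fq * g)))) = 0 := by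
    rw [← hg]
    ring
  exact q_regular (q_regular (fq_regular (fq_regular (fq_regular h1))))

theorem Ld_V (hh : 2 * h = 1) (hw : 3 * w = 1) {M p : ℕ} (hM : 2 * (M : R) + 3 = 0)
    (hp2 : (p : R) ^ 2 = 0) (hK : 3 * p ≤ M + 3) : Ld (0 : R) (VK h w M p) = 0 := by
  apply telez_cancel
  rw [Ld_VK hh hw hM p hK, telez_gz_p hp2, mul_zero]

end MPf96
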