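import Pool.Agent.H.MP_f96d9d_nt.Q2.EO
import Pool.Agent.H.MP_f96d9d_nt.SumU

/-!
# The top sum

Notation: `w = third p` (`3 w = 1`), `h = half p`, `g = gg p n`, `U = u_n`, `η = eta p`, `η^2 = 0`,
`η (g - 1) = 0`. `Et(-w) = (-w)^n Ot(-3) = ep g ep (1+η) = g (1+η)` (`ep^2 = 1`, `(-w)^n = ep g`).

`top_id`: `∑_{i=1}^m C(m,i) z^i / i = ∑_{j=1}^m ((1+z)^j - 1)/j` for `m < p` (all in
`ZMod (p^2)`, inverses of `1..m`). Induction on `m`: `C(m+1,i) - C(m,i) = C(m,i-1)`,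
`C(m,i-1)/i = C(m+1,i)/(m+1)` (`Nat.succ_mul_choose_eq`) and
`∑_{i=1}^{m+1} C(m+1,i) z^i = (1+z)^(m+1) - 1` (binomial theorem).
`TopP`: `y = 4w`, `1 - y = -w`. For `1 ≤ i ≤ n`, by `u_up` `u_(n+i) (2 i u_i) = p U`, so
`2 i u_i^2 u_(n+i) = p u_i U = p (-1)^i C(n,i) U` (`p_u`) and
`u_i^2 u_(n+i) = h U (-1)^i C(n,i) (p/i)`. The sum is `h U p ∑_{i=1}^n (-y)^i C(n,i)/i`, by `top_id` with
`z = -y` it is `h U ∑_{j=1}^n (p/j) ((-w)^j - 1) = h U [(2 - 2 g (1+η)) - ∑ p/j]` (`Et_sum`) and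
`∑_{j=1}^n p/j = -2η` (`H1`, `harm_Hs`), so it is `h U [2 - 2g - 2ηg + 2η] = U (1 - g)`.
-/

set_option autoImplicit false

namespace MPf96

open Finset

variable {p n : ℕ} [hp : Fact p.Prime]

theorem top_id (z : ZMod (p ^ 2)) {m : ℕ} (hm : m < p) :
    ∑ i ∈ range m, (m.choose (i + 1) : ZMod (p ^ 2)) * z ^ (i + 1) *
        ((i + 1 : ℕ) : ZMod (p ^ 2))⁻¹ =
      ∑ j ∈ range m, ((1 + z) ^ (j + 1) - 1) * ((j + 1 : ℕ) : ZMod (p ^ 2))⁻¹ := by
  induction m with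
  | zero => simp
  | succ m ih =>
    have ih' := ih (by omega)
    have hm1 : ((m + 1 : ℕ) : ZMod (p ^ 2)) * ((m + 1 : ℕ) : ZMod (p ^ 2))⁻¹ = 1 :=
      mul_inv_nat (not_dvd_of_lt (by omega) (by omega))
    have hsplit : ∀ i ∈ range (m + 1),
        ((m + 1).choose (i + 1) : ZMod (p ^ 2)) * z ^ (i + 1) * ((i + 1 : ℕ) : ZMod (p ^ 2))⁻¹ =
        (m.choose (i + 1) : ZMod (p ^ 2)) * z ^ (i + 1) * ((i + 1 : ℕ) : ZMod (p ^ 2))⁻¹ +
        ((m + 1 : ℕ) : ZMod (p ^ 2))⁻¹ *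
          (((m + 1).choose (i + 1) : ZMod (p ^ 2)) * z ^ (i + 1)) := by
      intro i hi
      have hi' := Finset.mem_range.1 hi
      have hi1 : ((i + 1 : ℕ) : ZMod (p ^ 2)) * ((i + 1 : ℕ) : ZMod (p ^ 2))⁻¹ = 1 :=
        mul_inv_nat (not_dvd_of_lt (by omega) (by omega))
      have h1 : ((m + 1).choose (i + 1) : ZMod (p ^ 2)) =
          (m.choose i : ZMod (p ^ 2)) + (m.choose (i + 1) : ZMod (p ^ 2)) := by
        rw [Nat.choose_succ_succ]
        push_cast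
        ring
      have h2 : ((m + 1 : ℕ) : ZMod (p ^ 2)) * (m.choose i : ZMod (p ^ 2)) =
          ((m + 1).choose (i + 1) : ZMod (p ^ 2)) * ((i + 1 : ℕ) : ZMod (p ^ 2)) := by
        have h := Nat.add_one_mul_choose_eq m i
        have h' : (((m + 1) * m.choose i : ℕ) : ZMod (p ^ 2)) =
          (((m + 1).choose (i + 1) * (i + 1) : ℕ) : ZMod (p ^ 2)) := by
          rw [← h]
        rw [Nat.cast_mul, Nat.cast_mul] at h'
        exact h'
      have h3 : (m.choose i : ZMod (p ^ 2)) * ((i + 1 : ℕ) : ZMod (p ^ 2))⁻¹ =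
          ((m + 1 : ℕ) : ZMod (p ^ 2))⁻¹ * ((m + 1).choose (i + 1) : ZMod (p ^ 2)) := by
        linear_combination ((i + 1 : ℕ) : ZMod (p ^ 2))⁻¹ * ((m + 1 : ℕ) : ZMod (p ^ 2))⁻¹ * h2 -
          (m.choose i : ZMod (p ^ 2)) * ((i + 1 : ℕ) : ZMod (p ^ 2))⁻¹ * hm1 +
          ((m + 1 : ℕ) : ZMod (p ^ 2))⁻¹ * ((m + 1).choose (i + 1) : ZMod (p ^ 2)) * hi1
      linear_combination z ^ (i + 1) * ((i + 1 : ℕ) : ZMod (p ^ 2))⁻¹ * h1 + z ^ (i + 1) * h3
    have hbin : ∑ i ∈ range (m + 1), ((m + 1).choose (i + 1) : ZMod (p ^ 2)) * z ^ (i + 1) =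
        (1 + z) ^ (m + 1) - 1 := by
      rw [add_comm (1 : ZMod (p ^ 2)) z, add_pow, Finset.sum_range_succ' _ (m + 1)]
      simp only [one_pow, mul_one, pow_zero, Nat.choose_zero_right, Nat.cast_one]
      rw [add_sub_cancel_right]
      exact Finset.sum_congr rfl fun i _ => mul_comm _ _
    rw [Finset.sum_congr rfl hsplit, Finset.sum_add_distrib, ← Finset.mul_sum, hbin,
      Finset.sum_range_succ, ih', Finset.sum_range_succ, Nat.choose_succ_self]
    push_cast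
    ring

theorem TopP (hn : p = 2 * n + 1) (h3 : p ≠ 3) :
    ∑ i ∈ range n, (u (half p) (i + 1)) ^ 2 * u (half p) (n + (i + 1)) *
        (4 * third p) ^ (i + 1) = u (half p) n * (1 - gg p n) := by
  have hh := two_half (p := p) (by omega)
  have hterm : ∀ i ∈ range n, (u (half p) (i + 1)) ^ 2 * u (half p) (n + (i + 1)) *
        (4 * third p) ^ (i + 1) =
      (half p * u (half p) n * p) * ((n.choose (i + 1) : ZMod (p ^ 2)) *
        (-(4 * third p)) ^ (i + 1) * ((i + 1 : ℕ) : ZMod (p ^ 2))⁻¹) := by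
    intro i hi
    have hi' := Finset.mem_range.1 hi
    have h1 := u_up hn (i := i + 1) (by omega) (by omega)
    have h2 := p_u hn (i := i + 1) (by omega)
    have hi1 : ((i + 1 : ℕ) : ZMod (p ^ 2)) * ((i + 1 : ℕ) : ZMod (p ^ 2))⁻¹ = 1 :=
      mul_inv_nat (not_dvd_of_lt (by omega) (by omega))
    have hneg : (-(4 * third p)) ^ (i + 1) = (-1) ^ (i + 1) * (4 * third p) ^ (i + 1) := by
      rw [neg_pow]
    rw [hneg]
    generalize (4 * third p) ^ (i + 1) = y at *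
    generalize ((i + 1 : ℕ) : ZMod (p ^ 2))⁻¹ = w at *
    generalize ((i + 1 : ℕ) : ZMod (p ^ 2)) = v at *
    linear_combination y * (half p * w * u (half p) (i + 1) * h1 +
      half p * u (half p) n * w * h2 -
      (u (half p) (i + 1)) ^ 2 * u (half p) (n + (i + 1)) * (v * w * hh + hi1))
  rw [Finset.sum_congr rfl hterm, ← Finset.mul_sum, top_id _ (by omega : n < p)]
  have h3w := three_third h3
  have hz : (1 : ZMod (p ^ 2)) + -(4 * third p) = -third p := by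
    linear_combination h3w * (-1)
  rw [hz]
  have hsum : (p : ZMod (p ^ 2)) * ∑ j ∈ range n, ((-third p) ^ (j + 1) - 1) *
      ((j + 1 : ℕ) : ZMod (p ^ 2))⁻¹ = 2 - 2 * Et p n (-third p) + 2 * eta p := by
    have e1 := Et_sum hn (-third p)
    have e2 := H1 hn
    rw [harm_Hs] at e2
    have e3 : (p : ZMod (p ^ 2)) * ∑ j ∈ range n, ((-third p) ^ (j + 1) - 1) *
        ((j + 1 : ℕ) : ZMod (p ^ 2))⁻¹ =
        ∑ i ∈ range n, harm_e p (i + 1) * (-third p) ^ (i + 1) -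
          ∑ i ∈ range n, harm_e p (i + 1) := by
      rw [Finset.mul_sum, ← Finset.sum_sub_distrib]
      refine Finset.sum_congr rfl fun j _ => ?_
      unfold harm_e
      ring
    rw [e3, e1, e2]
    ring
  have hEt : Et p n (-third p) = gg p n * (1 + eta p) := by
    rw [Et_third hn h3, Ot_m3 hn h3]
    unfold gg
    ring
  rw [hEt] at hsum
  have hge := gg_eta hn h3
  linear_combination (half p * u (half p) n) * hsum +
    u (half p) n * (1 - gg p n * (1 + eta p) + eta p) * hh - u (half p) n * hge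

end MPf96
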