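import Pool.Agent.H.MP_f96d9d_nt.SumU
import Pool.Agent.H.MP_f96d9d_nt.Rev
import Pool.Agent.H.MP_f96d9d_nt.Harm

/-!
# `T_(p-1)(t)` and `T_p(t)` modulo `p^2`

`harm_e p k = p / k`. `p = 2n+1`, `U = u_n`, `U^2 = (1+η)^2` (`H4`), `p U^2 = p`.

`uu_a`: for `1 ≤ i ≤ n`: `u_(n+i) u_(n-i) = h p/i`, `h = 1/2`. By `u_up` `u_(n+i) (2 i u_i) = p U`, and by
`p_u_rev` `p u_(n-i) = p U u_i`; so `u_i (2 i u_(n+i) u_(n-i)) = p U u_(n-i) = p U^2 u_i = p u_i`; cancel the
unit `u_i` (`unit_u`) and divide by `2i` (`2 h = 1`, `harm_mul_e`).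
`Tv_pm1`: `T_(2n)(t) = ∑_{j ≤ 2n} u_j u_(2n-j) t^j`: the term `j = n` is `U^2 t^n`; the terms `j = n+i`
and `j = n-i`, `1 ≤ i ≤ n`, are `h (p/i) t^(n+i)` and `h (p/i) t^(n-i)`.
`uu_b`: for `1 ≤ j ≤ n`: `u_j u_(p-j) = - h p/j`. Let `i = n+1-j`, `p - j = n + i`. `u_(n+i)(2 i u_i) = p U`,
`p u_i = p u_(n-(j-1)) = p U u_(j-1)`, and `2 j u_j = (2j-1) u_(j-1)` (`u_succ`), and
`2 i = p + 1 - 2 j`, so `p (2i) = - p (2j-1)`. Then
`2 j (2 i) u_(j-1) U (u_j u_(n+i))`... : a clean way: `(2i u_i) u_(n+i) = p U`; multiply by `2 j u_j =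
(2j-1) u_(j-1)`: `2 j (2 i) u_i (u_j u_(n+i)) = p U (2j-1) u_(j-1)`. Since `u_j u_(n+i)` is a
multiple of `p` (`u_big`), we may replace `2i` by `-(2j-1)` and `u_i` by `U u_(j-1)` on the left:
`-2 j (2j-1) U u_(j-1) (u_j u_(n+i)) = p (2j-1) U u_(j-1)`; cancel the units `2j-1`, `U`, `u_(j-1)`.
`Tv_p`: `T_p(t) = ∑_{j ≤ p} u_j u_(p-j) t^j`; `j = 0, p`: `u_p (1 + t^p)`; `1 ≤ j ≤ n`: `- h (p/j) t^j` and
the symmetric term `p - j`: `- h (p/j) t^(p-j)`.
-/

set_option autoImplicit false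

namespace MPf96

open Finset

variable {p n : ℕ} [hp : Fact p.Prime]

private theorem tva_pU (hn : p = 2 * n + 1) :
    (p : ZMod (p ^ 2)) * (u (half p) n) ^ 2 = p := by
  have h1 := H4 hn
  have h2 : (2 : ZMod (p ^ 2)) ^ (p - 1) = 1 + eta p := by
    unfold eta
    ring
  have h3 := p_eta (p := p) hn
  have h4 : ((-1 : ZMod (p ^ 2)) ^ n) ^ 2 = 1 := by
    rw [← pow_mul, mul_comm, pow_mul]
    simp
  rw [h1, h2]
  linear_combination (p : ZMod (p ^ 2)) * (1 + eta p) ^ 2 * h4 + (2 + eta p) * h3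

private theorem tva_unit {i : ℕ} (hn : p = 2 * n + 1) (h1 : 1 ≤ i) (hi : i ≤ n) :
    IsUnit (2 * (i : ZMod (p ^ 2))) := by
  have := unit_nat (p := p) (not_dvd_of_lt (m := 2 * i) (by omega) (by omega))
  push_cast at this
  exact this

theorem uu_a (hn : p = 2 * n + 1) {i : ℕ} (h1 : 1 ≤ i) (hi : i ≤ n) :
    u (half p) (n + i) * u (half p) (n - i) = half p * harm_e p i := by
  have a1 := u_up hn h1 hi
  have a2 := p_u_rev hn hi
  have a3 := tva_pU (p := p) hn
  have a4 := harm_mul_e (p := p) (k := i) (by omega) (by omega)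
  have a5 := two_half (p := p) (by omega)
  apply cancel_unit ((tva_unit hn h1 hi).mul (unit_u hn hi))
  linear_combination u (half p) (n - i) * a1 + u (half p) n * a2 + u (half p) i * a3 -
    2 * half p * u (half p) i * a4 - (p : ZMod (p ^ 2)) * u (half p) i * a5

omit hp in
private theorem tva_split {R : Type*} [CommRing R] (f : ℕ → R) (n : ℕ) :
    ∑ j ∈ range (2 * n + 1), f j =
      f n + ∑ i ∈ range n, (f (n + (i + 1)) + f (n - (i + 1))) := by
  have e1 : ∑ i ∈ range n, f (n - (i + 1)) = ∑ i ∈ range n, f i := by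
    rw [← sum_range_reflect]
    apply sum_congr rfl
    intro i hi
    have := mem_range.1 hi
    congr 1
    omega
  rw [sum_add_distrib, e1, show 2 * n + 1 = n + 1 + n by ring, sum_range_add, sum_range_succ]
  have e2 : ∑ x ∈ range n, f (n + 1 + x) = ∑ x ∈ range n, f (n + (x + 1)) := by
    apply sum_congr rfl
    intro i _
    congr 1
    omega
  rw [e2]
  ring

theorem Tv_pm1 (hn : p = 2 * n + 1) (t : ZMod (p ^ 2)) :
    Tv (half p) t (p - 1) = (u (half p) n) ^ 2 * t ^ n +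
      half p * ∑ i ∈ range n, harm_e p (i + 1) * (t ^ (n + (i + 1)) + t ^ (n - (i + 1))) := by
  have e : p - 1 = 2 * n := by omega
  rw [Tv, e, tva_split, mul_sum]
  congr 1
  · rw [show 2 * n - n = n by omega]
    ring
  · apply sum_congr rfl
    intro i hi
    have hi' := mem_range.1 hi
    have h := uu_a (p := p) hn (i := i + 1) (by omega) (by omega)
    rw [show 2 * n - (n + (i + 1)) = n - (i + 1) by omega,
      show 2 * n - (n - (i + 1)) = n + (i + 1) by omega]
    linear_combination (t ^ (n + (i + 1)) + t ^ (n - (i + 1))) * h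

theorem uu_b (hn : p = 2 * n + 1) {j : ℕ} (h1 : 1 ≤ j) (hj : j ≤ n) :
    u (half p) j * u (half p) (p - j) = -(half p * harm_e p j) := by
  obtain ⟨k, rfl⟩ : ∃ k, j = k + 1 := ⟨j - 1, by omega⟩
  have e1 : p - (k + 1) = n + (n - k) := by omega
  obtain ⟨z, hz⟩ := u_big (p := p) hn (j := n + (n - k)) (by omega) (by omega)
  have a1 := u_up (p := p) hn (i := n - k) (by omega) (by omega)
  have a2 := p_u_rev (p := p) hn (j := k) (by omega)
  have a3 := u_succ (two_half (p := p) (by omega)) k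
  have a4 := harm_mul_e (p := p) (k := k + 1) (by omega) (by omega)
  have a5 := two_half (p := p) (by omega)
  have a6 : (2 : ZMod (p ^ 2)) * ((n - k : ℕ) : ZMod (p ^ 2)) = p - 1 - 2 * k := by
    have h : 2 * (n - k) + 1 + 2 * k = p := by omega
    have h' : ((2 * (n - k) + 1 + 2 * k : ℕ) : ZMod (p ^ 2)) = (p : ZMod (p ^ 2)) := by rw [h]
    rw [Nat.cast_add, Nat.cast_add, Nat.cast_mul, Nat.cast_mul] at h'
    push_cast at h' ⊢
    linear_combination h'
  have a7 := p_sq (p := p)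
  rw [hz, a6] at a1
  have a8 : -((p : ZMod (p ^ 2)) * z * (2 * k + 1) * u (half p) k) = p := by
    apply cancel_unit (unit_un (p := p) hn)
    linear_combination a1 - z * ((p : ZMod (p ^ 2)) - 1 - 2 * k) * a2 -
      z * u (half p) n * u (half p) k * a7
  rw [e1, hz]
  apply cancel_unit (tva_unit (p := p) (i := k + 1) hn (by omega) (by omega))
  push_cast at a4 ⊢
  linear_combination (p : ZMod (p ^ 2)) * z * a3 - a8 + 2 * half p * a4 + (p : ZMod (p ^ 2)) * a5

theorem Tv_p (hn : p = 2 * n + 1) (t : ZMod (p ^ 2)) :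
    Tv (half p) t p = u (half p) p * (1 + t ^ p) -
      half p * ∑ i ∈ range n, harm_e p (i + 1) * (t ^ (i + 1) + t ^ (p - (i + 1))) := by
  set f : ℕ → ZMod (p ^ 2) := fun j => u (half p) j * u (half p) (p - j) * t ^ j with hf
  have e0 : Tv (half p) t p = ∑ j ∈ range (n + 1 + n + 1), f j := by
    rw [Tv, show n + 1 + n + 1 = p + 1 by omega]
  have e1 : ∑ x ∈ range n, f (n + 1 + x) = ∑ i ∈ range n, f (p - (i + 1)) := by
    rw [← sum_range_reflect]
    apply sum_congr rfl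
    intro i hi
    have := mem_range.1 hi
    congr 1
    omega
  rw [e0, sum_range_succ, sum_range_add, sum_range_succ', e1]
  have e2 : f (n + 1 + n) = u (half p) p * t ^ p := by
    have : n + 1 + n = p := by omega
    rw [this, hf]
    simp only [Nat.sub_self, u_zero]
    ring
  have e3 : f 0 = u (half p) p := by
    rw [hf]
    simp [u_zero]
  have e4 : ∑ i ∈ range n, f (i + 1) =
      -(half p * ∑ i ∈ range n, harm_e p (i + 1) * t ^ (i + 1)) := by
    rw [mul_sum, ← sum_neg_distrib]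
    apply sum_congr rfl
    intro i hi
    have hi' := mem_range.1 hi
    have h := uu_b (p := p) hn (j := i + 1) (by omega) (by omega)
    rw [hf]
    linear_combination t ^ (i + 1) * h
  have e5 : ∑ i ∈ range n, f (p - (i + 1)) =
      -(half p * ∑ i ∈ range n, harm_e p (i + 1) * t ^ (p - (i + 1))) := by
    rw [mul_sum, ← sum_neg_distrib]
    apply sum_congr rfl
    intro i hi
    have hi' := mem_range.1 hi
    have h := uu_b (p := p) hn (j := i + 1) (by omega) (by omega)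
    rw [hf]
    simp only []
    rw [show p - (p - (i + 1)) = i + 1 by omega]
    linear_combination t ^ (p - (i + 1)) * h
  have e6 : ∑ i ∈ range n, harm_e p (i + 1) * (t ^ (i + 1) + t ^ (p - (i + 1))) =
      ∑ i ∈ range n, harm_e p (i + 1) * t ^ (i + 1) +
      ∑ i ∈ range n, harm_e p (i + 1) * t ^ (p - (i + 1)) := by
    rw [← sum_add_distrib]
    apply sum_congr rfl
    intro i _
    ring
  rw [e2, e3, e4, e5, e6]
  ring

end MPf96
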