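import Pool.Agent.H.MP_f96d9d_nt.Q2.TeleZ
import Pool.Agent.H.MP_f96d9d_nt.Q2.CubeD
import Pool.Agent.H.MP_f96d9d_nt.Harm

/-!
# `V = VK` for `M = 3n(p+1)`, `K = p`: differential equation, ends

`VV p n = VK (half p) (third p) (3n(p+1)) p = (1-X) ∑_{k<p} 27^k X^k fq^(M-3k) TX_k^3`.
`VV_ode`: `Ld_V` with `2M + 3 = 6n(p+1) + 3 = 3((p-1)(p+1) + 1) = 3p^2 = 0`; `3p ≤ M + 3` since `n ≥ 1`
(`3p = 6n + 3 ≤ 3n(p+1) + 3` as `p + 1 ≥ 4`).
`VV_zero`: only `k = 0` contributes: `fq(0)^M = (-1)^M = 1` (`p + 1` is even).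
Degrees: `(1-X) X^k fq^(M-3k) TX_k^3` has degree at most `1 + k + M - 3k + 3k = M + k + 1` for `k ≤ n`
(`cube_low`) and at most `1 + k + (M - 3k) + (2n + k) = M + 2n + 1 - k` for `k = n+i` (`cube_up`,
`3n + i = 2n + k`); so all are at most `M + n + 1 = 3np + 4n + 1` and only `k = n` reaches it
(`VV_deg`). `VV_top`: the coefficient at `M+n+1` is `- 27^n 4^(M-3n) (U^3 (4w)^(3n)) = - 4^M U^3`
(`27 w^3 = 1`; the coefficient of `X^e` in `fq^e` is `4^e`; use the product rule for top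
coefficients `Polynomial.coeff_mul_of_natDegree_le`). `4^M = (4^(np))^3 (4^(3n))`,
`4^(np) = 2^(p(p-1)) = 1` in `ZMod (p^2)` (Euler: `ZMod.pow_totient`,
`Nat.totient_prime_pow`), `U^3 = (-1)^(3n) (1+η)^3 = (-1)^(3n) (1 + 3η)` (`H4`, `η^2 = 0`); so the
value is `- (-4)^(3n) (1 + 3η)`.
-/

set_option autoImplicit false

namespace MPf96

open Polynomial Finset

/-- the polynomial `V` -/
noncomputable def VV (p n : ℕ) : (ZMod (p ^ 2))[X] :=
  VK (half p) (third p) (3 * n * (p + 1)) p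

variable {p n : ℕ} [hp : Fact p.Prime]

theorem vtop_fq {R : Type*} [CommRing R] (e : ℕ) :
    ((fq : R[X]) ^ e).natDegree ≤ e ∧ ((fq : R[X]) ^ e).coeff e = 4 ^ e := by
  have h := comp_top (R := R) 1 (P := X ^ e) (d := e) (natDegree_X_pow_le e)
  rw [C_1, one_mul, X_pow_comp, coeff_X_pow, if_pos rfl, one_mul, mul_one] at h
  exact h

/-- the term of `VV` -/
noncomputable def vtop_t (p n k : ℕ) : (ZMod (p ^ 2))[X] :=
  C (27 ^ k) * (X ^ k * fq ^ (3 * n * (p + 1) - 3 * k)) * TX (half p) (third p) k ^ 3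

theorem vtop_eq (p n : ℕ) : VV p n = (1 - X) * ∑ k ∈ range p, vtop_t p n k := rfl

theorem vtop_mul {R : Type*} [CommRing R] {A B : R[X]} (a : R) {i j : ℕ} (hA : A.natDegree ≤ i)
    (hB : B.natDegree ≤ j) : (C a * A * B).natDegree ≤ i + j ∧
      (C a * A * B).coeff (i + j) = a * (A.coeff i * B.coeff j) := by
  constructor
  · have h1 : (C a * A).natDegree ≤ i := (natDegree_C_mul_le a A).trans hA
    exact natDegree_mul_le_of_le h1 hB
  · rw [mul_assoc, coeff_C_mul, coeff_mul_add_eq_of_natDegree_le hA hB]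

theorem vtop_XF {R : Type*} [CommRing R] (k e : ℕ) :
    ((X : R[X]) ^ k * fq ^ e).natDegree ≤ k + e ∧ ((X : R[X]) ^ k * fq ^ e).coeff (k + e) = 4 ^ e := by
  have h := vtop_fq (R := R) e
  constructor
  · exact natDegree_mul_le_of_le (natDegree_X_pow_le k) h.1
  · rw [coeff_mul_add_eq_of_natDegree_le (natDegree_X_pow_le k) h.1, coeff_X_pow, if_pos rfl,
      one_mul, h.2]

theorem vtop_M (hn : p = 2 * n + 1) {k : ℕ} (hk : k < p) : 3 * k ≤ 3 * n * (p + 1) := by
  have h1 : 3 * n * 2 ≤ 3 * n * (p + 1) := Nat.mul_le_mul_left _ (by omega)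
  omega

theorem vtop_low (hn : p = 2 * n + 1) {k : ℕ} (hk : k ≤ n) :
    (vtop_t p n k).natDegree ≤ 3 * n * (p + 1) + k ∧
      (vtop_t p n k).coeff (3 * n * (p + 1) + k) =
        27 ^ k * (4 ^ (3 * n * (p + 1) - 3 * k) * ((u (half p) k) ^ 3 * (4 * third p) ^ (3 * k))) := by
  have hM := vtop_M hn (k := k) (by omega)
  have h1 := vtop_XF (R := ZMod (p ^ 2)) k (3 * n * (p + 1) - 3 * k)
  have h2 := cube_low (p := p) (third p) k
  have h3 := vtop_mul (27 ^ k) h1.1 h2.1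
  rw [h1.2, h2.2] at h3
  have e : k + (3 * n * (p + 1) - 3 * k) + 3 * k = 3 * n * (p + 1) + k := by omega
  rw [e] at h3
  exact h3

theorem vtop_up (hn : p = 2 * n + 1) {i : ℕ} (h1 : 1 ≤ i) (hi : i ≤ n) :
    (vtop_t p n (n + i)).natDegree ≤ 3 * n * (p + 1) + (n - i) := by
  have hM := vtop_M hn (k := n + i) (by omega)
  have h2 := vtop_XF (R := ZMod (p ^ 2)) (n + i) (3 * n * (p + 1) - 3 * (n + i))
  have h3 := cube_up hn (third p) h1 hi
  have h4 := (vtop_mul (27 ^ (n + i)) h2.1 h3.1).1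
  have e : n + i + (3 * n * (p + 1) - 3 * (n + i)) + (3 * n + i) = 3 * n * (p + 1) + (n - i) := by
    omega
  rw [e] at h4
  exact h4

theorem vtop_deg (hn : p = 2 * n + 1) {k : ℕ} (hk : k < p) :
    (vtop_t p n k).natDegree ≤ 3 * n * (p + 1) + n ∧
      (k ≠ n → (vtop_t p n k).coeff (3 * n * (p + 1) + n) = 0) := by
  rcases Nat.lt_or_ge n k with h | h
  · obtain ⟨i, rfl⟩ := Nat.exists_eq_add_of_lt h
    have h1 := vtop_up (p := p) hn (i := i + 1) (by omega) (by omega)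
    have e : n + (i + 1) = n + i + 1 := by omega
    rw [e] at h1
    refine ⟨h1.trans (by omega), fun _ => ?_⟩
    exact coeff_eq_zero_of_natDegree_lt (lt_of_le_of_lt h1 (by omega))
  · have h1 := (vtop_low (p := p) hn h).1
    refine ⟨h1.trans (by omega), fun hne => ?_⟩
    exact coeff_eq_zero_of_natDegree_lt (lt_of_le_of_lt h1 (by omega))

theorem vtop_sum (hn : p = 2 * n + 1) :
    (∑ k ∈ range p, vtop_t p n k).natDegree ≤ 3 * n * (p + 1) + n ∧
      (∑ k ∈ range p, vtop_t p n k).coeff (3 * n * (p + 1) + n) =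
        27 ^ n * (4 ^ (3 * n * (p + 1) - 3 * n) *
          ((u (half p) n) ^ 3 * (4 * third p) ^ (3 * n))) := by
  constructor
  · exact natDegree_sum_le_of_forall_le _ _ fun k hk => (vtop_deg hn (mem_range.1 hk)).1
  · rw [finset_sum_coeff, Finset.sum_eq_single n]
    · exact (vtop_low hn le_rfl).2
    · intro k hk hne
      exact (vtop_deg hn (mem_range.1 hk)).2 hne
    · intro h
      exact absurd (mem_range.2 (by omega)) h

theorem vtop_euler (hn : p = 2 * n + 1) : (4 : ZMod (p ^ 2)) ^ (n * p) = 1 := by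
  have h2 : ¬ p ∣ 2 := by
    intro h
    have := (Nat.prime_dvd_prime_iff_eq hp.out Nat.prime_two).1 h
    omega
  obtain ⟨x, hx⟩ := unit_nat (p := p) h2
  have h1 := ZMod.pow_totient x
  have h3 := congrArg (fun y : (ZMod (p ^ 2))ˣ => (y : ZMod (p ^ 2))) h1
  simp only [Units.val_pow_eq_pow_val, Units.val_one] at h3
  rw [hx, Nat.totient_prime_pow hp.out (by norm_num)] at h3
  have e : (4 : ZMod (p ^ 2)) = ((2 : ℕ) : ZMod (p ^ 2)) ^ 2 := by
    push_cast
    norm_num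
  have e2 : 2 * (n * p) = p ^ (2 - 1) * (p - 1) := by
    have : p - 1 = 2 * n := by omega
    rw [this]
    ring
  rw [e, ← pow_mul, e2]
  exact h3

theorem VV_ode (hn : p = 2 * n + 1) (h3 : p ≠ 3) : Ld (0 : ZMod (p ^ 2)) (VV p n) = 0 := by
  have h2 : p ≠ 2 := by omega
  have hpn : (p : ZMod (p ^ 2)) = 2 * (n : ZMod (p ^ 2)) + 1 := by
    have := congrArg (fun m : ℕ => (m : ZMod (p ^ 2))) hn
    push_cast at this
    exact this
  refine Ld_V (two_half h2) (three_third h3) ?_ p_sq ?_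
  · push_cast
    linear_combination 3 * p_sq (p := p) - 3 * ((p : ZMod (p ^ 2)) + 1) * hpn
  · have h1 : 3 * n * 2 ≤ 3 * n * (p + 1) := Nat.mul_le_mul_left _ (by omega)
    omega

theorem VV_zero (hn : p = 2 * n + 1) : (VV p n).coeff 0 = 1 := by
  have hp0 : 0 < p := by omega
  rw [vtop_eq, mul_coeff_zero, finset_sum_coeff, Finset.sum_eq_single 0]
  · have e : vtop_t p n 0 = fq ^ (3 * n * (p + 1)) := by
      unfold vtop_t
      rw [TX_zero, pow_zero, pow_zero, C_1, one_mul, one_mul, one_pow, mul_one, mul_zero,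
        Nat.sub_zero]
    have e2 : (fq : (ZMod (p ^ 2))[X]).coeff 0 = -1 := by
      unfold fq
      rw [coeff_sub, mul_coeff_zero, coeff_X_zero, mul_zero, coeff_one_zero, zero_sub]
    have e3 : Even (3 * n * (p + 1)) := by
      rw [hn]
      exact ⟨3 * n * (n + 1), by ring⟩
    rw [e, coeff_zero_eq_eval_zero, coeff_zero_eq_eval_zero, eval_pow,
      ← coeff_zero_eq_eval_zero fq, e2, e3.neg_one_pow, eval_sub, eval_one, eval_X, sub_zero, mul_one]
  · intro k _ hk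
    unfold vtop_t
    rw [mul_coeff_zero, mul_coeff_zero, mul_coeff_zero, coeff_X_pow, if_neg (Ne.symm hk), zero_mul,
      mul_zero, zero_mul]
  · intro h
    exact absurd (mem_range.2 hp0) h

theorem vtop_num (n p : ℕ) : 3 * n * p + 4 * n + 1 = 3 * n * (p + 1) + n + 1 := by
  ring

theorem VV_deg (hn : p = 2 * n + 1) : (VV p n).natDegree ≤ 3 * n * p + 4 * n + 1 := by
  rw [vtop_eq, vtop_num, mul_comm]
  refine natDegree_mul_le_of_le (vtop_sum hn).1 ?_
  exact (natDegree_sub_le _ _).trans (max_le (by rw [natDegree_one]; omega) natDegree_X_le)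

theorem VV_top (hn : p = 2 * n + 1) (h3 : p ≠ 3) :
    (VV p n).coeff (3 * n * p + 4 * n + 1) = -((-4) ^ (3 * n) * (1 + 3 * eta p)) := by
  have hs := vtop_sum (p := p) hn
  rw [vtop_eq, vtop_num, sub_mul, one_mul, coeff_sub, coeff_X_mul, hs.2,
    coeff_eq_zero_of_natDegree_lt (lt_of_le_of_lt hs.1 (Nat.lt_succ_self _)), zero_sub, H4 hn]
  have hw := three_third (p := p) h3
  have hw3 : (27 : ZMod (p ^ 2)) ^ n * (third p) ^ (3 * n) = 1 := by
    have e : (27 : ZMod (p ^ 2)) * (third p) ^ 3 = 1 := by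
      linear_combination (9 * (third p) ^ 2 + 3 * third p + 1) * hw
    rw [pow_mul, ← mul_pow, e, one_pow]
  have hM : 3 * n * (p + 1) - 3 * n = 3 * (n * p) := by
    have : 3 * n * (p + 1) = 3 * (n * p) + 3 * n := by ring
    omega
  have h4 : (4 : ZMod (p ^ 2)) ^ (3 * (n * p)) = 1 := by
    rw [mul_comm, pow_mul, vtop_euler hn, one_pow]
  have h5 : ((2 : ZMod (p ^ 2)) ^ (p - 1)) ^ 3 = 1 + 3 * eta p := by
    have e : (2 : ZMod (p ^ 2)) ^ (p - 1) = 1 + eta p := by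
      unfold eta
      ring
    rw [e]
    linear_combination (3 + eta p) * eta_sq hn
  have h6 : (-4 : ZMod (p ^ 2)) ^ (3 * n) = ((-1) ^ n) ^ 3 * 4 ^ (3 * n) := by
    rw [← pow_mul, mul_comm n 3, ← mul_pow]
    congr 1
    ring
  rw [hM, h4, mul_pow ((-1 : ZMod (p ^ 2)) ^ n), h5, mul_pow 4 (third p), h6]
  linear_combination (-(((-1 : ZMod (p ^ 2)) ^ n) ^ 3 * (1 + 3 * eta p) * 4 ^ (3 * n))) * hw3

end MPf96
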