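import Pool.Agent.H.MP_f96d9d_nt.Q2.TeleZ
import Pool.Agent.H.MP_f96d9d_nt.Q2.DomV

/-!
# Low coefficients of `VK`

`valA_dvd`: by `Ld_VK` `(1-X)^2 fq^5 Ld 0 VK = C(27^K) X^K (...)`; the coefficients of `Ld 0 VK` below
`K` vanish: by induction on the index, since `(1-X)^2 fq^5` has constant coefficient `-1`
(or: `X^K ∣ ((1-X)^2 fq^5) g`, and `IsCoprime (X^K) ((1-X)^2 fq^5)`: `fq = 4X - 1` and `X` are coprime,
`1 - X` and `X` are coprime; `IsCoprime.dvd_of_dvd_mul_left`).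
`valA_rec`, `valA_rec1`: `coeff_Ld`, `coeff_Ld_one` with `s = 0`.
`valA_zero`: constant coefficient: only `k = 0` contributes, `(-1)^M = 1`.
`valA_p`: let `q = p^6`, `φ : ZMod q →+* ZMod (p^2)` (`ZMod.castHom`), `h6 = 2⁻¹`, `w6 = 3⁻¹` in `ZMod q`
(2 and 3 are prime to `p`), `M = 3 ((p^6-1)/2)`, so `2M + 3 = 3 p^6 = 0` in `ZMod q`, `M` is even
(`8` divides `p^6 - 1`), `K = p+1`, `3K ≤ M + 3`. Let `v_m` be the coefficients of `VK h6 w6 M K`.
For `m < p`: `v_m = D_m` in `ZMod q` (strong induction: `m^3 v_m = ...` is the recurrence of the Domb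
numbers, `dom_rec`, and `m` is a unit for `0 < m < p`); for `m = p` (`m < K`):
`p^3 (v_p - D_p) = 0` in `ZMod (p^6)`, hence `φ (v_p - D_p) = 0` (`p^3 x ≡ 0 mod p^6` implies
`p^3 ∣ x`). `φ(VK h6 w6 M K) = VK (φ h6) (φ w6) M K` (`Polynomial.map`; `u`, `Tp`, `TX`, `fq` commute with
`map`) and `φ h6 = half p`, `φ w6 = third p` (uniqueness of inverses). So the coefficient is
`D_p = 4` in `ZMod (p^2)` (`dom_p`).
-/

set_option autoImplicit false

namespace MPf96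

open Polynomial Finset

section ring

variable {R : Type*} [CommRing R] {h w : R}

theorem vala_cop : IsCoprime (X : R[X]) ((1 - X) ^ 2 * fq ^ 5) := by
  have h1 : IsCoprime (X : R[X]) (1 - X) := ⟨1, 1, by ring⟩
  have h2 : IsCoprime (X : R[X]) fq := ⟨4, -1, by unfold fq; ring⟩
  exact (h1.pow_right).mul_right h2.pow_right

theorem valA_dvd (hh : 2 * h = 1) (hw : 3 * w = 1) {M : ℕ} (hM : 2 * (M : R) + 3 = 0) {K : ℕ}
    (hK : 3 * K ≤ M + 3) {m : ℕ} (hm : m < K) : (Ld (0 : R) (VK h w M K)).coeff m = 0 := by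
  have h1 := Ld_VK hh hw hM K hK
  have h2 : (X : R[X]) ^ K ∣ ((1 - X) ^ 2 * fq ^ 5) * Ld (0 : R) (VK h w M K) := by
    rw [h1]
    exact ⟨C (27 ^ K) * fq ^ (M + 3 - 3 * K) * gz (K : R[X]) ((K : R[X]) * TX h w K)
      (TB h w K), by ring⟩
  have h3 : (X : R[X]) ^ K ∣ Ld (0 : R) (VK h w M K) :=
    (vala_cop.pow_left).dvd_of_dvd_mul_left h2
  exact (X_pow_dvd_iff.1 h3) m hm

theorem valA_rec (hh : 2 * h = 1) (hw : 3 * w = 1) {M : ℕ} (hM : 2 * (M : R) + 3 = 0) {K : ℕ}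
    (hK : 3 * K ≤ M + 3) {m : ℕ} (hm : m + 2 < K) :
    rc ((m : R) + 2) ((VK h w M K).coeff (m + 2)) ((VK h w M K).coeff (m + 1))
      ((VK h w M K).coeff m) = 0 := by
  have h1 := valA_dvd hh hw hM hK hm
  rw [coeff_Ld, sub_zero] at h1
  exact h1

theorem valA_rec1 (hh : 2 * h = 1) (hw : 3 * w = 1) {M : ℕ} (hM : 2 * (M : R) + 3 = 0) {K : ℕ}
    (hK : 3 * K ≤ M + 3) (hm : 1 < K) :
    rc (1 : R) ((VK h w M K).coeff 1) ((VK h w M K).coeff 0) 0 = 0 := by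
  have h1 := valA_dvd hh hw hM hK hm
  rw [coeff_Ld_one, sub_zero] at h1
  exact h1

theorem valA_zero {M : ℕ} (hM : Even M) {K : ℕ} (hK : 0 < K) : (VK h w M K).coeff 0 = 1 := by
  rw [coeff_zero_eq_eval_zero]
  unfold VK
  rw [eval_mul, eval_finset_sum, Finset.sum_eq_single 0]
  · simp [fq, TX_zero, hM.neg_one_pow]
  · intro b _ hb
    simp [hb]
  · intro h
    exact absurd (mem_range.2 hK) h

end ring

section map

variable {R S : Type*} [CommRing R] [CommRing S]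

theorem vala_u (φ : R →+* S) (h : R) (j : ℕ) : φ (u h j) = u (φ h) j := by
  unfold u
  rw [map_mul, map_natCast, map_pow]

theorem vala_Tp (φ : R →+* S) (h : R) (k : ℕ) : (Tp h k).map φ = Tp (φ h) k := by
  unfold Tp
  rw [Polynomial.map_sum]
  refine sum_congr rfl fun j _ => ?_
  rw [Polynomial.map_mul, map_C, Polynomial.map_pow, map_X, map_mul, vala_u, vala_u]

theorem vala_fq (φ : R →+* S) : (fq : R[X]).map φ = fq := by
  unfold fq
  rw [Polynomial.map_sub, Polynomial.map_mul, Polynomial.map_ofNat, map_X, Polynomial.map_one]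

theorem vala_TX (φ : R →+* S) (h w : R) (k : ℕ) : (TX h w k).map φ = TX (φ h) (φ w) k := by
  unfold TX
  rw [map_comp, vala_Tp, Polynomial.map_mul, map_C, vala_fq]

theorem vala_VK (φ : R →+* S) (h w : R) (M K : ℕ) :
    (VK h w M K).map φ = VK (φ h) (φ w) M K := by
  unfold VK
  rw [Polynomial.map_mul, Polynomial.map_sum, Polynomial.map_sub, Polynomial.map_one, map_X]
  congr 1
  refine sum_congr rfl fun k _ => ?_
  simp only [Polynomial.map_mul, Polynomial.map_pow, map_C, map_X, vala_fq, vala_TX, map_pow,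
    map_ofNat, Polynomial.map_ofNat]

end map

section val

variable {p : ℕ} [hp : Fact p.Prime]

theorem vala_unit {m : ℕ} (hm : ¬ p ∣ m) : IsUnit (m : ZMod (p ^ 6)) := by
  rw [ZMod.isUnit_iff_coprime]
  exact Nat.Coprime.pow_right 6 ((Nat.Prime.coprime_iff_not_dvd hp.out).2 hm).symm

theorem vala_mod4 {n : ℕ} (hn : p = 2 * n + 1) : p ^ 6 % 4 = 1 := by
  have h : p % 4 = 1 ∨ p % 4 = 3 := by omega
  rcases h with h | h <;> rw [Nat.pow_mod, h]

theorem vala_ge (h5 : 5 ≤ p) : 5 * p ≤ p ^ 6 := by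
  calc 5 * p ≤ p * p := Nat.mul_le_mul_right p h5
    _ = p ^ 2 := (sq p).symm
    _ ≤ p ^ 6 := Nat.pow_le_pow_right (by omega) (by norm_num)

theorem vala_step {v : ℕ → ZMod (p ^ 6)} {m : ℕ}
    (h : rc ((m : ZMod (p ^ 6)) + 2) (v (m + 2)) (v (m + 1)) (v m) = 0)
    (h0 : v m = ((dom m : ℤ) : ZMod (p ^ 6))) (h1 : v (m + 1) = ((dom (m + 1) : ℤ) : ZMod (p ^ 6))) :
    ((m + 2 : ℕ) : ZMod (p ^ 6)) ^ 3 * (v (m + 2) - ((dom (m + 2) : ℤ) : ZMod (p ^ 6))) = 0 := by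
  have hD := congrArg (Int.cast : ℤ → ZMod (p ^ 6)) (dom_rec m)
  push_cast at hD ⊢
  unfold rc at h
  rw [h0, h1] at h
  linear_combination h - hD

theorem vala_red {x : ZMod (p ^ 6)} (hx : (p : ZMod (p ^ 6)) ^ 3 * x = 0)
    (hd : p ^ 2 ∣ p ^ 6) : (ZMod.castHom hd (ZMod (p ^ 2))) x = 0 := by
  have : NeZero (p ^ 6) := ⟨pow_ne_zero 6 hp.out.ne_zero⟩
  obtain ⟨m, rfl⟩ : ∃ m : ℕ, (m : ZMod (p ^ 6)) = x := ⟨x.val, ZMod.natCast_zmod_val x⟩
  have h1 : ((p ^ 3 * m : ℕ) : ZMod (p ^ 6)) = 0 := by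
    push_cast
    exact hx
  rw [ZMod.natCast_eq_zero_iff] at h1
  have h2 : p ^ 3 * p ^ 3 ∣ p ^ 3 * m := by
    have e : p ^ 3 * p ^ 3 = p ^ 6 := by ring
    rw [e]
    exact h1
  have h3 : p ^ 3 ∣ m := Nat.dvd_of_mul_dvd_mul_left (pow_pos hp.out.pos 3) h2
  rw [map_natCast, ZMod.natCast_eq_zero_iff]
  exact (pow_dvd_pow p (by norm_num)).trans h3

theorem vala_low {v : ℕ → ZMod (p ^ 6)} (h0 : v 0 = 1) (h1 : rc (1 : ZMod (p ^ 6)) (v 1) (v 0) 0 = 0)
    (hr : ∀ m, m + 2 < p + 1 →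
      rc ((m : ZMod (p ^ 6)) + 2) (v (m + 2)) (v (m + 1)) (v m) = 0) (m : ℕ) :
    (m < p → v m = ((dom m : ℤ) : ZMod (p ^ 6))) ∧
      (m + 1 < p → v (m + 1) = ((dom (m + 1) : ℤ) : ZMod (p ^ 6))) := by
  induction m with
  | zero =>
    refine ⟨fun _ => ?_, fun _ => ?_⟩
    · rw [h0, dom_zero]
      norm_num
    · rw [zero_add, dom_one]
      unfold rc at h1
      rw [h0] at h1
      push_cast
      linear_combination h1
  | succ m ih =>
    refine ⟨ih.2, fun hm => ?_⟩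
    have h2 := vala_step (hr m (by omega)) (ih.1 (by omega)) (ih.2 (by omega))
    have hu : IsUnit (((m + 2 : ℕ) : ZMod (p ^ 6)) ^ 3) :=
      (vala_unit (not_dvd_of_lt (by omega) (by omega))).pow 3
    exact sub_eq_zero.1 (eq_zero_of_unit_mul hu h2)

end val

theorem valA_p {p n : ℕ} [hp : Fact p.Prime] (hn : p = 2 * n + 1) (h3 : p ≠ 3) :
    (VK (half p) (third p) (3 * ((p ^ 6 - 1) / 2)) (p + 1)).coeff p = 4 := by
  have hp2 : p ≠ 2 := by omega
  have hp5 : 5 ≤ p := by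
    have := hp.out.two_le
    omega
  have h2n : ¬ p ∣ 2 := fun h => hp2 ((Nat.prime_dvd_prime_iff_eq hp.out Nat.prime_two).1 h)
  have h3n : ¬ p ∣ 3 := fun h => h3 ((Nat.prime_dvd_prime_iff_eq hp.out Nat.prime_three).1 h)
  have hh : 2 * (2 : ZMod (p ^ 6))⁻¹ = 1 := by
    have := ZMod.mul_inv_of_unit _ (vala_unit (p := p) h2n)
    exact_mod_cast this
  have hw : 3 * (3 : ZMod (p ^ 6))⁻¹ = 1 := by
    have := ZMod.mul_inv_of_unit _ (vala_unit (p := p) h3n)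
    exact_mod_cast this
  obtain ⟨h6, hh6⟩ : ∃ h6, h6 = (2 : ZMod (p ^ 6))⁻¹ := ⟨_, rfl⟩
  obtain ⟨w6, hw6⟩ : ∃ w6, w6 = (3 : ZMod (p ^ 6))⁻¹ := ⟨_, rfl⟩
  rw [← hh6] at hh
  rw [← hw6] at hw
  have hmod := vala_mod4 hn
  have hge := vala_ge hp5
  obtain ⟨M, hMdef⟩ : ∃ M, M = 3 * ((p ^ 6 - 1) / 2) := ⟨_, rfl⟩
  rw [← hMdef]
  have hM2 : 2 * M + 3 = 3 * p ^ 6 := by omega
  have hMe : Even M := by
    rw [Nat.even_iff]
    omega
  have hK : 3 * (p + 1) ≤ M + 3 := by omega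
  have hM : 2 * (M : ZMod (p ^ 6)) + 3 = 0 := by
    have h1 : ((2 * M + 3 : ℕ) : ZMod (p ^ 6)) = 0 := by
      rw [hM2, ZMod.natCast_eq_zero_iff]
      exact Dvd.intro_left 3 rfl
    push_cast at h1
    exact h1
  have hlow := vala_low (p := p) (v := fun m => (VK h6 w6 M (p + 1)).coeff m)
    (valA_zero hMe (by omega)) (valA_rec1 hh hw hM hK (by omega))
    (fun m hm => valA_rec hh hw hM hK hm) (p - 2)
  have hst := vala_step (p := p) (v := fun m => (VK h6 w6 M (p + 1)).coeff m) (m := p - 2)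
    (valA_rec hh hw hM hK (by omega)) (hlow.1 (by omega)) (hlow.2 (by omega))
  have e1 : p - 2 + 2 = p := by omega
  rw [e1] at hst
  have hd : p ^ 2 ∣ p ^ 6 := pow_dvd_pow p (by norm_num)
  have hred := vala_red hst hd
  rw [map_sub, sub_eq_zero, map_intCast] at hred
  have e2 : (ZMod.castHom hd (ZMod (p ^ 2))) h6 = half p := by
    have h1 := congrArg (ZMod.castHom hd (ZMod (p ^ 2))) hh
    rw [map_mul, map_ofNat, map_one] at h1
    have h2 := two_half (p := p) hp2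
    linear_combination (half p) * h1 - ((ZMod.castHom hd (ZMod (p ^ 2))) h6) * h2
  have e3 : (ZMod.castHom hd (ZMod (p ^ 2))) w6 = third p := by
    have h1 := congrArg (ZMod.castHom hd (ZMod (p ^ 2))) hw
    rw [map_mul, map_ofNat, map_one] at h1
    have h2 := three_third (p := p) h3
    linear_combination (third p) * h1 - ((ZMod.castHom hd (ZMod (p ^ 2))) w6) * h2
  have e4 := vala_VK (ZMod.castHom hd (ZMod (p ^ 2))) h6 w6 M (p + 1)
  rw [e2, e3] at e4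
  rw [← e4, coeff_map, hred]
  exact dom_p hn

end MPf96
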