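import Pool.Agent.H.MP_f96d9d_nt.Q2.TeleP
import Pool.Agent.H.MP_f96d9d_nt.Q2.CubeD
import Pool.Agent.H.MP_f96d9d_nt.Q2.TopP
import Pool.Agent.H.MP_f96d9d_nt.Q2.CP
import Pool.Agent.H.MP_f96d9d_nt.Q2.Block

/-!
# The coefficients of `Y2`

`Y2 = (1-X) S`, `S = ∑_{k<p} T_k^3 X^(2n-k)`, `T_k = TX`, `w = third p`, `p = 2n+1`.
`S_deg`: each term has degree at most `4n`: for `k ≤ n`: `3k + 2n - k = 2n + 2k ≤ 4n` with equality only
for `k = n`; for `k = n+i`: `3n + i + 2n - (n+i) = 4n` (`cube_low`, `cube_up`). The coefficient of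
`X^(4n)` in `S` is `u_n^3 (4w)^(3n) + ∑_{i=1}^n 3 (u_n u_i)^2 u_(n+i) (4w)^(3n+i)
= (4w)^(3n) [U^3 + 3 U^2 ∑ u_i^2 u_(n+i) (4w)^i] = (4w)^(3n) U^3 [1 + 3 (1-g)]` by `TopP`.
`S_top_val`: this is `ep (1 + 6η)`: `4^n = 2^(p-1) = 1+η`, `w^n (-1)^n = (-w)^n = ep g`,
`U = (-1)^n (1+η)` (`H4`): `(4w)^(3n) U^3 = (4^n (w^n (-1)^n) (1+η))^3 ... = ((1+η) ep g (1+η))^3
= ep^3 (1+2η)^3 g^3 = ep (1 + 6η) g^3` and `g^3 (4 - 3 g) = 1` because with `d = g - 1`, `d^2 = 0`:
`(1 + 3d)(1 - 3d) = 1`; also `η g = η`.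
So `Y2` has degree at most `4n+1 = 2p-1` (`Y2_deg`), with coefficient `- ep (1 + 6η)` at `2p-1` (`Y2_top`).
`Y2_zero`: the coefficient of `X^0` in `S` is `(TX (2n)).coeff 0 ^ 3`, and
`(TX h w k).coeff 0 = Tv h (-w) k` (evaluate at 0: `eval_comp`, `eval_Tp`); `C0P` gives `ep^3 = ep`.
`Y2_p`: `block` with `ς = 1`, `r = 1`, `j = p-1` (`Ld_Y2`): `Y2_(2p-1) = Y2_p * yy 0 (p-1)`,
`yy 0 (p-1) = D_(p-1) = 1 + 6η` (`dom_top`), a unit.
-/

set_option autoImplicit false

namespace MPf96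

open Polynomial Finset

variable {p n : ℕ} [hp : Fact p.Prime]

theorem TX_coeff_zero {R : Type*} [CommRing R] (h w : R) (k : ℕ) :
    (TX h w k).coeff 0 = Tv h (-w) k := by
  rw [coeff_zero_eq_eval_zero]
  unfold TX
  rw [eval_comp, eval_Tp]
  have e : eval 0 (C w * fq) = -w := by
    unfold fq
    simp
  rw [e]

theorem y2deg_two (hn : p = 2 * n + 1) : p ≠ 2 := by
  have := hp.out.two_le
  omega

/-- the sum without the factor `1 - X` -/
noncomputable def y2deg_S (p : ℕ) : (ZMod (p ^ 2))[X] :=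
  ∑ k ∈ range p, TX (half p) (third p) k ^ 3 * X ^ (p - 1 - k)

theorem y2deg_term_low (hn : p = 2 * n + 1) {k : ℕ} (hk : k ≤ n) :
    (TX (half p) (third p) k ^ 3 * X ^ (p - 1 - k)).natDegree ≤ 4 * n := by
  refine natDegree_mul_le.trans ?_
  have h1 := (cube_low (third p) k).1
  have h2 : (X ^ (p - 1 - k) : (ZMod (p ^ 2))[X]).natDegree ≤ p - 1 - k := natDegree_X_pow_le _
  omega

theorem y2deg_term_up (hn : p = 2 * n + 1) {i : ℕ} (hi : i < n) :
    (TX (half p) (third p) (n + (i + 1)) ^ 3 * X ^ (p - 1 - (n + (i + 1)))).natDegree ≤ 4 * n := by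
  refine natDegree_mul_le.trans ?_
  have h1 := (cube_up hn (third p) (i := i + 1) (by omega) (by omega)).1
  have h2 : (X ^ (p - 1 - (n + (i + 1))) : (ZMod (p ^ 2))[X]).natDegree ≤
      p - 1 - (n + (i + 1)) := natDegree_X_pow_le _
  omega

theorem y2deg_S_deg (hn : p = 2 * n + 1) : (y2deg_S p).natDegree ≤ 4 * n := by
  unfold y2deg_S
  refine natDegree_sum_le_of_forall_le _ _ fun k hk => ?_
  have hk' := mem_range.1 hk
  by_cases hkn : k ≤ n
  · exact y2deg_term_low hn hkn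
  · obtain ⟨i, rfl⟩ : ∃ i, k = n + (i + 1) := ⟨k - n - 1, by omega⟩
    exact y2deg_term_up hn (by omega)

theorem y2deg_S_coeff (hn : p = 2 * n + 1) :
    (y2deg_S p).coeff (4 * n) = (u (half p) n) ^ 3 * (4 * third p) ^ (3 * n) +
      ∑ i ∈ range n, 3 * (u (half p) n * u (half p) (i + 1)) ^ 2 * u (half p) (n + (i + 1)) *
        (4 * third p) ^ (3 * n + (i + 1)) := by
  unfold y2deg_S
  rw [finsetSum_coeff]
  have hr : range p = range (n + 1 + n) := by
    rw [hn]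
    congr 1
    omega
  rw [hr, sum_range_add, sum_range_succ]
  have h1 : ∑ k ∈ range n,
      (TX (half p) (third p) k ^ 3 * X ^ (p - 1 - k)).coeff (4 * n) = 0 := by
    refine sum_eq_zero fun k hk => ?_
    have hk' := mem_range.1 hk
    have e : 4 * n = (2 * n + k) + (p - 1 - k) := by omega
    rw [e, coeff_mul_X_pow]
    refine coeff_eq_zero_of_natDegree_lt (lt_of_le_of_lt (cube_low (third p) k).1 ?_)
    omega
  have h2 : (TX (half p) (third p) n ^ 3 * X ^ (p - 1 - n)).coeff (4 * n) =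
      (u (half p) n) ^ 3 * (4 * third p) ^ (3 * n) := by
    have e : 4 * n = 3 * n + (p - 1 - n) := by omega
    rw [e, coeff_mul_X_pow]
    exact (cube_low (third p) n).2
  rw [h1, h2, zero_add]
  congr 1
  refine sum_congr rfl fun i hi => ?_
  have hi' := mem_range.1 hi
  have e0 : n + 1 + i = n + (i + 1) := by omega
  have e : 4 * n = (3 * n + (i + 1)) + (p - 1 - (n + 1 + i)) := by omega
  rw [e, coeff_mul_X_pow, e0]
  exact (cube_up hn (third p) (i := i + 1) (by omega) (by omega)).2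

theorem y2deg_val (hn : p = 2 * n + 1) (h3 : p ≠ 3) :
    (y2deg_S p).coeff (4 * n) = ep p * (1 + 6 * eta p) := by
  rw [y2deg_S_coeff hn]
  have h1 : ∑ i ∈ range n, 3 * (u (half p) n * u (half p) (i + 1)) ^ 2 *
        u (half p) (n + (i + 1)) * (4 * third p) ^ (3 * n + (i + 1)) =
      3 * (u (half p) n) ^ 2 * (4 * third p) ^ (3 * n) *
        ∑ i ∈ range n, (u (half p) (i + 1)) ^ 2 * u (half p) (n + (i + 1)) *
          (4 * third p) ^ (i + 1) := by
    rw [mul_sum]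
    refine sum_congr rfl fun i _ => ?_
    rw [pow_add]
    ring
  rw [h1, TopP hn h3]
  have hU := H4 hn
  have h2 : (2 : ZMod (p ^ 2)) ^ (p - 1) = 1 + eta p := by
    unfold eta
    ring
  have h4 : (4 : ZMod (p ^ 2)) ^ n = 1 + eta p := by
    rw [← h2]
    have e : p - 1 = 2 * n := by omega
    rw [e, pow_mul]
    norm_num
  have hg : ep p * (-third p) ^ n = gg p n := rfl
  have hep := ep_sq p
  have hgs := gg_sq hn h3
  have he := eta_sq hn
  have hw : (-third p) ^ n = ep p * gg p n := by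
    rw [← hg]
    linear_combination (-(-third p) ^ n) * hep
  have hyU : (4 * third p) ^ n * u (half p) n = (1 + eta p) ^ 2 * (ep p * gg p n) := by
    rw [hU, h2, ← hw, mul_pow, h4, neg_pow (third p) n]
    ring
  have hy3 : (4 * third p) ^ (3 * n) = ((4 * third p) ^ n) ^ 3 := by
    rw [← pow_mul, mul_comm 3 n]
  rw [hy3]
  have h5 : (u (half p) n) ^ 3 * ((4 * third p) ^ n) ^ 3 +
      3 * (u (half p) n) ^ 2 * ((4 * third p) ^ n) ^ 3 * (u (half p) n * (1 - gg p n)) =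
      ((4 * third p) ^ n * u (half p) n) ^ 3 * (4 - 3 * gg p n) := by ring
  rw [h5, hyU]
  generalize gg p n = g at hgs
  generalize eta p = t at he
  generalize ep p = e at hep
  have k1 : g ^ 3 * (4 - 3 * g) = 1 := by
    linear_combination (-(3 * g ^ 2 + 2 * g + 1)) * hgs
  have k2 : ((1 + t) ^ 2) ^ 3 = 1 + 6 * t := by
    linear_combination (15 + 20 * t + 15 * t ^ 2 + 6 * t ^ 3 + t ^ 4) * he
  have k3 : e ^ 3 = e := by
    linear_combination e * hep
  calc ((1 + t) ^ 2 * (e * g)) ^ 3 * (4 - 3 * g)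
      = ((1 + t) ^ 2) ^ 3 * e ^ 3 * (g ^ 3 * (4 - 3 * g)) := by ring
    _ = e * (1 + 6 * t) := by rw [k1, k2, k3]; ring

theorem y2deg_Y2 (p : ℕ) : Y2 (half p) (third p) p = (1 - X) * y2deg_S p := rfl

theorem Y2_deg (hn : p = 2 * n + 1) : (Y2 (half p) (third p) p).natDegree < p * 2 := by
  rw [y2deg_Y2]
  have h1 : ((1 - X : (ZMod (p ^ 2))[X])).natDegree ≤ 1 := by
    refine (natDegree_sub_le _ _).trans ?_
    simp only [natDegree_one]
    exact max_le (by omega) natDegree_X_le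
  have h2 := y2deg_S_deg hn
  have h3 : ((1 - X) * y2deg_S p).natDegree ≤
      (1 - X : (ZMod (p ^ 2))[X]).natDegree + (y2deg_S p).natDegree := natDegree_mul_le
  omega

theorem Y2_top (hn : p = 2 * n + 1) (h3 : p ≠ 3) :
    (Y2 (half p) (third p) p).coeff (2 * p - 1) = -(ep p * (1 + 6 * eta p)) := by
  rw [y2deg_Y2]
  have e : 2 * p - 1 = 4 * n + 1 := by omega
  rw [e, sub_mul, one_mul, coeff_sub, coeff_X_mul, y2deg_val hn h3]
  have h1 : (y2deg_S p).coeff (4 * n + 1) = 0 :=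
    coeff_eq_zero_of_natDegree_lt (lt_of_le_of_lt (y2deg_S_deg hn) (by omega))
  rw [h1, zero_sub]

theorem Y2_zero (hn : p = 2 * n + 1) (h3 : p ≠ 3) :
    (Y2 (half p) (third p) p).coeff 0 = ep p := by
  have hep := ep_sq p
  rw [y2deg_Y2, mul_coeff_zero]
  have h0 : ((1 - X : (ZMod (p ^ 2))[X])).coeff 0 = 1 := by
    simp
  rw [h0, one_mul]
  unfold y2deg_S
  rw [finsetSum_coeff]
  have hp1 : p - 1 ∈ range p := mem_range.2 (by omega)
  rw [sum_eq_single_of_mem _ hp1]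
  · rw [Nat.sub_self, pow_zero, mul_one, coeff_zero_eq_eval_zero, eval_pow,
      ← coeff_zero_eq_eval_zero, TX_coeff_zero, C0P hn h3]
    linear_combination ep p * hep
  · intro k hk hne
    have hk' := mem_range.1 hk
    rw [mul_coeff_zero, coeff_X_pow, if_neg (by omega), mul_zero]

theorem Y2_p (hn : p = 2 * n + 1) (h3 : p ≠ 3) :
    (Y2 (half p) (third p) p).coeff p = -ep p := by
  have h2 := y2deg_two hn
  have he := eta_sq hn
  have hL : Ld ((p : ZMod (p ^ 2)) * 1) (Y2 (half p) (third p) p) = 0 := by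
    rw [mul_one]
    exact Ld_Y2 (two_half h2) (three_third h3) p_sq
  have h4 := block hn 1 hL 1 (j := p - 1) (by omega)
  have e : p * 1 + (p - 1) = 2 * p - 1 := by omega
  rw [e, Y2_top hn h3, mul_one] at h4
  have h5 : yy p (((1 : ℕ) : ZMod (p ^ 2)) - 1) (p - 1) = 1 + 6 * eta p := by
    unfold yy
    rw [Nat.cast_one, sub_self, dom_top hn]
    ring
  rw [h5] at h4
  linear_combination (-(1 - 6 * eta p)) * h4 +
    (36 * ((Y2 (half p) (third p) p).coeff p) + 36 * ep p) * he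

end MPf96
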