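import Pool.Agent.H.MP_f96d9d_nt.Q2.ValA
import Pool.Agent.H.MP_f96d9d_nt.Q2.VTop
import Pool.Agent.H.MP_f96d9d_nt.Q2.FrobF
import Pool.Agent.H.MP_f96d9d_nt.Q2.CP
import Pool.Agent.H.MP_f96d9d_nt.Q2.Y2Deg

/-!
# The coefficient of `X^p` in `V` is `5 - 6p`

`M = 3n(p+1)`, `M' = 3 (p^6-1)/2`, `t = 3 (p^4-1)/2` (even, since `16 ∣ p^4 - 1`), `M' = M + p^2 t`
(`M = 3 (p^2-1)/2`). In `(ZMod (p^2))[X]`, `h = half p`, `w = third p`:
`VK h w M' (p+1) = fq^(p^2 t) VV + (1-X) C(27^p) X^p fq^(M'-3p) TX_p^3`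
(for `k < p` `M' - 3k = p^2 t + (M - 3k)`).
Coefficient of `X^p`: left 4 (`valA_p`). `fq^(p^2 t) = (1-4X^p)^(pt) = 1 - 4 p t X^p + X^(2p) W`
(`frob_p2`, `frob_coeff`), so the first term gives `V_p - 4 p t V_0 = V_p - 4pt` (`VV_zero`), and
`-4 p t = -6 p (p^4 - 1) = 6p` in `ZMod (p^2)` (`2t = 3(p^4-1)`). The second term gives
`27^p (-1)^(M'-3p) (TX_p(0))^3 = - (3^p T_p(-w))^3 = -1` (`TX_coeff_zero`, `C1P`; `M' - 3p` is odd:
`M'` is even, `p` odd; `fq(0) = -1`). So `4 = V_p + 6p - 1`.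
-/

set_option autoImplicit false

namespace MPf96

open Polynomial Finset

variable {p n : ℕ} [hp : Fact p.Prime]

omit hp in
theorem valb_exp (hn : p = 2 * n + 1) : 3 * ((p ^ 6 - 1) / 2) =
    3 * n * (p + 1) + p ^ 2 * (6 * n * (n + 1) * (p ^ 2 + 1)) := by
  have h1 : p ^ 6 = 2 * (2 * n * (n + 1) * (p ^ 4 + p ^ 2 + 1)) + 1 := by
    subst hn
    ring
  have h2 : (p ^ 6 - 1) / 2 = 2 * n * (n + 1) * (p ^ 4 + p ^ 2 + 1) := by omega
  rw [h2]
  subst hn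
  ring

/-- splitting off the last term and the power of `fq` -/
theorem valb_split {R : Type*} [CommRing R] (h w : R) {M M' K s : ℕ} (hM : M' = M + s)
    (hK : 3 * K ≤ M + 3) :
    VK h w M' (K + 1) = fq ^ s * VK h w M K +
      X ^ K * ((1 - X) * C (27 ^ K) * fq ^ (M' - 3 * K) * TX h w K ^ 3) := by
  unfold VK
  have h1 : ∑ k ∈ range K, C (27 ^ k) * (X ^ k * fq ^ (M' - 3 * k)) * TX h w k ^ 3 =
      fq ^ s * ∑ k ∈ range K, C (27 ^ k) * (X ^ k * fq ^ (M - 3 * k)) * TX h w k ^ 3 := by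
    rw [Finset.mul_sum]
    refine Finset.sum_congr rfl fun k hk => ?_
    have h2 : M' - 3 * k = s + (M - 3 * k) := by
      have := mem_range.1 hk
      omega
    rw [h2, pow_add]
    ring
  rw [Finset.sum_range_succ, h1]
  ring

theorem valb_fq_zero {R : Type*} [CommRing R] : (fq : R[X]).eval 0 = -1 := by
  unfold fq
  simp

theorem VV_p (hn : p = 2 * n + 1) (h3 : p ≠ 3) : (VV p n).coeff p = 5 - 6 * p := by
  have hp1 : 1 < p := hp.out.one_lt
  have hn1 : 1 ≤ n := by omega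
  have h4 := valA_p hn h3
  have hle : 3 * p ≤ 3 * n * (p + 1) + 3 := by
    have : 3 * 1 * (p + 1) ≤ 3 * n * (p + 1) := by gcongr
    omega
  have hle2 : 3 * p ≤ 3 * n * (p + 1) := by
    have : 3 * 1 * (p + 1) ≤ 3 * n * (p + 1) := by gcongr
    omega
  have hev : Even (6 * n * (n + 1) * (p ^ 2 + 1)) := ⟨3 * n * (n + 1) * (p ^ 2 + 1), by ring⟩
  have hexp := valb_exp hn
  obtain ⟨t, ht⟩ : ∃ t, t = 6 * n * (n + 1) * (p ^ 2 + 1) := ⟨_, rfl⟩
  rw [← ht] at hexp hev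
  obtain ⟨M', hM'⟩ : ∃ M', M' = 3 * ((p ^ 6 - 1) / 2) := ⟨_, rfl⟩
  rw [← hM'] at h4 hexp
  rw [valb_split (half p) (third p) hexp hle, coeff_add] at h4
  obtain ⟨W, hW⟩ := frob_coeff (ZMod (p ^ 2)) (show 0 < p by omega) (p * t)
  have h5 : (fq ^ (p ^ 2 * t) * VK (half p) (third p) (3 * n * (p + 1)) p).coeff p =
      (VV p n).coeff p - 4 * ((p : ZMod (p ^ 2)) * (t : ZMod (p ^ 2))) := by
    rw [frob_p2 hn hev, hW]
    have h6 : (1 - 4 * ((p * t : ℕ) : (ZMod (p ^ 2))[X]) * X ^ p + X ^ (2 * p) * W) *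
        VK (half p) (third p) (3 * n * (p + 1)) p =
        VV p n - C (4 * ((p : ZMod (p ^ 2)) * (t : ZMod (p ^ 2)))) * (X ^ p * VV p n) +
          X ^ (2 * p) * (W * VV p n) := by
      unfold VV
      simp only [C_mul, map_ofNat, map_natCast]
      push_cast
      ring
    rw [h6, coeff_add, coeff_sub, coeff_C_mul, coeff_X_pow_mul', coeff_X_pow_mul',
      if_pos le_rfl, if_neg (by omega), Nat.sub_self, VV_zero hn]
    ring
  have h7 : (X ^ p * ((1 - X) * C (27 ^ p) * fq ^ (M' - 3 * p) *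
      TX (half p) (third p) p ^ 3)).coeff p = -1 := by
    rw [coeff_X_pow_mul', if_pos le_rfl, Nat.sub_self, coeff_zero_eq_eval_zero]
    simp only [eval_mul, eval_sub, eval_one, eval_X, eval_C, eval_pow, valb_fq_zero]
    rw [← coeff_zero_eq_eval_zero, TX_coeff_zero]
    have hodd : Odd (M' - 3 * p) := by
      obtain ⟨c, hc⟩ := hev
      have h8 : 3 * n * (p + 1) = 2 * (3 * n * (n + 1)) := by
        rw [hn]
        ring
      have h9 : p ^ 2 * t = 2 * (p ^ 2 * c) := by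
        rw [hc]
        ring
      refine ⟨3 * n * (n + 1) + p ^ 2 * c - 3 * n - 2, ?_⟩
      have h10 : 3 * 1 * (p + 1) ≤ 3 * n * (p + 1) := by gcongr
      omega
    rw [hodd.neg_one_pow]
    have h11 := C1P hn h3
    have h12 : (27 : ZMod (p ^ 2)) ^ p = (3 ^ p) ^ 3 := by
      rw [← pow_mul, mul_comm p 3, pow_mul]
      norm_num
    have h13 : ((3 : ZMod (p ^ 2)) ^ p * Tv (half p) (-third p) p) ^ 3 = 1 := by
      rw [h11, one_pow]
    rw [h12]
    linear_combination (-1 : ZMod (p ^ 2)) * h13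
  rw [h5, h7] at h4
  have hsq := p_sq (p := p)
  have hpn : (p : ZMod (p ^ 2)) = 2 * (n : ZMod (p ^ 2)) + 1 := by
    exact_mod_cast congrArg (fun x : ℕ => (x : ZMod (p ^ 2))) hn
  have htc : (t : ZMod (p ^ 2)) =
      6 * (n : ZMod (p ^ 2)) * ((n : ZMod (p ^ 2)) + 1) * ((p : ZMod (p ^ 2)) ^ 2 + 1) := by
    rw [ht]
    push_cast
    ring
  have h14 : 4 * (n : ZMod (p ^ 2)) * ((n : ZMod (p ^ 2)) + 1) = -1 := by
    have h15 : (p : ZMod (p ^ 2)) ^ 2 = (2 * (n : ZMod (p ^ 2)) + 1) ^ 2 :=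
      congrArg (fun x => x ^ 2) hpn
    linear_combination hsq - h15
  rw [htc, hsq] at h4
  linear_combination h4 + 6 * (p : ZMod (p ^ 2)) * h14

end MPf96
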